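import Pool.Agent.TH319.Basic

/-!
Triangular sequences and the selection of closed infinite-dimensional subspaces on which an
operator is small.
-/

namespace Pool.Agent.TH319

open Module

variable {𝕜 : Type*} [RCLike 𝕜] {X : Type*} [NormedAddCommGroup X] [NormedSpace 𝕜 X]

/-- A triangular system: `φ n (z n) = 1`, `φ n (z m) = 0` for `n < m`, all of norm at most one. -/
structure Tri (z : ℕ → X) (φ : ℕ → (X →L[𝕜] 𝕜)) : Prop where
  nz : ∀ n, ‖z n‖ = 1
  nφ : ∀ n, ‖φ n‖ ≤ 1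
  diag : ∀ n, φ n (z n) = 1
  off : ∀ n m, n < m → φ n (z m) = 0

theorem Tri.coef_le {z : ℕ → X} {φ : ℕ → (X →L[𝕜] 𝕜)} (h : Tri z φ) (a : ℕ → 𝕜) (N : ℕ) :
    ∀ n, n < N → ‖a n‖ ≤ 2 ^ n * ‖∑ j ∈ Finset.range N, a j • z j‖ := by
  set x := ∑ j ∈ Finset.range N, a j • z j with hx
  intro n
  induction n using Nat.strong_induction_on with
  | _ n IH =>
    intro hn
    have h1 : φ n x = ∑ j ∈ Finset.range N, a j * φ n (z j) := by
      rw [hx, map_sum]; simp
    have h2 : ∑ j ∈ Finset.range N, a j * φ n (z j)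
        = ∑ j ∈ Finset.range (n+1), a j * φ n (z j) := by
      symm
      apply Finset.sum_subset
      · intro j hj; simp only [Finset.mem_range] at hj ⊢; omega
      · intro j _ hj
        simp only [Finset.mem_range, not_lt] at hj
        rw [h.off n j (by omega), mul_zero]
    have h3 : a n = φ n x - ∑ j ∈ Finset.range n, a j * φ n (z j) := by
      rw [h1, h2, Finset.sum_range_succ, h.diag, mul_one]; ring
    have h4 : ‖φ n x‖ ≤ ‖x‖ := by
      calc ‖φ n x‖ ≤ ‖φ n‖ * ‖x‖ := (φ n).le_opNorm x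
        _ ≤ 1 * ‖x‖ := by gcongr; exact h.nφ n
        _ = ‖x‖ := one_mul _
    have h5 : ‖∑ j ∈ Finset.range n, a j * φ n (z j)‖ ≤ ∑ j ∈ Finset.range n, 2 ^ j * ‖x‖ := by
      refine (norm_sum_le _ _).trans (Finset.sum_le_sum ?_)
      intro j hj
      simp only [Finset.mem_range] at hj
      have : ‖φ n (z j)‖ ≤ 1 := by
        calc ‖φ n (z j)‖ ≤ ‖φ n‖ * ‖z j‖ := (φ n).le_opNorm _
          _ ≤ 1 * 1 := by rw [h.nz]; gcongr; exact h.nφ n
          _ = 1 := by norm_num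
      rw [norm_mul]
      calc ‖a j‖ * ‖φ n (z j)‖ ≤ ‖a j‖ * 1 := by gcongr
        _ = ‖a j‖ := mul_one _
        _ ≤ _ := IH j hj (by omega)
    have h6 : ∑ j ∈ Finset.range n, (2:ℝ) ^ j * ‖x‖ = (2 ^ n - 1) * ‖x‖ := by
      rw [← Finset.sum_mul, geom_sum_eq (by norm_num)]; norm_num
    calc ‖a n‖ = ‖φ n x - ∑ j ∈ Finset.range n, a j * φ n (z j)‖ := by rw [← h3]
      _ ≤ ‖φ n x‖ + ‖∑ j ∈ Finset.range n, a j * φ n (z j)‖ := norm_sub_le _ _
      _ ≤ ‖x‖ + (2 ^ n - 1) * ‖x‖ := by rw [← h6]; exact add_le_add h4 h5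
      _ = 2 ^ n * ‖x‖ := by ring

theorem mem_span_range_iff_sum {z : ℕ → X} {x : X} :
    x ∈ Submodule.span 𝕜 (Set.range z) ↔
      ∃ (a : ℕ → 𝕜) (N : ℕ), x = ∑ j ∈ Finset.range N, a j • z j := by
  constructor
  · intro h
    obtain ⟨c, hc⟩ := Finsupp.mem_span_range_iff_exists_finsupp.1 h
    obtain ⟨N, hN⟩ := c.support.exists_nat_subset_range
    refine ⟨c, N, ?_⟩
    rw [← hc]
    exact Finsupp.sum_of_support_subset c hN _ (by simp)
  · rintro ⟨a, N, rfl⟩
    exact Submodule.sum_mem _ fun j _ =>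
      Submodule.smul_mem _ _ (Submodule.subset_span ⟨j, rfl⟩)

theorem Tri.linearIndependent {z : ℕ → X} {φ : ℕ → (X →L[𝕜] 𝕜)} (h : Tri z φ) :
    LinearIndependent 𝕜 z := by
  rw [linearIndependent_iff]
  intro c hc
  obtain ⟨N, hN⟩ := c.support.exists_nat_subset_range
  have h0 : ∑ j ∈ Finset.range N, c j • z j = 0 := by
    rw [← hc, Finsupp.linearCombination_apply]
    exact (Finsupp.sum_of_support_subset c hN (fun i a => a • z i) (by simp)).symm
  ext n
  by_cases hn : n < N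
  · have := h.coef_le c N n hn
    rw [h0, norm_zero, mul_zero] at this
    simpa using this
  · have : n ∉ c.support := fun h' => hn (by simpa using hN h')
    simpa using this

theorem inf_of_linearIndependent {z : ℕ → X} (h : LinearIndependent 𝕜 z) {M : Submodule 𝕜 X}
    (hz : ∀ n, z n ∈ M) : ¬ FiniteDimensional 𝕜 M := by
  intro hM
  have h' : LinearIndependent 𝕜 (fun n => (⟨z n, hz n⟩ : M)) := by
    apply LinearIndependent.of_comp M.subtype
    exact h
  have := h'.finite_of_isNoetherian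
  exact not_finite ℕ

/-- A vector of norm one in any closed subspace of finite codimension. -/
theorem exists_norm_one_of_inf {L : Submodule 𝕜 X} (hL : ¬ FiniteDimensional 𝕜 L) :
    ∃ u ∈ L, ‖u‖ = 1 := by
  have : L ≠ ⊥ := by
    rintro rfl
    exact hL inferInstance
  obtain ⟨u, hu, hu0⟩ := Submodule.exists_mem_ne_zero_of_ne_bot this
  refine ⟨((‖u‖⁻¹ : ℝ) : 𝕜) • u, L.smul_mem _ hu, ?_⟩
  rw [norm_smul, RCLike.norm_ofReal, abs_of_nonneg (by positivity)]
  exact inv_mul_cancel₀ (norm_ne_zero_iff.2 hu0)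

theorem exists_CI_small {Z : Type*} [NormedAddCommGroup Z] [NormedSpace 𝕜 Z]
    (A : X →L[𝕜] Z) (L0 : Submodule 𝕜 X) (hL0c : IsClosed (L0 : Set X))
    (hL0 : Module.Finite 𝕜 (X ⧸ L0)) {δ : ℝ} (hδ : 0 < δ)
    (h : ∀ L : Submodule 𝕜 X, IsClosed (L : Set X) → Module.Finite 𝕜 (X ⧸ L) →
      ∀ δ' > 0, ∃ u ∈ L, ‖u‖ = 1 ∧ ‖A u‖ ≤ δ') :
    ∃ M : Submodule 𝕜 X, CI M ∧ M ≤ L0 ∧ ∀ m ∈ M, ‖A m‖ ≤ δ * ‖m‖ := by
  classical
  let P : X × (X →L[𝕜] 𝕜) × ℕ → Prop := fun t =>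
    t.1 ∈ L0 ∧ ‖t.1‖ = 1 ∧ ‖t.2.1‖ ≤ 1 ∧ t.2.1 t.1 = 1 ∧ ‖A t.1‖ ≤ δ * (1/4) ^ (t.2.2 + 1)
  let r : X × (X →L[𝕜] 𝕜) × ℕ → X × (X →L[𝕜] 𝕜) × ℕ → Prop := fun t t' =>
    t.2.1 t'.1 = 0 ∧ t.2.2 < t'.2.2
  obtain ⟨f, hf1, hf2⟩ := exists_seq_of_forall_finset_exists P r (by
    intro s _
    let Φ : X →L[𝕜] (s → 𝕜) := ContinuousLinearMap.pi fun t => t.1.2.1
    have hfin : Module.Finite 𝕜 (X ⧸ (LinearMap.ker (Φ : X →ₗ[𝕜] (s → 𝕜)) ⊓ L0)) :=
      finite_quotient_inf (finite_quotient_ker _) hL0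
    have hcl : IsClosed ((LinearMap.ker (Φ : X →ₗ[𝕜] (s → 𝕜)) ⊓ L0 : Submodule 𝕜 X) : Set X) := by
      have h1 : IsClosed ((LinearMap.ker (Φ : X →ₗ[𝕜] (s → 𝕜)) : Submodule 𝕜 X) : Set X) := by
        exact Φ.isClosed_ker
      exact h1.inter hL0c
    let k : ℕ := s.sup (fun t => t.2.2) + 1
    obtain ⟨u, huL, hu1, hu2⟩ := h _ hcl hfin (δ * (1/4) ^ (k + 1)) (by positivity)
    obtain ⟨g, hg1, hg2⟩ := exists_dual_vector'' 𝕜 u
    refine ⟨(u, g, k), ⟨huL.2, hu1, hg1, ?_, hu2⟩, ?_⟩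
    · rw [hg2, hu1]; simp
    · intro t ht
      refine ⟨?_, ?_⟩
      · have h2 : Φ u = 0 := LinearMap.mem_ker.1 (show u ∈ LinearMap.ker (Φ : X →ₗ[𝕜] (s → 𝕜))
          from (Submodule.mem_inf.1 huL).1)
        have h3 := congrFun h2 ⟨t, ht⟩
        simpa [Φ] using h3
      · have : t.2.2 ≤ s.sup (fun t => t.2.2) := Finset.le_sup (f := fun t => t.2.2) ht
        show t.2.2 < k
        omega)
  have hidx : ∀ n, n ≤ (f n).2.2 := by
    intro n
    induction n with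
    | zero => exact Nat.zero_le _
    | succ n ih =>
      have := (hf2 n (n+1) (Nat.lt_succ_self n)).2
      omega
  have hT : Tri (fun n => (f n).1) (fun n => (f n).2.1) :=
    ⟨fun n => (hf1 n).2.1, fun n => (hf1 n).2.2.1, fun n => (hf1 n).2.2.2.1,
      fun n m hnm => (hf2 n m hnm).1⟩
  have hA : ∀ n, ‖A (f n).1‖ ≤ δ * (1/4) ^ (n+1) := by
    intro n
    refine ((hf1 n).2.2.2.2).trans ?_
    gcongr δ * ?_
    exact pow_le_pow_of_le_one (by norm_num) (by norm_num) (by have := hidx n; omega)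
  let S := Submodule.span 𝕜 (Set.range fun n => (f n).1)
  refine ⟨S.topologicalClosure, ⟨S.isClosed_topologicalClosure, ?_⟩, ?_, ?_⟩
  · apply inf_of_linearIndependent hT.linearIndependent
    intro n
    exact S.le_topologicalClosure (Submodule.subset_span ⟨n, rfl⟩)
  · apply Submodule.topologicalClosure_minimal _ _ hL0c
    rw [Submodule.span_le]
    rintro _ ⟨n, rfl⟩
    exact (hf1 n).1
  · have hspan : ∀ m ∈ S, ‖A m‖ ≤ δ * ‖m‖ := by
      intro m hm
      obtain ⟨a, N, rfl⟩ := mem_span_range_iff_sum.1 hm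
      set x := ∑ j ∈ Finset.range N, a j • (f j).1 with hx
      have h1 : A x = ∑ j ∈ Finset.range N, a j • A (f j).1 := by rw [hx, map_sum]; simp
      rw [h1]
      calc ‖∑ j ∈ Finset.range N, a j • A (f j).1‖
          ≤ ∑ j ∈ Finset.range N, ‖a j • A (f j).1‖ := norm_sum_le _ _
        _ ≤ ∑ j ∈ Finset.range N, (2 ^ j * ‖x‖) * (δ * (1/4) ^ (j+1)) := by
            apply Finset.sum_le_sum
            intro j hj
            rw [norm_smul]
            gcongr
            · exact hT.coef_le a N j (by simpa using hj)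
            · exact hA j
        _ = δ * ‖x‖ * ((1/4) * ∑ j ∈ Finset.range N, (1/2 : ℝ) ^ j) := by
            rw [Finset.mul_sum, Finset.mul_sum]
            apply Finset.sum_congr rfl
            intro j _
            have : (2:ℝ) ^ j * (1/4) ^ j = (1/2) ^ j := by
              rw [← mul_pow]; norm_num
            rw [← this, pow_succ]; ring
        _ ≤ δ * ‖x‖ * ((1/4) * 2) := by
            gcongr
            rw [geom_sum_eq (by norm_num)]
            have : (0:ℝ) ≤ (1/2)^N := by positivity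
            have h2 : ((1/2:ℝ) ^ N - 1) / (1/2 - 1) = 2 * (1 - (1/2)^N) := by ring
            rw [h2]; linarith
        _ ≤ δ * ‖x‖ := by
            have : 0 ≤ δ * ‖x‖ := by positivity
            linarith
    intro m hm
    have hcl : IsClosed {m : X | ‖A m‖ ≤ δ * ‖m‖} :=
      isClosed_le (by fun_prop) (by fun_prop)
    have : (S.topologicalClosure : Set X) ⊆ {m : X | ‖A m‖ ≤ δ * ‖m‖} := by
      rw [Submodule.topologicalClosure_coe]
      exact closure_minimal (fun m hm => hspan m hm) hcl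
    exact this hm

end Pool.Agent.TH319
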