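import Pool.Agent.TH319.Chain
import Pool.Agent.TH319.Select

/-!
Almost Hilbertian sequences in a homogeneous space give the parallelogram identity.
-/

namespace Pool.Agent.TH319

open Module Filter Topology

variable {𝕜 : Type*} [RCLike 𝕜] {X : Type*} [NormedAddCommGroup X] [NormedSpace 𝕜 X]

theorem mem_span_range_ev {z : ℕ → X} {x : X} (hx : x ∈ Submodule.span 𝕜 (Set.range z)) :
    ∃ (a : ℕ → 𝕜) (N : ℕ), ∀ M ≥ N, x = ∑ j ∈ Finset.range M, a j • z j := by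
  obtain ⟨c, hc⟩ := Finsupp.mem_span_range_iff_exists_finsupp.1 hx
  obtain ⟨N, hN⟩ := c.support.exists_nat_subset_range
  refine ⟨c, N, fun M hM => ?_⟩
  rw [← hc]
  exact Finsupp.sum_of_support_subset c (hN.trans (Finset.range_mono hM)) _ (by simp)

theorem para_ineq_span {h : ℕ → X} {Δ : ℝ} (hΔ : 0 < Δ)
    (hh : ∀ (z : ℕ → 𝕜) (n : ℕ),
      ‖∑ i ∈ Finset.range n, z i • h i‖
        ≤ (1 + Δ) * Real.sqrt (∑ i ∈ Finset.range n, ‖z i‖ ^ 2) ∧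
      Real.sqrt (∑ i ∈ Finset.range n, ‖z i‖ ^ 2)
        ≤ (1 + Δ) * ‖∑ i ∈ Finset.range n, z i • h i‖)
    {x y : X} (hx : x ∈ Submodule.span 𝕜 (Set.range h))
    (hy : y ∈ Submodule.span 𝕜 (Set.range h)) :
    ‖x + y‖ ^ 2 + ‖x - y‖ ^ 2 ≤ 2 * (1 + Δ) ^ 4 * (‖x‖ ^ 2 + ‖y‖ ^ 2) := by
  obtain ⟨a, N1, ha⟩ := mem_span_range_ev hx
  obtain ⟨b, N2, hb⟩ := mem_span_range_ev hy
  set N := max N1 N2 with hN
  have hxa := ha N (le_max_left _ _)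
  have hyb := hb N (le_max_right _ _)
  have up : ∀ z : ℕ → 𝕜, ‖∑ i ∈ Finset.range N, z i • h i‖ ^ 2
      ≤ (1 + Δ) ^ 2 * ∑ i ∈ Finset.range N, ‖z i‖ ^ 2 := by
    intro z
    have h1 := (hh z N).1
    have h0 : 0 ≤ ∑ i ∈ Finset.range N, ‖z i‖ ^ 2 := Finset.sum_nonneg fun _ _ => by positivity
    calc _ ≤ ((1 + Δ) * Real.sqrt (∑ i ∈ Finset.range N, ‖z i‖ ^ 2)) ^ 2 := by gcongr
      _ = _ := by rw [mul_pow, Real.sq_sqrt h0]
  have lo : ∀ z : ℕ → 𝕜, ∑ i ∈ Finset.range N, ‖z i‖ ^ 2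
      ≤ (1 + Δ) ^ 2 * ‖∑ i ∈ Finset.range N, z i • h i‖ ^ 2 := by
    intro z
    have h1 := (hh z N).2
    have h0 : 0 ≤ ∑ i ∈ Finset.range N, ‖z i‖ ^ 2 := Finset.sum_nonneg fun _ _ => by positivity
    calc _ = (Real.sqrt (∑ i ∈ Finset.range N, ‖z i‖ ^ 2)) ^ 2 := (Real.sq_sqrt h0).symm
      _ ≤ ((1 + Δ) * ‖∑ i ∈ Finset.range N, z i • h i‖) ^ 2 := by gcongr
      _ = _ := by rw [mul_pow]
  have e1 : x + y = ∑ i ∈ Finset.range N, (a i + b i) • h i := by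
    rw [hxa, hyb, ← Finset.sum_add_distrib]
    exact Finset.sum_congr rfl fun i _ => (add_smul _ _ _).symm
  have e2 : x - y = ∑ i ∈ Finset.range N, (a i - b i) • h i := by
    rw [hxa, hyb, ← Finset.sum_sub_distrib]
    exact Finset.sum_congr rfl fun i _ => (sub_smul _ _ _).symm
  have u1 := up (fun i => a i + b i)
  have u2 := up (fun i => a i - b i)
  rw [← e1] at u1
  rw [← e2] at u2
  have l1 := lo a
  have l2 := lo b
  rw [← hxa] at l1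
  rw [← hyb] at l2
  have hsum : ∑ i ∈ Finset.range N, ‖a i + b i‖ ^ 2 + ∑ i ∈ Finset.range N, ‖a i - b i‖ ^ 2
      = 2 * (∑ i ∈ Finset.range N, ‖a i‖ ^ 2 + ∑ i ∈ Finset.range N, ‖b i‖ ^ 2) := by
    rw [← Finset.sum_add_distrib, ← Finset.sum_add_distrib, Finset.mul_sum]
    apply Finset.sum_congr rfl
    intro i _
    have := parallelogram_law_with_norm_mul 𝕜 (a i) (b i)
    simp only [sq]
    linarith
  calc ‖x + y‖ ^ 2 + ‖x - y‖ ^ 2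
      ≤ (1 + Δ) ^ 2 * ∑ i ∈ Finset.range N, ‖a i + b i‖ ^ 2
        + (1 + Δ) ^ 2 * ∑ i ∈ Finset.range N, ‖a i - b i‖ ^ 2 := add_le_add u1 u2
    _ = (1 + Δ) ^ 2 * (2 * (∑ i ∈ Finset.range N, ‖a i‖ ^ 2
        + ∑ i ∈ Finset.range N, ‖b i‖ ^ 2)) := by rw [← hsum]; ring
    _ ≤ (1 + Δ) ^ 2 * (2 * ((1 + Δ) ^ 2 * ‖x‖ ^ 2 + (1 + Δ) ^ 2 * ‖y‖ ^ 2)) := by gcongr
    _ = _ := by ring

theorem para_ineq (hX : Homog 𝕜 X) (hN : NearHilbert 𝕜 X) {Δ : ℝ} (hΔ : 0 < Δ) (x y : X) :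
    ‖x + y‖ ^ 2 + ‖x - y‖ ^ 2 ≤ 2 * (1 + Δ) ^ 4 * (‖x‖ ^ 2 + ‖y‖ ^ 2) := by
  obtain ⟨h, h0, hh⟩ := hN Δ hΔ
  set S := Submodule.span 𝕜 (Set.range h) with hS
  have hLI : LinearIndependent 𝕜 h := by
    rw [linearIndependent_iff]
    intro c hc
    obtain ⟨N, hN⟩ := c.support.exists_nat_subset_range
    have h1 : ∑ j ∈ Finset.range N, c j • h j = 0 := by
      rw [← hc, Finsupp.linearCombination_apply]
      exact (Finsupp.sum_of_support_subset c hN (fun i a => a • h i) (by simp)).symm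
    have h2 := (hh c N).2
    rw [h1, norm_zero, mul_zero] at h2
    have h3 : Real.sqrt (∑ i ∈ Finset.range N, ‖c i‖ ^ 2) = 0 :=
      le_antisymm h2 (Real.sqrt_nonneg _)
    rw [Real.sqrt_eq_zero (Finset.sum_nonneg fun _ _ => by positivity)] at h3
    rw [Finset.sum_eq_zero_iff_of_nonneg (fun _ _ => by positivity)] at h3
    ext n
    by_cases hn : n ∈ Finset.range N
    · have := h3 n hn
      simpa using this
    · have : n ∉ c.support := fun h' => hn (hN h')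
      simpa using this
  have hinf : ¬ FiniteDimensional 𝕜 S.topologicalClosure :=
    inf_of_linearIndependent hLI fun n =>
      S.le_topologicalClosure (Submodule.subset_span ⟨n, rfl⟩)
  obtain ⟨V⟩ := hX _ S.isClosed_topologicalClosure hinf
  have key : ∀ x ∈ S.topologicalClosure, ∀ y ∈ S.topologicalClosure,
      ‖x + y‖ ^ 2 + ‖x - y‖ ^ 2 ≤ 2 * (1 + Δ) ^ 4 * (‖x‖ ^ 2 + ‖y‖ ^ 2) := by
    have step1 : ∀ y ∈ S, ∀ x ∈ S.topologicalClosure,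
        ‖x + y‖ ^ 2 + ‖x - y‖ ^ 2 ≤ 2 * (1 + Δ) ^ 4 * (‖x‖ ^ 2 + ‖y‖ ^ 2) := by
      intro y hy x hx
      have hcl : IsClosed {x : X | ‖x + y‖ ^ 2 + ‖x - y‖ ^ 2
          ≤ 2 * (1 + Δ) ^ 4 * (‖x‖ ^ 2 + ‖y‖ ^ 2)} := isClosed_le (by fun_prop) (by fun_prop)
      have hsub : (S.topologicalClosure : Set X) ⊆ {x : X | ‖x + y‖ ^ 2 + ‖x - y‖ ^ 2
          ≤ 2 * (1 + Δ) ^ 4 * (‖x‖ ^ 2 + ‖y‖ ^ 2)} := by
        rw [Submodule.topologicalClosure_coe]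
        exact closure_minimal (fun x hx => para_ineq_span hΔ hh hx hy) hcl
      exact hsub hx
    intro x hx y hy
    have hcl : IsClosed {y : X | ‖x + y‖ ^ 2 + ‖x - y‖ ^ 2
        ≤ 2 * (1 + Δ) ^ 4 * (‖x‖ ^ 2 + ‖y‖ ^ 2)} := isClosed_le (by fun_prop) (by fun_prop)
    have hsub : (S.topologicalClosure : Set X) ⊆ {y : X | ‖x + y‖ ^ 2 + ‖x - y‖ ^ 2
        ≤ 2 * (1 + Δ) ^ 4 * (‖x‖ ^ 2 + ‖y‖ ^ 2)} := by
      rw [Submodule.topologicalClosure_coe]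
      exact closure_minimal (fun y hy => step1 y hy x hx) hcl
    exact hsub hy
  have h1 := key (V x) (V x).2 (V y) (V y).2
  have e : ∀ w : X, ‖((V w : S.topologicalClosure) : X)‖ = ‖w‖ := fun w => V.norm_map w
  have e1 : ((V x : S.topologicalClosure) : X) + (V y : S.topologicalClosure)
      = ((V (x + y) : S.topologicalClosure) : X) := by rw [map_add]; rfl
  have e2 : ((V x : S.topologicalClosure) : X) - (V y : S.topologicalClosure)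
      = ((V (x - y) : S.topologicalClosure) : X) := by rw [map_sub]; rfl
  rw [e1, e2, e, e, e, e] at h1
  exact h1

theorem para_ineq0 (hX : Homog 𝕜 X) (hN : NearHilbert 𝕜 X) (x y : X) :
    ‖x + y‖ ^ 2 + ‖x - y‖ ^ 2 ≤ 2 * (‖x‖ ^ 2 + ‖y‖ ^ 2) := by
  have h1 : Tendsto (fun Δ : ℝ => 2 * (1 + Δ) ^ 4 * (‖x‖ ^ 2 + ‖y‖ ^ 2)) (𝓝[>] 0)
      (𝓝 (2 * (1 + 0) ^ 4 * (‖x‖ ^ 2 + ‖y‖ ^ 2))) := by
    apply Tendsto.mono_left _ nhdsWithin_le_nhds
    exact Continuous.tendsto (by fun_prop) 0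
  have h2 := ge_of_tendsto h1 (b := ‖x + y‖ ^ 2 + ‖x - y‖ ^ 2) (by
    filter_upwards [self_mem_nhdsWithin] with Δ hΔ
    exact para_ineq hX hN hΔ x y)
  simpa using h2

theorem parallelogram_of_nearHilbert (hX : Homog 𝕜 X) (hN : NearHilbert 𝕜 X) (x y : X) :
    ‖x + y‖ * ‖x + y‖ + ‖x - y‖ * ‖x - y‖ = 2 * (‖x‖ * ‖x‖ + ‖y‖ * ‖y‖) := by
  have h1 := para_ineq0 hX hN x y
  have h2 := para_ineq0 hX hN (x + y) (x - y)
  have e1 : (x + y) + (x - y) = (2 : 𝕜) • x := by rw [two_smul]; abel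
  have e2 : (x + y) - (x - y) = (2 : 𝕜) • y := by rw [two_smul]; abel
  rw [e1, e2, norm_smul, norm_smul, RCLike.norm_ofNat] at h2
  nlinarith

/-- A separable homogeneous space in which all vectors have rotation partners is isometric to
the space of square-summable sequences. -/
theorem l2_of_partner [CompleteSpace X] [TopologicalSpace.SeparableSpace X] (hX : Homog 𝕜 X)
    (hinf : ¬ FiniteDimensional 𝕜 X) (hP : Partner 𝕜 X) :
    Nonempty (X ≃ₗᵢ[𝕜] lp (fun _ : ℕ => 𝕜) 2) :=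
  l2_of_parallelogram hinf
    (parallelogram_of_nearHilbert hX (nearHilbert_of_partner hinf hP))

end Pool.Agent.TH319
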