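import Pool.Agent.TH319.Rot
import Pool.Agent.TH319.Para

/-!
Rotation partners in real homogeneous spaces, and the real case of the theorem.
-/

namespace Pool.Agent.TH319

open Module Filter Topology

section general
variable {𝕜 : Type*} [RCLike 𝕜] {X : Type*} [NormedAddCommGroup X] [NormedSpace 𝕜 X]

theorem CI.inf_ker {N : Submodule 𝕜 X} (hN : CI N) {V : Type*} [NormedAddCommGroup V]
    [NormedSpace 𝕜 V] [FiniteDimensional 𝕜 V] (g : X →L[𝕜] V) :
    CI (N ⊓ LinearMap.ker (g : X →ₗ[𝕜] V)) := by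
  constructor
  · exact hN.closed.inter g.isClosed_ker
  · intro h
    apply hN.inf
    let g' : N →ₗ[𝕜] V := (g : X →ₗ[𝕜] V).comp N.subtype
    have h1 : Module.Finite 𝕜 (N ⧸ LinearMap.ker g') :=
      Module.Finite.equiv g'.quotKerEquivRange.symm
    have h2 : Module.Finite 𝕜 (LinearMap.ker g') := by
      let i : LinearMap.ker g' →ₗ[𝕜] (N ⊓ LinearMap.ker (g : X →ₗ[𝕜] V) : Submodule 𝕜 X) :=
        LinearMap.codRestrict _ (N.subtype.comp (LinearMap.ker g').subtype) (by
          intro x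
          refine ⟨x.1.2, ?_⟩
          exact x.2)
      apply FiniteDimensional.of_injective i
      intro a b hab
      have := congrArg Subtype.val hab
      exact Subtype.ext (Subtype.ext this)
    exact Module.Finite.of_submodule_quotient (LinearMap.ker g')

theorem CI.sup {G M : Submodule 𝕜 X} (hG : FiniteDimensional 𝕜 G) (hM : CI M) :
    CI (G ⊔ M) := by
  constructor
  · rw [sup_comm]
    exact Submodule.isClosed_sup_finiteDimensional M G hM.closed
  · intro h
    exact hM.inf (Submodule.finiteDimensional_of_le (le_sup_right : M ≤ G ⊔ M))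

theorem not_mem_of_ph {ε : ℝ} {h : X} (hh : h ≠ 0) {M : Submodule 𝕜 X}
    (hP : Ph ε (Submodule.span 𝕜 {h}) M) : h ∉ M := by
  intro hM
  have := hP (-1) (by simp) h (Submodule.mem_span_singleton_self h) (-h) (M.neg_mem hM)
  rw [neg_one_smul, neg_neg, add_neg_cancel, norm_zero, mul_zero, ← two_smul 𝕜, norm_smul,
    RCLike.norm_ofNat] at this
  have h2 : 0 < ‖h‖ := norm_pos_iff.2 hh
  linarith

end general

theorem half_angle (u v : ℝ) (huv : u ^ 2 + v ^ 2 = 1) :
    ∃ p q : ℝ, p ^ 2 + q ^ 2 = 1 ∧ p ^ 2 - q ^ 2 = u ∧ 2 * p * q = v := by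
  have hu1 : u ≤ 1 := by nlinarith [sq_nonneg v, sq_nonneg (u - 1)]
  have hu2 : -1 ≤ u := by nlinarith [sq_nonneg v, sq_nonneg (u + 1)]
  have ha : 0 ≤ (1 + u) / 2 := by linarith
  have hb : 0 ≤ (1 - u) / 2 := by linarith
  have hsa := Real.sq_sqrt ha
  have hsb := Real.sq_sqrt hb
  have hprod : Real.sqrt ((1 + u) / 2) * Real.sqrt ((1 - u) / 2) = |v| / 2 := by
    rw [← Real.sqrt_mul ha]
    have : (1 + u) / 2 * ((1 - u) / 2) = (|v| / 2) ^ 2 := by
      rw [div_pow, sq_abs]; nlinarith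
    rw [this, Real.sqrt_sq (by positivity)]
  rcases le_total 0 v with hv | hv
  · refine ⟨Real.sqrt ((1 + u) / 2), Real.sqrt ((1 - u) / 2), ?_, ?_, ?_⟩
    · rw [hsa, hsb]; ring
    · rw [hsa, hsb]; ring
    · rw [mul_assoc, hprod, abs_of_nonneg hv]; ring
  · refine ⟨Real.sqrt ((1 + u) / 2), -Real.sqrt ((1 - u) / 2), ?_, ?_, ?_⟩
    · rw [neg_sq, hsa, hsb]; ring
    · rw [neg_sq, hsa, hsb]; ring
    · rw [mul_assoc, mul_neg, hprod, abs_of_nonpos hv]; ring

variable {X : Type*} [NormedAddCommGroup X] [NormedSpace ℝ X]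

theorem ph_real [CompleteSpace X] [TopologicalSpace.SeparableSpace X] (hX : Homog ℝ X)
    {G K : Submodule ℝ X} (hG : FiniteDimensional ℝ G) (hK : CI K) {ε : ℝ} (hε : 0 < ε) :
    ∃ M : Submodule ℝ X, CI M ∧ M ≤ K ∧ Ph ε G M := by
  have hY := CI.sup hG hK
  have h1 : CompleteSpace (G ⊔ K : Submodule ℝ X) := hY.closed.completeSpace_coe
  have : SecondCountableTopology X := UniformSpace.secondCountable_of_separable X
  exact ph_of_local hG hK (phLocal_real (hX.sub hY) hY.inf) hε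

theorem exists_eps {δ : ℝ} (hδ : 0 < δ) : ∃ ε > 0, ε ≤ (1 : ℝ) ∧
    Real.sqrt ((1 + ε) ^ 4 - 1) ≤ 1 / 2 ∧
    (1 + ε) ^ 4 + 324 * Real.sqrt ((1 + ε) ^ 4 - 1) ≤ 1 + δ := by
  have c1 : Continuous fun ε : ℝ => Real.sqrt ((1 + ε) ^ 4 - 1) := by fun_prop
  have c2 : Continuous fun ε : ℝ => (1 + ε) ^ 4 + 324 * Real.sqrt ((1 + ε) ^ 4 - 1) := by
    fun_prop
  have t1 : Tendsto (fun ε : ℝ => Real.sqrt ((1 + ε) ^ 4 - 1)) (𝓝[>] 0) (𝓝 0) := by
    have := (c1.tendsto 0).mono_left (nhdsWithin_le_nhds (s := Set.Ioi 0))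
    simpa using this
  have t2 : Tendsto (fun ε : ℝ => (1 + ε) ^ 4 + 324 * Real.sqrt ((1 + ε) ^ 4 - 1))
      (𝓝[>] 0) (𝓝 1) := by
    have := (c2.tendsto 0).mono_left (nhdsWithin_le_nhds (s := Set.Ioi 0))
    simpa using this
  have e1 := t1.eventually_le_const (by norm_num : (0:ℝ) < 1 / 2)
  have e2 := t2.eventually_le_const (by linarith : (1:ℝ) < 1 + δ)
  have e3 : ∀ᶠ ε : ℝ in 𝓝[>] 0, ε ≤ 1 := by
    filter_upwards [nhdsWithin_le_nhds (Iic_mem_nhds (by norm_num : (0:ℝ) < 1))] with ε hε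
    exact hε
  obtain ⟨ε, h1, h2, h3, h4⟩ := (e1.and (e2.and (e3.and self_mem_nhdsWithin))).exists
  exact ⟨ε, h4, h3, h1, h2⟩

theorem partner_real [CompleteSpace X] [TopologicalSpace.SeparableSpace X]
    (hX : Homog ℝ X) : Partner ℝ X := by
  intro h hh K hK δ hδ
  obtain ⟨ε, hε, hε1, hγ, hεδ⟩ := exists_eps hδ
  set γ := Real.sqrt ((1 + ε) ^ 4 - 1) with hγdef
  obtain ⟨M, hM1, hM2, hM3⟩ := ph_real hX (G := Submodule.span ℝ {h}) inferInstance hK hε
  have hhM := not_mem_of_ph hh hM3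
  obtain ⟨f, hfh, hfM⟩ := exists_functional hM1.closed hhM
  set Y := Submodule.span ℝ {h} ⊔ M with hYdef
  have hY : CI Y := CI.sup inferInstance hM1
  have hYc : CompleteSpace Y := hY.closed.completeSpace_coe
  have hsc : SecondCountableTopology X := UniformSpace.secondCountable_of_separable X
  obtain ⟨J, hJ1, hJ2⟩ := exists_J (hX.sub hY) hY.inf hε
  have hhY : h ∈ Y := (le_sup_left : Submodule.span ℝ {h} ≤ Y)
    (Submodule.mem_span_singleton_self h)
  have hMY : M ≤ Y := le_sup_right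
  let hv : Y := ⟨h, hhY⟩
  let fY : Y →ₗ[ℝ] ℝ := (f : X →ₗ[ℝ] ℝ).comp Y.subtype
  have hfYh : fY hv = 1 := hfh
  -- decomposition
  have hdec : ∀ y : Y, (y : X) - fY y • h ∈ M := by
    intro y
    obtain ⟨g, hg, m, hm, hgm⟩ := Submodule.mem_sup.1 y.2
    obtain ⟨a, rfl⟩ := Submodule.mem_span_singleton.1 hg
    have e : fY y = a := by
      show f (y : X) = a
      rw [← hgm, map_add, map_smul, hfh, hfM m hm]; simp
    rw [e, ← hgm, add_sub_cancel_left]
    exact hm
  have hs : ∀ y : Y, ‖(2 * fY y) • hv - y‖ ≤ (1 + ε) * ‖y‖ := by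
    intro y
    have h1 := hM3 (-1) (by simp) (fY y • h)
      (Submodule.smul_mem _ _ (Submodule.mem_span_singleton_self h)) _ (hdec y)
    rw [add_sub_cancel] at h1
    have e : fY y • h + (-1 : ℝ) • ((y : X) - fY y • h)
        = (((2 * fY y) • hv - y : Y) : X) := by
      rw [Submodule.coe_sub, Submodule.coe_smul]
      show _ = (2 * fY y) • h - (y : X)
      module
    rw [e] at h1
    exact h1
  -- the compression coefficient is small
  have hfb : ∀ y : Y, |fY y| * ‖h‖ ≤ (1 + ε) * ‖y‖ := by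
    intro y
    have h1 : (2 * fY y) • hv = ((2 * fY y) • hv - y) + y := by abel
    have h2 : ‖(2 * fY y) • hv‖ ≤ (1 + ε) * ‖y‖ + ‖y‖ := by
      rw [h1]; exact (norm_add_le _ _).trans (by gcongr; exact hs y)
    rw [norm_smul, Real.norm_eq_abs, abs_mul, abs_two] at h2
    have h3 : ‖hv‖ = ‖h‖ := rfl
    rw [h3] at h2
    nlinarith [norm_nonneg y]
  have hhpos : 0 < ‖h‖ := norm_pos_iff.2 hh
  set c := fY (J hv) with hc
  have hcγ : ‖fY (J hv)‖ ≤ γ := by
    rw [← hc]
    have hsq : 0 < 1 + c ^ 2 := by positivity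
    set s := Real.sqrt (1 + c ^ 2) with hs'
    have hs0 : 0 < s := Real.sqrt_pos.2 hsq
    have hss : s ^ 2 = 1 + c ^ 2 := Real.sq_sqrt hsq.le
    have h1 := hJ2 (1 / s) (c / s) (by
      rw [div_pow, div_pow, hss]; field_simp) hv
    have h2 := hfb ((1 / s) • hv + (c / s) • J hv)
    have h3 : fY ((1 / s) • hv + (c / s) • J hv) = s := by
      rw [map_add, map_smul, map_smul, hfYh, ← hc, smul_eq_mul, smul_eq_mul]
      have e : 1 / s * 1 + c / s * c = (1 + c ^ 2) / s := by ring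
      rw [e, ← hss]; field_simp
    rw [h3, abs_of_pos hs0] at h2
    have h4 : s * ‖h‖ ≤ ((1 + ε) * (1 + ε)) * ‖h‖ := by
      calc _ ≤ _ := h2
        _ ≤ (1 + ε) * ((1 + ε) * ‖hv‖) := by gcongr
        _ = _ := by show (1 + ε) * ((1 + ε) * ‖h‖) = _; ring
    have h5 : s ≤ (1 + ε) * (1 + ε) := le_of_mul_le_mul_right h4 hhpos
    have h6 : c ^ 2 ≤ (1 + ε) ^ 4 - 1 := by
      have : s ^ 2 ≤ ((1 + ε) * (1 + ε)) ^ 2 := by gcongr
      rw [hss] at this
      nlinarith
    rw [Real.norm_eq_abs, hγdef]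
    exact Real.abs_le_sqrt h6
  -- the vector `ℓ`
  let lv : Y := J hv - fY (J hv) • hv
  have hlM : (lv : X) ∈ M := by
    have := hdec (J hv)
    exact this
  have hl0 : (lv : X) ≠ 0 := by
    intro h0
    have h1 : lv = 0 := Subtype.ext h0
    have h2 : fY (J lv) = -1 - c ^ 2 := by
      show fY (J (J hv - fY (J hv) • hv)) = _
      rw [map_sub, hJ1, map_smul, map_sub, map_neg, map_smul, hfYh, ← hc, smul_eq_mul]; ring
    rw [h1, map_zero, map_zero] at h2
    nlinarith [sq_nonneg c]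
  -- the subspace
  have hJb : ∀ y, ‖J y‖ ≤ (1 + ε) * ‖y‖ := by
    intro y
    have := hJ2 0 1 (by norm_num) y
    rwa [zero_smul, one_smul, zero_add] at this
  let JL : Y →L[ℝ] Y := J.mkContinuous (1 + ε) hJb
  let g : Y →L[ℝ] ℝ := (f.comp Y.subtypeL).comp JL
  have hN : CI (M.comap Y.subtype) := hM1.comap_of_le hMY
  have hN' := hN.inf_ker g
  refine ⟨(lv : X), hM2 hlM, hl0, ((M.comap Y.subtype) ⊓ LinearMap.ker (g : Y →ₗ[ℝ] ℝ)).map
    Y.subtype, ?_, hN'.map hY.closed, ?_⟩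
  · rintro _ ⟨k, hk, rfl⟩
    exact hM2 hk.1
  · rintro α β _ ⟨k, hk, rfl⟩
    have hk1 : fY k = 0 := hfM _ hk.1
    have hk2 : fY (J k) = 0 := hk.2
    have hcore : ∀ u v : ℝ, u ^ 2 + v ^ 2 = 1 → ∀ α β : ℝ,
        ‖(u * α - v * β) • h + (v * α + u * β) • (lv : X) + (k : X)‖
          ≤ (1 + δ) * ‖α • h + β • (lv : X) + (k : X)‖ := by
      intro u v huv α β
      obtain ⟨p, q, hpq, hu, hv'⟩ := half_angle u v huv
      have h1 := rot_core fY J hfYh hJ1 hε.le hε1 (by
        intro a b hab y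
        exact hJ2 a b hab y) hs hcγ hγ p q hpq α β k hk1 hk2
      rw [hu, hv'] at h1
      have h2 : ‖α • h + β • (lv : X) + (k : X)‖ = ‖α • hv + β • lv + k‖ := rfl
      have h3 : ‖(u * α - v * β) • h + (v * α + u * β) • (lv : X) + (k : X)‖
          = ‖(u * α - v * β) • hv + (v * α + u * β) • lv + k‖ := rfl
      rw [h2, h3]
      refine (h1 : _ ≤ _).trans ?_
      gcongr
    set r := Real.sqrt (‖α‖ ^ 2 + ‖β‖ ^ 2) with hr
    have hr2 : r ^ 2 = α ^ 2 + β ^ 2 := by
      rw [hr, Real.sq_sqrt (by positivity), Real.norm_eq_abs, Real.norm_eq_abs, sq_abs, sq_abs]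
    have hr0 : 0 ≤ r := Real.sqrt_nonneg _
    show ‖α • h + β • (lv : X) + (k : X)‖ ≤ (1 + δ) * ‖r • (lv : X) + (k : X)‖ ∧
      ‖r • (lv : X) + (k : X)‖ ≤ (1 + δ) * ‖α • h + β • (lv : X) + (k : X)‖
    rcases hr0.eq_or_lt with h0 | hrpos
    · have hα : α = 0 := by nlinarith [sq_nonneg α, sq_nonneg β]
      have hβ : β = 0 := by nlinarith [sq_nonneg α, sq_nonneg β]
      rw [← h0, hα, hβ]
      simp only [zero_smul, zero_add]
      constructor <;> nlinarith [norm_nonneg (k : X)]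
    · have hunit : (β / r) ^ 2 + (α / r) ^ 2 = 1 := by
        rw [div_pow, div_pow, ← add_div, hr2, add_comm, div_self]
        rw [← hr2]; positivity
      constructor
      · have h1 := hcore (β / r) (-(α / r)) (by rw [neg_sq]; exact hunit) 0 r
        have e1 : β / r * 0 - -(α / r) * r = α := by field_simp; ring
        have e2 : -(α / r) * 0 + β / r * r = β := by field_simp; ring
        rw [e1, e2, zero_smul, zero_add] at h1
        exact h1
      · have h1 := hcore (β / r) (α / r) hunit α β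
        have e1 : β / r * α - α / r * β = 0 := by ring
        have e2 : α / r * α + β / r * β = r := by
          have : α / r * α + β / r * β = (α ^ 2 + β ^ 2) / r := by ring
          rw [this, ← hr2]; field_simp
        rw [e1, e2, zero_smul, zero_add] at h1
        exact h1

/-- The real case: a separable infinite-dimensional real Banach space isometric to all its
closed infinite-dimensional subspaces is isometric to the Hilbert space. -/
theorem real_case [CompleteSpace X] [TopologicalSpace.SeparableSpace X]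
    (hinf : ¬ FiniteDimensional ℝ X) (hX : Homog ℝ X) :
    Nonempty (X ≃ₗᵢ[ℝ] lp (fun _ : ℕ => ℝ) 2) :=
  l2_of_partner hX hinf (partner_real hX)

end Pool.Agent.TH319
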