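import Pool.Agent.TH319.CplxStr

/-!
The rotation step: combining an almost isometric complex structure with an almost isometric
reflection in the direction of a vector.
-/

namespace Pool.Agent.TH319

open Module

section core
variable {𝕜 : Type*} [RCLike 𝕜] {Y : Type*} [NormedAddCommGroup Y] [NormedSpace 𝕜 Y]

/-- The explicit form of the composition of rotations and reflections. -/
theorem rot_formula {h : Y} (f : Y →ₗ[𝕜] 𝕜) (J : Y →ₗ[𝕜] Y) (hf : f h = 1)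
    (hJ : ∀ y, J (J y) = -y) (p q : 𝕜) (hpq : p ^ 2 + q ^ 2 = 1) (α β : 𝕜) (k : Y)
    (hk1 : f k = 0) (hk2 : f (J k) = 0) (c : 𝕜) (hc : f (J h) = c) (y y1 y2 y3 y4 : Y)
    (hy : y = α • h + β • (J h - c • h) + k)
    (hy1 : y1 = (2 * f y) • h - y)
    (hy2 : y2 = p • y1 - q • J y1)
    (hy3 : y3 = (2 * f y2) • h - y2)
    (hy4 : y4 = p • y3 + q • J y3) :
    y4 = ((p^2 - q^2) * (α + β * c) - 2 * p * q * β - 2 * c * p * (p * β + q * (α + β * c))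
        + c * ((p^2 - q^2) * β + 2 * p * q * (α + β * c)
          - 2 * c * q * (p * β + q * (α + β * c)))) • h
      + ((p^2 - q^2) * β + 2 * p * q * (α + β * c)
          - 2 * c * q * (p * β + q * (α + β * c))) • (J h - c • h) + k := by
  have hfy : f y = α := by
    rw [hy]; simp only [map_add, map_smul, map_sub, smul_eq_mul, hf, hc, hk1]; ring
  have e1 : y1 = (α + β * c) • h - β • J h - k := by
    rw [hy1, hfy, hy]; module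
  have e1J : J y1 = (α + β * c) • J h + β • h - J k := by
    rw [e1]; simp only [map_sub, map_smul, hJ]; module
  have e2 : y2 = (p * (α + β * c) - q * β) • h - (p * β + q * (α + β * c)) • J h - p • k
      + q • J k := by
    rw [hy2, e1J, e1]; module
  have hf2 : f y2 = (p * (α + β * c) - q * β) - (p * β + q * (α + β * c)) * c := by
    rw [e2]; simp only [map_add, map_smul, map_sub, smul_eq_mul, hf, hc, hk1, hk2]; ring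
  have e3 : y3 = (2 * ((p * (α + β * c) - q * β) - (p * β + q * (α + β * c)) * c)
      - (p * (α + β * c) - q * β)) • h + (p * β + q * (α + β * c)) • J h + p • k
      - q • J k := by
    rw [hy3, hf2, e2]; module
  have e3J : J y3 = (2 * ((p * (α + β * c) - q * β) - (p * β + q * (α + β * c)) * c)
      - (p * (α + β * c) - q * β)) • J h - (p * β + q * (α + β * c)) • h + p • J k
      + q • k := by
    rw [e3]; simp only [map_sub, map_add, map_smul, hJ]; module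
  rw [hy4, e3J, e3]
  have e : k = (p ^ 2 + q ^ 2) • k := by rw [hpq, one_smul]
  conv_rhs => rw [e]
  module

/-- The rotation estimate. -/
theorem rot_core {h : Y} (f : Y →ₗ[𝕜] 𝕜) (J : Y →ₗ[𝕜] Y) (hf : f h = 1)
    (hJ : ∀ y, J (J y) = -y) {ε γ : ℝ} (hε0 : 0 ≤ ε) (hε1 : ε ≤ 1)
    (hJn : ∀ a b : ℝ, a ^ 2 + b ^ 2 = 1 → ∀ y, ‖(a : 𝕜) • y + (b : 𝕜) • J y‖ ≤ (1 + ε) * ‖y‖)
    (hs : ∀ y, ‖(2 * f y) • h - y‖ ≤ (1 + ε) * ‖y‖) (hγ0 : ‖f (J h)‖ ≤ γ) (hγ : γ ≤ 1 / 2)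
    (p q : ℝ) (hpq : p ^ 2 + q ^ 2 = 1) (α β : 𝕜) (k : Y) (hk1 : f k = 0)
    (hk2 : f (J k) = 0) :
    ‖(((p ^ 2 - q ^ 2 : ℝ) : 𝕜) * α - ((2 * p * q : ℝ) : 𝕜) * β) • h
      + (((2 * p * q : ℝ) : 𝕜) * α + ((p ^ 2 - q ^ 2 : ℝ) : 𝕜) * β) • (J h - f (J h) • h) + k‖
      ≤ ((1 + ε) ^ 4 + 324 * γ) * ‖α • h + β • (J h - f (J h) • h) + k‖ := by
  set c := f (J h) with hc
  set ℓ := J h - c • h with hℓ
  set y := α • h + β • ℓ + k with hy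
  set y1 := (2 * f y) • h - y with hy1
  set y2 := (p : 𝕜) • y1 - (q : 𝕜) • J y1 with hy2
  set y3 := (2 * f y2) • h - y2 with hy3
  set y4 := (p : 𝕜) • y3 + (q : 𝕜) • J y3 with hy4
  have hpq' : (p : 𝕜) ^ 2 + (q : 𝕜) ^ 2 = 1 := by exact_mod_cast hpq
  have hform := rot_formula f J hf hJ (p : 𝕜) (q : 𝕜) hpq' α β k hk1 hk2 c rfl y y1 y2 y3 y4
    hy hy1 hy2 hy3 hy4
  have n1 : ‖y1‖ ≤ (1 + ε) * ‖y‖ := hs y
  have n2 : ‖y2‖ ≤ (1 + ε) * ‖y1‖ := by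
    have := hJn p (-q) (by rw [neg_sq]; exact hpq) y1
    rw [RCLike.ofReal_neg, neg_smul, ← sub_eq_add_neg] at this
    exact this
  have n3 : ‖y3‖ ≤ (1 + ε) * ‖y2‖ := hs y2
  have n4 : ‖y4‖ ≤ (1 + ε) * ‖y3‖ := hJn p q hpq y3
  have n5 : ‖y4‖ ≤ (1 + ε) ^ 4 * ‖y‖ := by
    calc ‖y4‖ ≤ (1 + ε) * ((1 + ε) * ((1 + ε) * ((1 + ε) * ‖y‖))) := by
          refine n4.trans ?_
          gcongr
          refine n3.trans ?_
          gcongr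
          refine n2.trans ?_
          gcongr
      _ = _ := by ring
  -- coefficient bounds
  have hcγ : ‖c‖ ≤ 1 / 2 := hγ0.trans hγ
  have hγnn : 0 ≤ γ := (norm_nonneg _).trans hγ0
  have hfy : f y = α := by
    rw [hy, hℓ]; simp only [map_add, map_smul, map_sub, smul_eq_mul, hf, hk1]
    rw [← hc]; ring
  have hα : ‖α‖ * ‖h‖ ≤ 2 * ‖y‖ := by
    have h1 : (2 * α) • h = y1 + y := by rw [hy1, hfy]; abel
    have h2 : ‖(2 * α) • h‖ ≤ (1 + ε) * ‖y‖ + ‖y‖ := by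
      rw [h1]; exact (norm_add_le _ _).trans (by gcongr)
    rw [norm_smul, norm_mul, RCLike.norm_ofNat] at h2
    nlinarith [norm_nonneg y]
  have hJy : ‖J y‖ ≤ 2 * ‖y‖ := by
    have := hJn 0 1 (by norm_num) y
    rw [RCLike.ofReal_zero, zero_smul, RCLike.ofReal_one, one_smul, zero_add] at this
    nlinarith [norm_nonneg y]
  have hJh : ‖J h‖ ≤ 2 * ‖h‖ := by
    have := hJn 0 1 (by norm_num) h
    rw [RCLike.ofReal_zero, zero_smul, RCLike.ofReal_one, one_smul, zero_add] at this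
    nlinarith [norm_nonneg h]
  have hℓn : ‖ℓ‖ ≤ 3 * ‖h‖ := by
    rw [hℓ]
    calc _ ≤ ‖J h‖ + ‖c • h‖ := norm_sub_le _ _
      _ ≤ 2 * ‖h‖ + (1 / 2) * ‖h‖ := by rw [norm_smul]; gcongr
      _ ≤ 3 * ‖h‖ := by nlinarith [norm_nonneg h]
  have hβ : ‖β‖ * ‖h‖ ≤ 10 * ‖y‖ := by
    have h1 : f (J y) = α * c - β * (1 + c ^ 2) := by
      rw [hy, hℓ]; simp only [map_add, map_smul, map_sub, smul_eq_mul, hJ, map_neg, hf, hk2]
      rw [← hc]; ring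
    have h2 : ‖(2 * f (J y)) • h‖ ≤ (1 + ε) * ‖J y‖ + ‖J y‖ := by
      have h3 : (2 * f (J y)) • h = ((2 * f (J y)) • h - J y) + J y := by abel
      rw [h3]; exact (norm_add_le _ _).trans (by gcongr; exact hs _)
    rw [norm_smul, norm_mul, RCLike.norm_ofNat] at h2
    have h3 : ‖f (J y)‖ * ‖h‖ ≤ 3 * ‖y‖ := by nlinarith [norm_nonneg (J y)]
    have h4 : ‖β‖ * (3 / 4) ≤ ‖β * (1 + c ^ 2)‖ := by
      rw [norm_mul]
      gcongr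
      have h5 : ‖(1 : 𝕜)‖ - ‖-c ^ 2‖ ≤ ‖1 - (-c ^ 2)‖ := norm_sub_norm_le _ _
      rw [sub_neg_eq_add, norm_neg, norm_pow, norm_one] at h5
      nlinarith [norm_nonneg c]
    have h6 : ‖β * (1 + c ^ 2)‖ ≤ ‖α‖ * (1 / 2) + ‖f (J y)‖ := by
      have h7 : β * (1 + c ^ 2) = α * c - f (J y) := by rw [h1]; ring
      rw [h7]
      refine (norm_sub_le _ _).trans ?_
      rw [norm_mul]; gcongr
    have h8 : ‖β‖ * (3 / 4) * ‖h‖ ≤ (‖α‖ * (1 / 2) + ‖f (J y)‖) * ‖h‖ := by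
      gcongr; exact h4.trans h6
    nlinarith [norm_nonneg h, norm_nonneg y]
  have hp : ‖(p : 𝕜)‖ ≤ 1 := by
    rw [RCLike.norm_ofReal]; exact abs_le_one_iff_mul_self_le_one.2 (by nlinarith [sq_nonneg q])
  have hq : ‖(q : 𝕜)‖ ≤ 1 := by
    rw [RCLike.norm_ofReal]; exact abs_le_one_iff_mul_self_le_one.2 (by nlinarith [sq_nonneg p])
  -- the difference
  set D := α + β * c with hD
  have hDn : ‖D‖ ≤ ‖α‖ + ‖β‖ := by
    rw [hD]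
    refine (norm_add_le _ _).trans ?_
    rw [norm_mul]
    nlinarith [norm_nonneg β]
  set G := (p : 𝕜) * β + (q : 𝕜) * D with hG
  have hGn : ‖G‖ ≤ ‖α‖ + 2 * ‖β‖ := by
    rw [hG]
    refine (norm_add_le _ _).trans ?_
    rw [norm_mul, norm_mul]
    have := mul_le_mul_of_nonneg_right hp (norm_nonneg β)
    have := mul_le_mul_of_nonneg_right hq (norm_nonneg D)
    linarith
  have hu : ‖((p : 𝕜) ^ 2 - (q : 𝕜) ^ 2)‖ ≤ 1 := by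
    have h1 : ((p : 𝕜) ^ 2 - (q : 𝕜) ^ 2) = ((p ^ 2 - q ^ 2 : ℝ) : 𝕜) := by push_cast; ring
    rw [h1, RCLike.norm_ofReal, abs_le]
    constructor <;> nlinarith [sq_nonneg p, sq_nonneg q]
  have hv : ‖(2 * (p : 𝕜) * (q : 𝕜))‖ ≤ 1 := by
    have h1 : (2 * (p : 𝕜) * (q : 𝕜)) = ((2 * p * q : ℝ) : 𝕜) := by push_cast; ring
    rw [h1, RCLike.norm_ofReal, abs_le]
    constructor <;> nlinarith [sq_nonneg (p - q), sq_nonneg (p + q)]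
  have hdiff : (((p ^ 2 - q ^ 2 : ℝ) : 𝕜) * α - ((2 * p * q : ℝ) : 𝕜) * β) • h
      + (((2 * p * q : ℝ) : 𝕜) * α + ((p ^ 2 - q ^ 2 : ℝ) : 𝕜) * β) • ℓ + k
      = y4 - (c * (((p : 𝕜) ^ 2 - (q : 𝕜) ^ 2) * β - 2 * ((p : 𝕜) * G)
          + ((p : 𝕜) ^ 2 - (q : 𝕜) ^ 2) * β + (2 * (p : 𝕜) * (q : 𝕜)) * D
          - 2 * (c * ((q : 𝕜) * G)))) • h
        - (c * ((2 * (p : 𝕜) * (q : 𝕜)) * β - 2 * ((q : 𝕜) * G))) • ℓ := by
    rw [hform, hG, hD]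
    push_cast
    module
  rw [hdiff]
  have hb1 : ‖c * (((p : 𝕜) ^ 2 - (q : 𝕜) ^ 2) * β - 2 * ((p : 𝕜) * G)
          + ((p : 𝕜) ^ 2 - (q : 𝕜) ^ 2) * β + (2 * (p : 𝕜) * (q : 𝕜)) * D
          - 2 * (c * ((q : 𝕜) * G)))‖ ≤ γ * (12 * (‖α‖ + ‖β‖)) := by
    rw [norm_mul]
    gcongr
    have t1 : ‖((p : 𝕜) ^ 2 - (q : 𝕜) ^ 2) * β‖ ≤ ‖β‖ := by
      rw [norm_mul]; exact mul_le_of_le_one_left (norm_nonneg _) hu
    have t2 : ‖2 * ((p : 𝕜) * G)‖ ≤ 2 * ‖G‖ := by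
      rw [norm_mul, RCLike.norm_ofNat, norm_mul]
      gcongr
      exact mul_le_of_le_one_left (norm_nonneg _) hp
    have t3 : ‖(2 * (p : 𝕜) * (q : 𝕜)) * D‖ ≤ ‖D‖ := by
      rw [norm_mul]; exact mul_le_of_le_one_left (norm_nonneg _) hv
    have t4 : ‖2 * (c * ((q : 𝕜) * G))‖ ≤ ‖G‖ := by
      rw [norm_mul, RCLike.norm_ofNat, norm_mul, norm_mul]
      have := mul_le_of_le_one_left (norm_nonneg G) hq
      nlinarith [norm_nonneg c, norm_nonneg ((q : 𝕜)), norm_nonneg G,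
        mul_nonneg (norm_nonneg (q : 𝕜)) (norm_nonneg G)]
    have s1 := norm_sub_le (((p : 𝕜) ^ 2 - (q : 𝕜) ^ 2) * β - 2 * ((p : 𝕜) * G)
          + ((p : 𝕜) ^ 2 - (q : 𝕜) ^ 2) * β + (2 * (p : 𝕜) * (q : 𝕜)) * D)
          (2 * (c * ((q : 𝕜) * G)))
    have s2 := norm_add_le (((p : 𝕜) ^ 2 - (q : 𝕜) ^ 2) * β - 2 * ((p : 𝕜) * G)
          + ((p : 𝕜) ^ 2 - (q : 𝕜) ^ 2) * β) ((2 * (p : 𝕜) * (q : 𝕜)) * D)
    have s3 := norm_add_le (((p : 𝕜) ^ 2 - (q : 𝕜) ^ 2) * β - 2 * ((p : 𝕜) * G))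
          (((p : 𝕜) ^ 2 - (q : 𝕜) ^ 2) * β)
    have s4 := norm_sub_le (((p : 𝕜) ^ 2 - (q : 𝕜) ^ 2) * β) (2 * ((p : 𝕜) * G))
    nlinarith [norm_nonneg α, norm_nonneg β]
  have hb2 : ‖c * ((2 * (p : 𝕜) * (q : 𝕜)) * β - 2 * ((q : 𝕜) * G))‖
      ≤ γ * (5 * (‖α‖ + ‖β‖)) := by
    rw [norm_mul]
    gcongr
    have t1 : ‖(2 * (p : 𝕜) * (q : 𝕜)) * β‖ ≤ ‖β‖ := by
      rw [norm_mul]; exact mul_le_of_le_one_left (norm_nonneg _) hv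
    have t2 : ‖2 * ((q : 𝕜) * G)‖ ≤ 2 * ‖G‖ := by
      rw [norm_mul, RCLike.norm_ofNat, norm_mul]
      gcongr
      exact mul_le_of_le_one_left (norm_nonneg _) hq
    have s1 := norm_sub_le ((2 * (p : 𝕜) * (q : 𝕜)) * β) (2 * ((q : 𝕜) * G))
    nlinarith [norm_nonneg α, norm_nonneg β]
  have hb3 : (‖α‖ + ‖β‖) * ‖h‖ ≤ 12 * ‖y‖ := by linarith
  refine (norm_sub_le _ _).trans ?_
  have f1 := norm_sub_le y4 ((c * (((p : 𝕜) ^ 2 - (q : 𝕜) ^ 2) * β - 2 * ((p : 𝕜) * G)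
          + ((p : 𝕜) ^ 2 - (q : 𝕜) ^ 2) * β + (2 * (p : 𝕜) * (q : 𝕜)) * D
          - 2 * (c * ((q : 𝕜) * G)))) • h)
  rw [norm_smul] at f1
  rw [norm_smul (c * ((2 * (p : 𝕜) * (q : 𝕜)) * β - 2 * ((q : 𝕜) * G)))]
  have g1 : ‖c * (((p : 𝕜) ^ 2 - (q : 𝕜) ^ 2) * β - 2 * ((p : 𝕜) * G)
          + ((p : 𝕜) ^ 2 - (q : 𝕜) ^ 2) * β + (2 * (p : 𝕜) * (q : 𝕜)) * D
          - 2 * (c * ((q : 𝕜) * G)))‖ * ‖h‖ ≤ γ * (12 * (‖α‖ + ‖β‖)) * ‖h‖ := by gcongr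
  have g2 : ‖c * ((2 * (p : 𝕜) * (q : 𝕜)) * β - 2 * ((q : 𝕜) * G))‖ * ‖ℓ‖
      ≤ γ * (5 * (‖α‖ + ‖β‖)) * (3 * ‖h‖) := by gcongr
  have g3 : γ * (12 * (‖α‖ + ‖β‖)) * ‖h‖ + γ * (5 * (‖α‖ + ‖β‖)) * (3 * ‖h‖)
      = 27 * γ * ((‖α‖ + ‖β‖) * ‖h‖) := by ring
  have g4 : 27 * γ * ((‖α‖ + ‖β‖) * ‖h‖) ≤ 27 * γ * (12 * ‖y‖) := by gcongr
  nlinarith

end core

end Pool.Agent.TH319
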