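import Pool.Agent.TH319.Dich

/-!
Existence of almost isometric rank-one projections inside a two-dimensional block.
-/

namespace Pool.Agent.TH319

open Module Filter Topology

universe u

section
variable {Y : Type*} [NormedAddCommGroup Y] [NormedSpace ℂ Y]

theorem CI.inf_ker' {N : Submodule ℂ Y} (hN : CI N) (T : Y →ₗ[ℂ] Y) {C : ℝ}
    (hT : ∀ y, ‖T y‖ ≤ C * ‖y‖) (hfin : FiniteDimensional ℂ (LinearMap.range T)) :
    CI (N ⊓ LinearMap.ker T) := by
  let TL : Y →L[ℂ] LinearMap.range T := T.rangeRestrict.mkContinuous C hT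
  have h := hN.inf_ker TL
  have e : LinearMap.ker (TL : Y →ₗ[ℂ] LinearMap.range T) = LinearMap.ker T := by
    ext y
    simp only [LinearMap.mem_ker]
    constructor
    · intro hy
      exact congrArg Subtype.val hy
    · intro hy
      exact Subtype.ext hy
  rw [e] at h
  exact h

theorem CI.top (hinf : ¬ FiniteDimensional ℂ Y) : CI (⊤ : Submodule ℂ Y) := by
  refine ⟨isClosed_univ, fun h => hinf ?_⟩
  exact LinearEquiv.finiteDimensional (Submodule.topEquiv : (⊤ : Submodule ℂ Y) ≃ₗ[ℂ] Y)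

end

/-- Perturbing a rank-one projection into a block. -/
theorem rank1_into_block {Y : Type*} [NormedAddCommGroup Y] [NormedSpace ℂ Y] {ε κ κ' : ℝ}
    (hε : 0 ≤ ε) (hε1 : ε ≤ 1) (hκ'0 : 0 ≤ κ') (hκ'1 : κ' ≤ 1 / 4) (hκ : ε + 46 * κ' ≤ κ)
    {P : Y →ₗ[ℂ] Y} (hP : NP ε P) {f : Y} {φ : Y →ₗ[ℂ] ℂ} (hR : NP ε (φ.smulRight f))
    (h1 : 1 / 2 ≤ ‖φ (P f)‖) (h2 : ‖f - P f‖ ≤ κ' * ‖P f‖)
    (h3 : ∀ x, P x = 0 → ‖φ x‖ * ‖P f‖ ≤ κ' * ‖x‖) (hf : φ f = 1) :
    ∃ (a : Y) (ψ : Y →ₗ[ℂ] ℂ), P a = a ∧ ψ a = 1 ∧ (∀ y, ψ (P y) = ψ y) ∧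
      NP κ (ψ.smulRight a) := by
  set g := P f with hg
  set w := φ g with hw
  have hPg : P g = g := hP.idem f
  have hw0 : w ≠ 0 := by
    intro h
    rw [h, norm_zero] at h1
    norm_num at h1
  refine ⟨g, w⁻¹ • (φ ∘ₗ P), hPg, ?_, ?_, ?_, ?_⟩
  · show w⁻¹ * φ (P g) = 1
    rw [hPg, ← hw, inv_mul_cancel₀ hw0]
  · intro y
    show w⁻¹ * φ (P (P y)) = w⁻¹ * φ (P y)
    rw [hP.idem]
  · intro y
    show (w⁻¹ * φ (P ((w⁻¹ * φ (P y)) • g))) • g = (w⁻¹ * φ (P y)) • g
    rw [map_smul, map_smul, hPg, ← hw, smul_eq_mul]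
    congr 1
    field_simp
  · intro ζ hζ y
    show ‖y + (ζ - 1) • (w⁻¹ * φ (P y)) • g‖ ≤ (1 + κ) * ‖y‖
    have hgpos : 0 < ‖g‖ := by
      apply norm_pos_iff.2
      intro h0
      apply hw0
      rw [hw, h0, map_zero]
    have hfg : ‖g‖ ≤ 2 * ‖f‖ := by
      have h4 : ‖g‖ ≤ ‖f‖ + ‖f - g‖ := by
        have := norm_sub_le f (f - g)
        rwa [sub_sub_cancel] at this
      nlinarith
    have hφ : ∀ y, ‖φ y‖ * ‖g‖ ≤ 4 * ‖y‖ := by
      intro y
      have h4 := hR.norm_le hε y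
      rw [LinearMap.smulRight_apply, norm_smul] at h4
      calc ‖φ y‖ * ‖g‖ ≤ ‖φ y‖ * (2 * ‖f‖) := by gcongr
        _ = 2 * (‖φ y‖ * ‖f‖) := by ring
        _ ≤ 2 * ((1 + ε) * ‖y‖) := by gcongr
        _ ≤ 4 * ‖y‖ := by nlinarith [norm_nonneg y]
    have hPy : ‖P y‖ ≤ 2 * ‖y‖ := by
      have := hP.norm_le hε y
      nlinarith [norm_nonneg y]
    have hPm : P (f - g) = 0 := by rw [map_sub, hPg, ← hg, sub_self]
    have hφm : φ (f - g) = 1 - w := by rw [map_sub, hf]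
    have h1w : ‖1 - w‖ ≤ κ' * κ' := by
      have h4 := h3 (f - g) hPm
      rw [hφm] at h4
      have h5 : ‖1 - w‖ * ‖g‖ ≤ (κ' * κ') * ‖g‖ := by
        calc _ ≤ κ' * ‖f - g‖ := h4
          _ ≤ κ' * (κ' * ‖g‖) := by gcongr
          _ = _ := by ring
      exact le_of_mul_le_mul_right h5 hgpos
    have h1w' : ‖1 - w⁻¹‖ ≤ 2 * κ' := by
      have h4 : 1 - w⁻¹ = -(1 - w) * w⁻¹ := by field_simp; ring
      rw [h4, norm_mul, norm_neg, norm_inv]
      have h5 : ‖w‖⁻¹ ≤ 2 := by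
        rw [inv_le_comm₀ (by linarith) (by norm_num)]
        norm_num at h1 ⊢
        exact h1
      calc _ ≤ (κ' * κ') * 2 := by gcongr
        _ ≤ 2 * κ' := by nlinarith
    have h4 : y + (ζ - 1) • (w⁻¹ * φ (P y)) • g
        = (y + (ζ - 1) • φ y • f) - (ζ - 1) • (φ y • (f - g) + φ (y - P y) • g
          + ((1 - w⁻¹) * φ (P y)) • g) := by
      rw [map_sub]; module
    have hζ1 : ‖ζ - 1‖ ≤ 2 := by
      calc ‖ζ - 1‖ ≤ ‖ζ‖ + ‖(1 : ℂ)‖ := norm_sub_le _ _
        _ = 2 := by rw [hζ, norm_one]; norm_num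
    have b1 : ‖φ y • (f - g)‖ ≤ 4 * κ' * ‖y‖ := by
      rw [norm_smul]
      calc _ ≤ ‖φ y‖ * (κ' * ‖g‖) := by gcongr
        _ = κ' * (‖φ y‖ * ‖g‖) := by ring
        _ ≤ κ' * (4 * ‖y‖) := mul_le_mul_of_nonneg_left (hφ y) hκ'0
        _ = _ := by ring
    have b2 : ‖φ (y - P y) • g‖ ≤ 3 * κ' * ‖y‖ := by
      rw [norm_smul]
      have h5 : P (y - P y) = 0 := by rw [map_sub, hP.idem, sub_self]
      have h6 := h3 (y - P y) h5
      have h7 : ‖y - P y‖ ≤ 3 * ‖y‖ := by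
        have := norm_sub_le y (P y)
        linarith
      calc _ ≤ κ' * ‖y - P y‖ := h6
        _ ≤ κ' * (3 * ‖y‖) := by gcongr
        _ = _ := by ring
    have b3 : ‖((1 - w⁻¹) * φ (P y)) • g‖ ≤ 16 * κ' * ‖y‖ := by
      rw [norm_smul, norm_mul]
      calc _ = ‖1 - w⁻¹‖ * (‖φ (P y)‖ * ‖g‖) := by ring
        _ ≤ (2 * κ') * (4 * ‖P y‖) :=
            mul_le_mul h1w' (hφ _) (by positivity) (by positivity)
        _ ≤ (2 * κ') * (4 * (2 * ‖y‖)) := by gcongr
        _ = _ := by ring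
    rw [h4]
    calc _ ≤ ‖y + (ζ - 1) • φ y • f‖ + ‖(ζ - 1) • (φ y • (f - g) + φ (y - P y) • g
          + ((1 - w⁻¹) * φ (P y)) • g)‖ := norm_sub_le _ _
      _ ≤ (1 + ε) * ‖y‖ + 2 * (4 * κ' * ‖y‖ + 3 * κ' * ‖y‖ + 16 * κ' * ‖y‖) := by
          gcongr
          · exact hR.ph ζ hζ y
          · rw [norm_smul]
            gcongr
            refine (norm_add_le _ _).trans ?_
            gcongr
            refine (norm_add_le _ _).trans ?_
            gcongr
      _ = (1 + (ε + 46 * κ')) * ‖y‖ := by ring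
      _ ≤ (1 + κ) * ‖y‖ := by gcongr

theorem exists_axis (δ κ : ℝ) (hδ : 0 < δ) (hκ : 0 < κ) :
    ∃ ε₀ > (0 : ℝ), ∀ (Y : Type u) [NormedAddCommGroup Y] [NormedSpace ℂ Y] [CompleteSpace Y]
      [TopologicalSpace.SeparableSpace Y], Homog ℂ Y → ¬ FiniteDimensional ℂ Y → Rigid δ Y →
      ∀ (g : Fin 2 → Y) (γ : Fin 2 → (Y →ₗ[ℂ] ℂ)) (P : Y →ₗ[ℂ] Y),
      (∀ i j, γ i (g j) = if i = j then 1 else 0) → (∀ y, P y = ∑ i, γ i y • g i) → NP ε₀ P →
      ∃ (a : Y) (φ : Y →ₗ[ℂ] ℂ), P a = a ∧ φ a = 1 ∧ (∀ y, φ (P y) = φ y) ∧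
        NP κ (φ.smulRight a) := by
  set κ' : ℝ := min (κ / 100) (1 / 4) with hκ'
  have hκ'pos : 0 < κ' := by rw [hκ']; positivity
  have hκ'1 : κ' ≤ 1 / 4 := min_le_right _ _
  have hκ'2 : κ' ≤ κ / 100 := min_le_left _ _
  obtain ⟨ε₁, hε₁, H1⟩ := dichotomy.{u} δ κ' hδ hκ'pos
  obtain ⟨ε₂, hε₂, H2⟩ := rot_NU.{u} (1 / 8) δ (by norm_num) hδ
  set ε₀ : ℝ := min (min 1 (ε₂ / 7)) (min (min ε₁ ε₂) (κ / 2)) with hε₀
  have hε₀pos : 0 < ε₀ := by rw [hε₀]; positivity
  have e1 : ε₀ ≤ 1 := (min_le_left _ _).trans (min_le_left _ _)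
  have e2 : ε₀ ≤ ε₂ / 7 := (min_le_left _ _).trans (min_le_right _ _)
  have e3 : ε₀ ≤ ε₁ := (min_le_right _ _).trans ((min_le_left _ _).trans (min_le_left _ _))
  have e4 : ε₀ ≤ ε₂ := (min_le_right _ _).trans ((min_le_left _ _).trans (min_le_right _ _))
  have e5 : ε₀ ≤ κ / 2 := (min_le_right _ _).trans (min_le_right _ _)
  have e6 : (1 + ε₀) ^ 3 - 1 ≤ ε₂ := by nlinarith [mul_pos hε₀pos hε₀pos]
  refine ⟨ε₀, hε₀pos, ?_⟩
  intro Y _ _ _ _ hY hinf hRig g γ P hγ hPdef hP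
  obtain ⟨R, y, φ, hR0, hRs, hRNP, hφNP, hφy, hRlim⟩ := exists_prefix hY hinf hε₀pos
  -- the kernel of `P`
  have hPb := hP.norm_le hε₀pos.le
  have hrange : LinearMap.range P ≤ Submodule.span ℂ (Set.range g) := by
    rintro _ ⟨x, rfl⟩
    rw [hPdef]
    exact Submodule.sum_mem _ fun i _ => Submodule.smul_mem _ _ (Submodule.subset_span ⟨i, rfl⟩)
  have hfinspan : FiniteDimensional ℂ (Submodule.span ℂ (Set.range g)) :=
    FiniteDimensional.span_of_finite ℂ (Set.finite_range g)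
  have hfinP : FiniteDimensional ℂ (LinearMap.range P) := Submodule.finiteDimensional_of_le hrange
  have hCIP : CI (LinearMap.ker P) := by
    have := (CI.top hinf).inf_ker' P hPb hfinP
    rwa [top_inf_eq] at this
  -- continuity of the coordinate functionals
  have hγP : ∀ i x, γ i (P x) = γ i x := by
    intro i x
    rw [hPdef, map_sum]
    simp only [map_smul, hγ, smul_eq_mul, mul_ite, mul_one, mul_zero]
    simp
  have hγc : ∀ i, Continuous (γ i) := by
    intro i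
    let PL : Y →L[ℂ] LinearMap.range P := P.rangeRestrict.mkContinuous _ hPb
    have h1 : Continuous (((γ i).comp (LinearMap.range P).subtype) : LinearMap.range P → ℂ) :=
      LinearMap.continuous_of_finiteDimensional _
    have h2 : (γ i : Y → ℂ) = (((γ i).comp (LinearMap.range P).subtype) : LinearMap.range P → ℂ)
        ∘ PL := by
      ext x
      exact (hγP i x).symm
    rw [h2]
    exact h1.comp PL.continuous
  by_cases hcase : ∃ k, 1 / 2 ≤ ‖φ k (P (y k))‖ ∧ ‖y k - P (y k)‖ ≤ κ' * ‖P (y k)‖ ∧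
      ∀ x, P x = 0 → ‖φ k x‖ * ‖P (y k)‖ ≤ κ' * ‖x‖
  · obtain ⟨k, hk1, hk2, hk3⟩ := hcase
    exact rank1_into_block hε₀pos.le e1 hκ'pos.le hκ'1 (by linarith) hP (hφNP k) hk1 hk2 hk3
      (hφy k)
  · exfalso
    push Not at hcase
    have hsmall : ∀ k, ‖φ k (P (y k))‖ ≤ 1 / 8 := by
      intro k
      rcases H1 Y hRig P (y k) (φ k) (hP.mono e3) ((hφNP k).mono e3) (hφy k) hCIP with h | h
      · obtain ⟨x, hx1, hx2⟩ := hcase k h.1 h.2.1
        exact absurd (h.2.2 x hx1) (not_le.2 hx2)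
      · obtain ⟨-, h2, h3⟩ := h
        have h4 := h3 (P (y k)) (hP.idem _)
        have hm : 0 < ‖y k - P (y k)‖ := by
          rw [norm_pos_iff]
          intro h0
          rw [h0, norm_zero, mul_zero] at h2
          have h5 : P (y k) = 0 := norm_le_zero_iff.1 h2
          rw [h5, sub_zero] at h0
          have := hφy k
          rw [h0, map_zero] at this
          exact zero_ne_one this
        have h5 : ‖φ k (P (y k))‖ * ‖y k - P (y k)‖ ≤ (κ' * κ') * ‖y k - P (y k)‖ := by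
          calc _ ≤ κ' * ‖P (y k)‖ := h4
            _ ≤ κ' * (κ' * ‖y k - P (y k)‖) := by gcongr
            _ = _ := by ring
        have h6 := le_of_mul_le_mul_right h5 hm
        nlinarith
    -- the traces
    let Q : ℕ → Matrix (Fin 2) (Fin 2) ℂ := fun k => Matrix.of fun i j => γ i (R k (g j))
    have hQ : ∀ k i j, Q k i j = γ i (R k (g j)) := fun _ _ _ => rfl
    have htr : ∀ k, (Q k).trace = ∑ i, γ i (R k (g i)) := fun k => rfl
    have ht0 : (Q 0).trace = 0 := by rw [htr, hR0]; simp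
    have hts : ∀ k, (Q (k + 1)).trace = (Q k).trace + φ k (P (y k)) := by
      intro k
      rw [htr, htr, hPdef (y k), map_sum, ← Finset.sum_add_distrib]
      apply Finset.sum_congr rfl
      intro i _
      rw [hRs, map_add, map_smul, map_smul, smul_eq_mul, smul_eq_mul, mul_comm]
    have htlim : Tendsto (fun k => ((Q k).trace).re) atTop (𝓝 2) := by
      have h1 : Tendsto (fun k => (Q k).trace) atTop (𝓝 (∑ i, γ i (g i))) := by
        simp only [htr]
        apply tendsto_finsetSum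
        intro i _
        exact ((hγc i).tendsto _).comp (hRlim (g i))
      have h2 : (∑ i, γ i (g i)) = 2 := by
        simp [hγ]
      rw [h2] at h1
      have h3 := (Complex.continuous_re.tendsto _).comp h1
      have h4 : (2 : ℂ).re = 2 := rfl
      rw [h4] at h3
      exact h3
    have hex : ∃ k, 1 / 2 ≤ ((Q k).trace).re :=
      (htlim.eventually_const_le (by norm_num : (1 / 2 : ℝ) < 2)).exists
    classical
    obtain ⟨k, hk1, hk2⟩ : ∃ k, 1 / 2 ≤ ((Q k).trace).re ∧ ((Q k).trace).re ≤ 3 / 4 := by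
      have h1 := Nat.find_spec hex
      rcases Nat.eq_zero_or_pos (Nat.find hex) with h0 | hpos
      · rw [h0, ht0] at h1
        norm_num at h1
      · obtain ⟨m, hm⟩ := Nat.exists_eq_succ_of_ne_zero hpos.ne'
        have h2 : ¬ (1 / 2 ≤ ((Q m).trace).re) := Nat.find_min hex (by omega)
        refine ⟨Nat.find hex, h1, ?_⟩
        rw [hm, Nat.succ_eq_add_one, hts, Complex.add_re]
        have h3 := (Complex.abs_re_le_norm (φ m (P (y m)))).trans (hsmall m)
        have h4 := (abs_le.1 h3).2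
        push Not at h2
        linarith
    obtain ⟨v, lam, hv0, hv, hlam⟩ := exists_mid_eigen (Q k) hk1 hk2
    set G : Y := ∑ j, v j • g j with hG
    have hγG : ∀ i, γ i G = v i := by
      intro i
      rw [hG, map_sum]
      simp only [map_smul, hγ, smul_eq_mul, mul_ite, mul_one, mul_zero]
      simp
    have hPG : P G = G := by
      rw [hPdef]
      simp only [hγG]
      exact hG.symm
    have hG0 : G ≠ 0 := by
      intro h0
      apply hv0
      ext i
      rw [← hγG i, h0, map_zero]; rfl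
    have hPRG : P (R k G) = lam • G := by
      rw [hPdef]
      have h1 : ∀ i, γ i (R k G) = lam * v i := by
        intro i
        have h2 := congrFun hv i
        rw [Matrix.mulVec, dotProduct] at h2
        simp only [Pi.smul_apply, smul_eq_mul] at h2
        rw [← h2, hG, map_sum, map_sum]
        apply Finset.sum_congr rfl
        intro j _
        rw [map_smul, map_smul, smul_eq_mul, hQ, mul_comm]
      simp only [h1]
      rw [hG, Finset.smul_sum]
      apply Finset.sum_congr rfl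
      intro i _
      rw [smul_smul]
    have hRR := (hRNP k).idem
    obtain ⟨σ, hσ⟩ := IsAlgClosed.exists_pow_nat_eq (lam * (1 - lam)) (n := 2) (by norm_num)
    have hσn : 1 / 8 ≤ ‖σ‖ := by
      have h1 : (1 / 8 : ℝ) ^ 2 ≤ ‖σ‖ ^ 2 := by
        rw [← norm_pow, hσ]; norm_num at hlam ⊢; exact hlam
      exact le_of_sq_le_sq h1 (norm_nonneg _)
    have hσ0 : σ ≠ 0 := by
      rintro rfl
      rw [norm_zero] at hσn
      norm_num at hσn
    have hAG : offd P (R k) G = R k G - lam • G := by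
      rw [offd_apply, hPG, sub_self, map_zero, map_zero, zero_add, hPRG]
    have hPa : P (R k G - lam • G) = 0 := by
      rw [map_sub, map_smul, hPRG, hPG, sub_self]
    have hAa : offd P (R k) (R k G - lam • G) = (lam * (1 - lam)) • G := by
      rw [offd_apply, hPa, sub_zero, map_zero, map_zero, sub_zero, add_zero, map_sub, map_smul,
        hRR, map_sub, map_smul, hPRG]
      module
    have hNH : NH ε₂ (offd P (R k)) := (NP.offd_NH hε₀pos.le hP (hRNP k)).mono e6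
    have hPR : ∀ x, ‖(P ∘ₗ R k) x‖ ≤ ((1 + ε₀) * (1 + ε₀)) * ‖x‖ := by
      intro x
      calc _ ≤ (1 + ε₀) * ‖R k x‖ := hPb _
        _ ≤ (1 + ε₀) * ((1 + ε₀) * ‖x‖) := by
            gcongr; exact (hRNP k).norm_le hε₀pos.le x
        _ = _ := by ring
    have hCIS := hCIP.inf_ker' (P ∘ₗ R k) hPR (by
      apply Submodule.finiteDimensional_of_le (S₂ := LinearMap.range P)
      exact LinearMap.range_comp_le_range _ _)
    apply hRig G (σ⁻¹ • (R k G - lam • G)) _ hG0 hCIS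
    apply H2 Y P (offd P (R k)) G (σ⁻¹ • (R k G - lam • G)) σ _ (hP.mono e4) hNH hσn hG0 hPG
    · rw [map_smul, hPa, smul_zero]
    · rw [hAG, smul_smul, mul_inv_cancel₀ hσ0, one_smul]
    · rw [map_smul, hAa, smul_smul, ← hσ]
      congr 1
      field_simp
    · intro x hx
      have h1 : P x = 0 := hx.1
      have h2 : P (R k x) = 0 := hx.2
      rw [offd_apply, h1, sub_zero, h2, map_zero, map_zero, sub_zero, add_zero]
    · intro x hx
      have h1 : P x = 0 := hx.1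
      rw [h1]
      exact Submodule.zero_mem _

end Pool.Agent.TH319
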