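import Mathlib

/-!
Basic notions for isometrically homogeneous Banach spaces: closed infinite-dimensional
subspaces, transfer of homogeneity to subspaces, and selection of infinite-dimensional
subspaces by triangular sequences.
-/

namespace Pool.Agent.TH319

open Module

/-- A closed infinite-dimensional subspace. -/
structure CI {𝕜 X : Type*} [RCLike 𝕜] [NormedAddCommGroup X] [NormedSpace 𝕜 X]
    (M : Submodule 𝕜 X) : Prop where
  closed : IsClosed (M : Set X)
  inf : ¬ FiniteDimensional 𝕜 M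

/-- Isometric homogeneity: `X` is isometric to each of its closed infinite-dimensional
subspaces. -/
def Homog (𝕜 X : Type*) [RCLike 𝕜] [NormedAddCommGroup X] [NormedSpace 𝕜 X] : Prop :=
  ∀ Y : Submodule 𝕜 X, IsClosed (Y : Set X) → ¬ FiniteDimensional 𝕜 Y →
    Nonempty (X ≃ₗᵢ[𝕜] Y)

section
variable {𝕜 : Type*} [RCLike 𝕜] {X : Type*} [NormedAddCommGroup X] [NormedSpace 𝕜 X]

/-- The isometry of a submodule of a submodule with its image. -/
noncomputable def mapIso (Z : Submodule 𝕜 X) (Y : Submodule 𝕜 Z) :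
    Y ≃ₗᵢ[𝕜] (Y.map Z.subtype : Submodule 𝕜 X) :=
  { Y.equivMapOfInjective Z.subtype Z.injective_subtype with
    norm_map' := fun _ => rfl }

theorem CI.map {Z : Submodule 𝕜 X} (hZ : IsClosed (Z : Set X)) {Y : Submodule 𝕜 Z}
    (hY : CI Y) : CI (Y.map Z.subtype) := by
  constructor
  · have : ((Y.map Z.subtype : Submodule 𝕜 X) : Set X) = (Subtype.val : Z → X) '' (Y : Set Z) := by
      ext x; simp
    rw [this]
    exact (hZ.isClosedEmbedding_subtypeVal.isClosedMap) _ hY.closed
  · intro h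
    exact hY.inf (LinearEquiv.finiteDimensional (mapIso Z Y).toLinearEquiv.symm)

theorem CI.comap_of_le {Z M : Submodule 𝕜 X} (hM : CI M) (hle : M ≤ Z) :
    CI (M.comap Z.subtype) := by
  constructor
  · exact hM.closed.preimage continuous_subtype_val
  · intro h
    have e := Submodule.comapSubtypeEquivOfLe hle
    exact hM.inf (LinearEquiv.finiteDimensional e)

theorem Homog.sub (hX : Homog 𝕜 X) {Z : Submodule 𝕜 X} (hZ : CI Z) : Homog 𝕜 Z := by
  intro Y hYc hYi
  have hY : CI Y := ⟨hYc, hYi⟩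
  have h1 := hY.map hZ.closed
  obtain ⟨e1⟩ := hX _ h1.closed h1.inf
  obtain ⟨e2⟩ := hX _ hZ.closed hZ.inf
  exact ⟨(e2.symm.trans e1).trans (mapIso Z Y).symm⟩

/-- A closed subspace of finite codimension of an infinite-dimensional space. -/
theorem inf_of_finite_quotient (hX : ¬ FiniteDimensional 𝕜 X) {L : Submodule 𝕜 X}
    (hL : Module.Finite 𝕜 (X ⧸ L)) : ¬ FiniteDimensional 𝕜 L := by
  intro h
  exact hX (Module.Finite.of_submodule_quotient L)

theorem finite_quotient_inf {L L' : Submodule 𝕜 X}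
    (hL : Module.Finite 𝕜 (X ⧸ L)) (hL' : Module.Finite 𝕜 (X ⧸ L')) :
    Module.Finite 𝕜 (X ⧸ (L ⊓ L')) := by
  let f : X →ₗ[𝕜] (X ⧸ L) × (X ⧸ L') := L.mkQ.prod L'.mkQ
  have hk : LinearMap.ker f = L ⊓ L' := by
    simp [f, LinearMap.ker_prod]
  have hfin : Module.Finite 𝕜 (LinearMap.range f) := inferInstance
  rw [← hk]
  exact Module.Finite.equiv f.quotKerEquivRange.symm

theorem finite_quotient_ker {V : Type*} [AddCommGroup V] [Module 𝕜 V] [Module.Finite 𝕜 V]
    (f : X →ₗ[𝕜] V) : Module.Finite 𝕜 (X ⧸ (LinearMap.ker f)) :=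
  Module.Finite.equiv f.quotKerEquivRange.symm

end

end Pool.Agent.TH319
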