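import Pool.Agent.TH319.Phase
import Pool.Agent.TH319.Para

/-!
Definitions for the complex case: almost isometric projections, almost Hermitian operators,
and pairs of vectors on which the norm is almost invariant under the unitary group.
-/

namespace Pool.Agent.TH319

open Module

section
variable {Y : Type*} [NormedAddCommGroup Y] [NormedSpace ℂ Y]

/-- A projection `P` such that multiplying the `P`-part by a scalar of modulus one changes the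
norm by a factor at most `1 + ε`. -/
structure NP (ε : ℝ) (P : Y →ₗ[ℂ] Y) : Prop where
  idem : ∀ y, P (P y) = P y
  ph : ∀ ζ : ℂ, ‖ζ‖ = 1 → ∀ y, ‖y + (ζ - 1) • P y‖ ≤ (1 + ε) * ‖y‖

/-- Almost Hermitian operators. -/
def NH (ε : ℝ) (A : Y →ₗ[ℂ] Y) : Prop :=
  ∀ τ : ℝ, ∀ y, ‖y + ((τ : ℂ) * Complex.I) • A y‖ ≤ (1 + ε) * Real.sqrt (1 + τ ^ 2) * ‖y‖

/-- The off-diagonal part of `R` with respect to the projection `P`. -/
noncomputable def offd (P R : Y →ₗ[ℂ] Y) : Y →ₗ[ℂ] Y :=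
  P ∘ₗ R ∘ₗ (LinearMap.id - P) + (LinearMap.id - P) ∘ₗ R ∘ₗ P

theorem offd_apply (P R : Y →ₗ[ℂ] Y) (y : Y) :
    offd P R y = P (R (y - P y)) + (R (P y) - P (R (P y))) := rfl

/-- The norm of `α g + β w + k` is, up to the factor `1 + δ`, the norm of
`(|α|² + |β|²)^(1/2) g + k`, for all `k` in `S`. -/
def NU (δ : ℝ) (g w : Y) (S : Submodule ℂ Y) : Prop :=
  ∀ (α β : ℂ), ∀ k ∈ S,
    ‖α • g + β • w + k‖ ≤ (1 + δ) * ‖((Real.sqrt (‖α‖ ^ 2 + ‖β‖ ^ 2) : ℝ) : ℂ) • g + k‖ ∧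
    ‖((Real.sqrt (‖α‖ ^ 2 + ‖β‖ ^ 2) : ℝ) : ℂ) • g + k‖ ≤ (1 + δ) * ‖α • g + β • w + k‖

end

/-- No almost unitarily invariant pairs at level `δ`. -/
def Rigid (δ : ℝ) (Y : Type*) [NormedAddCommGroup Y] [NormedSpace ℂ Y] : Prop :=
  ∀ (u v : Y) (K : Submodule ℂ Y), u ≠ 0 → CI K → ¬ NU δ u v K

/-- Almost unitarily invariant pairs exist relative to every finite-dimensional subspace. -/
def UEp (X : Type*) [NormedAddCommGroup X] [NormedSpace ℂ X] : Prop :=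
  ∀ E : Submodule ℂ X, FiniteDimensional ℂ E → ∀ K : Submodule ℂ X, CI K → ∀ δ > 0,
    ∃ u ∈ K, ∃ v ∈ K, u ≠ 0 ∧ ∃ K' : Submodule ℂ X, K' ≤ K ∧ CI K' ∧ NU δ u v (E ⊔ K')

/-- Almost isometric quaternionic pairs of complex structures. -/
def SU2 (X : Type*) [NormedAddCommGroup X] [NormedSpace ℂ X] : Prop :=
  ∀ ε > (0 : ℝ), ∃ I₁ I₂ : X →ₗ[ℂ] X, (∀ x, I₁ (I₁ x) = -x) ∧ (∀ x, I₂ (I₂ x) = -x) ∧
    (∀ x, I₁ (I₂ x) = -I₂ (I₁ x)) ∧
    ∀ a b c : ℝ, a ^ 2 + b ^ 2 + c ^ 2 = 1 → ∀ x,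
      ‖(a : ℂ) • x + (b : ℂ) • I₁ x + (c : ℂ) • I₂ x‖ ≤ (1 + ε) * ‖x‖

section
variable {X : Type*} [NormedAddCommGroup X] [NormedSpace ℂ X]

/-- The phase property of a pair of vectors relative to a subspace. -/
def LP (η : ℝ) (a b : X) (M : Submodule ℂ X) : Prop :=
  ∀ (α β ζ : ℂ), ‖ζ‖ = 1 → ∀ m ∈ M,
    ‖(ζ * α) • a + β • b + m‖ ≤ (1 + η) * ‖α • a + β • b + m‖

/-- Closeness of lines. -/
def Cl (κ : ℝ) (a b : X) : Prop := ∃ ζ : ℂ, ‖ζ‖ = 1 ∧ ‖a - ζ • b‖ ≤ κ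

/-- Diagonal phases on three vectors relative to a subspace. -/
def D3 (ε : ℝ) (x : Fin 3 → X) (M : Submodule ℂ X) : Prop :=
  ∀ (z ζ : Fin 3 → ℂ), (∀ i, ‖ζ i‖ = 1) → ∀ m ∈ M,
    ‖∑ i, (ζ i * z i) • x i + m‖ ≤ (1 + ε) * ‖∑ i, z i • x i + m‖

/-- The plane in the span of `x` cut out by the coefficients `n`. -/
def Pl (x : Fin 3 → X) (n : Fin 3 → ℝ) : Submodule ℂ X where
  carrier := {y | ∃ z : Fin 3 → ℂ, (∑ i, (n i : ℂ) * z i = 0) ∧ y = ∑ i, z i • x i}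
  add_mem' := by
    rintro _ _ ⟨z, hz, rfl⟩ ⟨z', hz', rfl⟩
    refine ⟨z + z', ?_, ?_⟩
    · simp only [Pi.add_apply, mul_add, Finset.sum_add_distrib, hz, hz', add_zero]
    · simp only [Pi.add_apply, add_smul, Finset.sum_add_distrib]
  zero_mem' := ⟨0, by simp, by simp⟩
  smul_mem' := by
    rintro c _ ⟨z, hz, rfl⟩
    refine ⟨c • z, ?_, ?_⟩
    · have : ∑ i, (n i : ℂ) * (c • z) i = c * ∑ i, (n i : ℂ) * z i := by
        rw [Finset.mul_sum]
        apply Finset.sum_congr rfl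
        intro i _
        simp only [Pi.smul_apply, smul_eq_mul]; ring
      rw [this, hz, mul_zero]
    · rw [Finset.smul_sum]
      apply Finset.sum_congr rfl
      intro i _
      rw [Pi.smul_apply, smul_smul, smul_eq_mul]

end

/-- The phase property inside closed subspaces of complex homogeneous spaces. -/
theorem ph_complex {X : Type*} [NormedAddCommGroup X] [NormedSpace ℂ X] [CompleteSpace X]
    [TopologicalSpace.SeparableSpace X] (hX : Homog ℂ X)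
    {G K : Submodule ℂ X} (hG : FiniteDimensional ℂ G) (hK : CI K) {ε : ℝ} (hε : 0 < ε) :
    ∃ M : Submodule ℂ X, CI M ∧ M ≤ K ∧ Ph ε G M := by
  have hY : CI (G ⊔ K) := by
    constructor
    · rw [sup_comm]
      exact Submodule.isClosed_sup_finiteDimensional K G hK.closed
    · intro h
      exact hK.inf (Submodule.finiteDimensional_of_le (le_sup_right : K ≤ G ⊔ K))
  have h1 : CompleteSpace (G ⊔ K : Submodule ℂ X) := hY.closed.completeSpace_coe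
  have : SecondCountableTopology X := UniformSpace.secondCountable_of_separable X
  exact ph_of_local hG hK (phLocal_complex (hX.sub hY) hY.inf) hε

theorem NP.mono {Y : Type*} [NormedAddCommGroup Y] [NormedSpace ℂ Y] {ε ε' : ℝ}
    {P : Y →ₗ[ℂ] Y} (h : NP ε P) (hle : ε ≤ ε') : NP ε' P :=
  ⟨h.idem, fun ζ hζ y => (h.ph ζ hζ y).trans (by gcongr)⟩

theorem NH.mono {Y : Type*} [NormedAddCommGroup Y] [NormedSpace ℂ Y] {ε ε' : ℝ}
    {A : Y →ₗ[ℂ] Y} (h : NH ε A) (hle : ε ≤ ε') : NH ε' A :=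
  fun τ y => (h τ y).trans (by gcongr)

end Pool.Agent.TH319
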