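import Pool.Agent.TH319.Final

/-!
From rotation partners to almost Hilbertian sequences, and from these to the parallelogram
identity.
-/

namespace Pool.Agent.TH319

open Module

section
variable {𝕜 : Type*} [RCLike 𝕜] {X : Type*} [NormedAddCommGroup X] [NormedSpace 𝕜 X]

/-- The pair `(h, ℓ)` can be rotated into `ℓ` relative to `K`, up to the factor `1 + δ`. -/
def NUl (δ : ℝ) (h ℓ : X) (K : Submodule 𝕜 X) : Prop :=
  ∀ (α β : 𝕜), ∀ k ∈ K,
    ‖α • h + β • ℓ + k‖ ≤ (1 + δ) * ‖((Real.sqrt (‖α‖ ^ 2 + ‖β‖ ^ 2) : ℝ) : 𝕜) • ℓ + k‖ ∧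
    ‖((Real.sqrt (‖α‖ ^ 2 + ‖β‖ ^ 2) : ℝ) : 𝕜) • ℓ + k‖ ≤ (1 + δ) * ‖α • h + β • ℓ + k‖

/-- Every nonzero vector has rotation partners in every closed infinite-dimensional subspace. -/
def Partner (𝕜 X : Type*) [RCLike 𝕜] [NormedAddCommGroup X] [NormedSpace 𝕜 X] : Prop :=
  ∀ h : X, h ≠ 0 → ∀ K : Submodule 𝕜 X, CI K → ∀ δ > 0,
    ∃ ℓ ∈ K, ℓ ≠ 0 ∧ ∃ K' : Submodule 𝕜 X, K' ≤ K ∧ CI K' ∧ NUl δ h ℓ K'

/-- Tail sums. -/
noncomputable def tl (h : ℕ → X) (z : ℕ → 𝕜) (m n : ℕ) : X :=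
  ∑ i ∈ Finset.range n, z (m + 1 + i) • h (m + 1 + i)

/-- Tail sums of squares. -/
noncomputable def tn (z : ℕ → 𝕜) (m n : ℕ) : ℝ :=
  ∑ i ∈ Finset.range n, ‖z (m + 1 + i)‖ ^ 2

/-- Products of the constants. -/
noncomputable def tp (δ : ℕ → ℝ) (m n : ℕ) : ℝ := ∏ i ∈ Finset.range n, (1 + δ (m + i))

theorem tl_succ (h : ℕ → X) (z : ℕ → 𝕜) (m n : ℕ) :
    tl h z m (n + 1) = z (m + 1) • h (m + 1) + tl h z (m + 1) n := by
  unfold tl
  rw [Finset.sum_range_succ', add_comm]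
  congr 1
  apply Finset.sum_congr rfl
  intro i _
  rw [show m + 1 + (i + 1) = m + 1 + 1 + i by ring]

theorem tn_succ (z : ℕ → 𝕜) (m n : ℕ) :
    tn z m (n + 1) = ‖z (m + 1)‖ ^ 2 + tn z (m + 1) n := by
  unfold tn
  rw [Finset.sum_range_succ', add_comm]
  congr 1
  apply Finset.sum_congr rfl
  intro i _
  rw [show m + 1 + (i + 1) = m + 1 + 1 + i by ring]

theorem tp_succ (δ : ℕ → ℝ) (m n : ℕ) :
    tp δ m (n + 1) = (1 + δ m) * tp δ (m + 1) n := by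
  unfold tp
  rw [Finset.prod_range_succ', mul_comm]
  congr 1
  apply Finset.prod_congr rfl
  intro i _
  rw [show m + (i + 1) = m + 1 + i by ring]

theorem tn_nonneg (z : ℕ → 𝕜) (m n : ℕ) : 0 ≤ tn z m n :=
  Finset.sum_nonneg fun _ _ => by positivity

theorem chain_est {h : ℕ → X} {K : ℕ → Submodule 𝕜 X} {δ : ℕ → ℝ} (hδ : ∀ i, 0 ≤ δ i)
    (hmem : ∀ i, h (i + 1) ∈ K i) (hmono : ∀ i, K (i + 1) ≤ K i)
    (hNU : ∀ i, NUl (δ i) (h i) (h (i + 1)) (K (i + 1))) (z : ℕ → 𝕜) :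
    ∀ n m : ℕ, ∀ α : 𝕜,
      ‖α • h m + tl h z m n‖ ≤ tp δ m n * (Real.sqrt (‖α‖ ^ 2 + tn z m n) * ‖h (m + n)‖) ∧
      Real.sqrt (‖α‖ ^ 2 + tn z m n) * ‖h (m + n)‖ ≤ tp δ m n * ‖α • h m + tl h z m n‖ := by
  have hK : ∀ m i, h (m + 1 + i) ∈ K m := by
    intro m i
    have hm : ∀ j, K (m + j) ≤ K m := by
      intro j
      induction j with
      | zero => exact le_rfl
      | succ j ih => exact (hmono (m + j)).trans ih
    have := hmem (m + i)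
    rw [show m + 1 + i = m + i + 1 by ring]
    exact hm i this
  have htl : ∀ m n, tl h z m n ∈ K m := fun m n =>
    Submodule.sum_mem _ fun i _ => Submodule.smul_mem _ _ (hK m i)
  have htp : ∀ m n, 0 ≤ tp δ m n := fun m n =>
    Finset.prod_nonneg fun i _ => by have := hδ (m + i); linarith
  intro n
  induction n with
  | zero =>
    intro m α
    have e1 : tl h z m 0 = 0 := by simp [tl]
    have e2 : tn z m 0 = 0 := by simp [tn]
    have e3 : tp δ m 0 = 1 := by simp [tp]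
    rw [e1, e2, e3, add_zero, add_zero, add_zero, one_mul, one_mul,
      Real.sqrt_sq (norm_nonneg _), norm_smul]
    exact ⟨le_rfl, le_rfl⟩
  | succ n ih =>
    intro m α
    have h1 := hNU m α (z (m + 1)) (tl h z (m + 1) n) (htl (m + 1) n)
    set r : ℝ := Real.sqrt (‖α‖ ^ 2 + ‖z (m + 1)‖ ^ 2) with hr
    have hrn : ‖((r : ℝ) : 𝕜)‖ ^ 2 = ‖α‖ ^ 2 + ‖z (m + 1)‖ ^ 2 := by
      rw [RCLike.norm_ofReal, sq_abs, hr, Real.sq_sqrt (by positivity)]
    obtain ⟨ih1, ih2⟩ := ih (m + 1) ((r : ℝ) : 𝕜)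
    rw [hrn] at ih1 ih2
    rw [tl_succ, tn_succ, tp_succ, ← add_assoc, ← add_assoc,
      show m + (n + 1) = m + 1 + n by ring]
    have hd : 0 ≤ 1 + δ m := by have := hδ m; linarith
    constructor
    · calc _ ≤ (1 + δ m) * ‖((r : ℝ) : 𝕜) • h (m + 1) + tl h z (m + 1) n‖ := h1.1
        _ ≤ (1 + δ m) * (tp δ (m + 1) n * (Real.sqrt (‖α‖ ^ 2 + ‖z (m + 1)‖ ^ 2
              + tn z (m + 1) n) * ‖h (m + 1 + n)‖)) := by gcongr
        _ = _ := by ring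
    · calc _ ≤ tp δ (m + 1) n * ‖((r : ℝ) : 𝕜) • h (m + 1) + tl h z (m + 1) n‖ := ih2
        _ ≤ tp δ (m + 1) n * ((1 + δ m) * ‖α • h m + z (m + 1) • h (m + 1)
              + tl h z (m + 1) n‖) := by
            gcongr
            · exact htp _ _
            · exact h1.2
        _ = _ := by ring

/-- An almost Hilbertian sequence. -/
def NearHilbert (𝕜 X : Type*) [RCLike 𝕜] [NormedAddCommGroup X] [NormedSpace 𝕜 X] : Prop :=
  ∀ Δ > (0 : ℝ), ∃ h : ℕ → X, ‖h 0‖ = 1 ∧ ∀ (z : ℕ → 𝕜) (n : ℕ),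
    ‖∑ i ∈ Finset.range n, z i • h i‖
      ≤ (1 + Δ) * Real.sqrt (∑ i ∈ Finset.range n, ‖z i‖ ^ 2) ∧
    Real.sqrt (∑ i ∈ Finset.range n, ‖z i‖ ^ 2)
      ≤ (1 + Δ) * ‖∑ i ∈ Finset.range n, z i • h i‖

theorem nearHilbert_of_partner (hinf : ¬ FiniteDimensional 𝕜 X) (hP : Partner 𝕜 X) :
    NearHilbert 𝕜 X := by
  classical
  intro Δ hΔ
  set η : ℝ := Real.log (1 + Δ) / 2 with hη
  have hηpos : 0 < η := by
    rw [hη]; have := Real.log_pos (by linarith : 1 < 1 + Δ); positivity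
  let δ : ℕ → ℝ := fun i => η / 2 * (1 / 2) ^ i
  have hδpos : ∀ i, 0 < δ i := fun i => by positivity
  -- states
  let S := {t : X × Submodule 𝕜 X // t.1 ≠ 0 ∧ CI t.2}
  have hnext : ∀ (s : S) (i : ℕ), ∃ s' : S, s'.1.1 ∈ s.1.2 ∧ s'.1.2 ≤ s.1.2 ∧
      NUl (δ i) s.1.1 s'.1.1 s'.1.2 := by
    intro s i
    obtain ⟨ℓ, hℓ1, hℓ2, K', hK1, hK2, hK3⟩ := hP s.1.1 s.2.1 s.1.2 s.2.2 (δ i) (hδpos i)
    exact ⟨⟨(ℓ, K'), hℓ2, hK2⟩, hℓ1, hK1, hK3⟩
  choose nx hnx using hnext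
  have hnt : Nontrivial X := by
    by_contra hnt
    rw [not_nontrivial_iff_subsingleton] at hnt
    exact hinf inferInstance
  obtain ⟨u, hu⟩ := exists_ne (0 : X)
  have htopCI : CI (⊤ : Submodule 𝕜 X) := by
    refine ⟨isClosed_univ, fun h => hinf ?_⟩
    exact LinearEquiv.finiteDimensional (Submodule.topEquiv : (⊤ : Submodule 𝕜 X) ≃ₗ[𝕜] X)
  have hu' : ((‖u‖⁻¹ : ℝ) : 𝕜) • u ≠ 0 := by
    rw [smul_ne_zero_iff]
    refine ⟨?_, hu⟩
    have : (‖u‖⁻¹ : ℝ) ≠ 0 := inv_ne_zero (norm_ne_zero_iff.2 hu)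
    exact_mod_cast this
  let s0 : S := ⟨(((‖u‖⁻¹ : ℝ) : 𝕜) • u, ⊤), hu', htopCI⟩
  let sq : ℕ → S := fun n => Nat.rec s0 (fun i s => nx s i) n
  have hsq : ∀ i, sq (i + 1) = nx (sq i) i := fun i => rfl
  let h : ℕ → X := fun i => (sq i).1.1
  let K : ℕ → Submodule 𝕜 X := fun i => (sq i).1.2
  have h0 : ‖h 0‖ = 1 := by
    show ‖((‖u‖⁻¹ : ℝ) : 𝕜) • u‖ = 1
    rw [norm_smul, RCLike.norm_ofReal, abs_of_nonneg (by positivity)]
    exact inv_mul_cancel₀ (norm_ne_zero_iff.2 hu)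
  have hmem : ∀ i, h (i + 1) ∈ K i := fun i => (hnx (sq i) i).1
  have hmono : ∀ i, K (i + 1) ≤ K i := fun i => (hnx (sq i) i).2.1
  have hNU : ∀ i, NUl (δ i) (h i) (h (i + 1)) (K (i + 1)) := fun i => (hnx (sq i) i).2.2
  have hprod : ∀ n, tp δ 0 n ≤ Real.exp η := by
    intro n
    have h1 : tp δ 0 n ≤ Real.exp (∑ i ∈ Finset.range n, δ i) := by
      unfold tp
      rw [Real.exp_sum]
      apply Finset.prod_le_prod
      · intro i _; have := hδpos (0 + i); linarith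
      · intro i _
        rw [zero_add]
        have := Real.add_one_le_exp (δ i)
        linarith
    refine h1.trans (Real.exp_le_exp.2 ?_)
    have h2 : ∑ i ∈ Finset.range n, δ i = η / 2 * ∑ i ∈ Finset.range n, (1 / 2 : ℝ) ^ i := by
      rw [Finset.mul_sum]
    have h3 : ∑ i ∈ Finset.range n, (1 / 2 : ℝ) ^ i ≤ 2 := by
      rw [geom_sum_eq (by norm_num)]
      have : (0:ℝ) ≤ (1/2)^n := by positivity
      have h4 : ((1/2:ℝ) ^ n - 1) / (1/2 - 1) = 2 * (1 - (1/2)^n) := by ring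
      rw [h4]; linarith
    rw [h2]
    nlinarith
  have hprod1 : ∀ n, 1 ≤ tp δ 0 n := by
    intro n
    unfold tp
    have := Finset.prod_le_prod (s := Finset.range n) (f := fun _ => (1 : ℝ))
      (g := fun i => 1 + δ (0 + i)) (by intros; norm_num)
      (by intro i _; have := hδpos (0 + i); linarith)
    simpa using this
  have hexp : Real.exp η * Real.exp η = 1 + Δ := by
    rw [← Real.exp_add, hη, add_halves, Real.exp_log (by linarith)]
  have hmain := chain_est (fun i => (hδpos i).le) hmem hmono hNU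
  -- norms of `h n`
  have hn : ∀ n, ‖h n‖ ≤ Real.exp η ∧ 1 ≤ Real.exp η * ‖h n‖ := by
    intro n
    obtain ⟨a1, a2⟩ := hmain (fun _ => (0 : 𝕜)) n 0 1
    have e1 : tl h (fun _ => (0 : 𝕜)) 0 n = 0 := by simp [tl]
    have e2 : tn (fun _ => (0 : 𝕜)) 0 n = 0 := by simp [tn]
    rw [e1, e2, norm_one, add_zero, add_zero, one_smul, one_pow, Real.sqrt_one, one_mul,
      zero_add, h0] at a1 a2
    constructor
    · exact a2.trans (by rw [mul_one]; exact hprod n)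
    · refine a1.trans ?_
      gcongr
      exact hprod n
  refine ⟨h, h0, ?_⟩
  intro z n
  rcases Nat.eq_zero_or_pos n with rfl | hnpos
  · simp
  obtain ⟨N, rfl⟩ := Nat.exists_eq_succ_of_ne_zero hnpos.ne'
  obtain ⟨a1, a2⟩ := hmain z N 0 (z 0)
  have e1 : ∑ i ∈ Finset.range (N + 1), z i • h i = z 0 • h 0 + tl h z 0 N := by
    rw [Finset.sum_range_succ', add_comm]
    congr 1
    unfold tl
    apply Finset.sum_congr rfl
    intro i _
    rw [show 0 + 1 + i = i + 1 by ring]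
  have e2 : ∑ i ∈ Finset.range (N + 1), ‖z i‖ ^ 2 = ‖z 0‖ ^ 2 + tn z 0 N := by
    rw [Finset.sum_range_succ', add_comm]
    congr 1
    unfold tn
    apply Finset.sum_congr rfl
    intro i _
    rw [show 0 + 1 + i = i + 1 by ring]
  rw [Nat.succ_eq_add_one, e1, e2]
  rw [zero_add] at a1 a2
  set r := Real.sqrt (‖z 0‖ ^ 2 + tn z 0 N) with hr
  have hr0 : 0 ≤ r := Real.sqrt_nonneg _
  obtain ⟨b1, b2⟩ := hn N
  have htp0 : 0 ≤ tp δ 0 N := le_trans zero_le_one (hprod1 N)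
  constructor
  · calc _ ≤ tp δ 0 N * (r * ‖h N‖) := a1
      _ ≤ Real.exp η * (r * Real.exp η) := by gcongr; exact hprod N
      _ = (1 + Δ) * r := by rw [← hexp]; ring
  · calc r = r * 1 := (mul_one r).symm
      _ ≤ r * (Real.exp η * ‖h N‖) := by gcongr
      _ = Real.exp η * (r * ‖h N‖) := by ring
      _ ≤ Real.exp η * (tp δ 0 N * ‖z 0 • h 0 + tl h z 0 N‖) := by gcongr
      _ ≤ Real.exp η * (Real.exp η * ‖z 0 • h 0 + tl h z 0 N‖) := by
          gcongr; exact hprod N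
      _ = _ := by rw [← hexp]; ring

end

end Pool.Agent.TH319
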