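import Pool.Agent.TH319.Stage

/-!
The complex case: a separable infinite-dimensional complex Banach space isometric to all its
closed infinite-dimensional subspaces is isometric to the Hilbert space.
-/

namespace Pool.Agent.TH319

open Module

universe u

theorem complex_case {X : Type u} [NormedAddCommGroup X] [NormedSpace ℂ X] [CompleteSpace X]
    [TopologicalSpace.SeparableSpace X] (hinf : ¬ FiniteDimensional ℂ X) (hX : Homog ℂ X) :
    Nonempty (X ≃ₗᵢ[ℂ] lp (fun _ : ℕ => ℂ) 2) :=
  l2_of_partner hX hinf (partner_of_SU2 hX (su2_of_UEp hX hinf (uep_of_homog hX)))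

end Pool.Agent.TH319
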