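import Pool.Agent.TH319.Phase

/-!
A homogeneous real space carries, for every `ε > 0`, a complex structure all of whose rotations
are `(1 + ε)`-isometric.
-/

namespace Pool.Agent.TH319

open Module

variable {X : Type*} [NormedAddCommGroup X] [NormedSpace ℝ X]

theorem Cx.lift_iterate (W : X →ₗᵢ[ℝ] X) (k : ℕ) (f : Cx X) (w : ℂ) :
    (((Cx.lift W : Cx X →ₗᵢ[ℂ] Cx X) : Cx X → Cx X)^[k] f).toFun w
      = (W : X → X)^[k] (f.toFun w) := by
  induction k with
  | zero => rfl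
  | succ k ih =>
    rw [Function.iterate_succ_apply', Cx.lift_apply, ih, Function.iterate_succ_apply']

theorem Cx.norm_le_add (f : Cx X) : ‖f‖ ≤ ‖f.toFun 1‖ + ‖f.toFun Complex.I‖ := by
  apply Cx.norm_le (by positivity)
  intro w
  rw [Cx.toFun_eq]
  calc _ ≤ ‖w.re • f.toFun 1‖ + ‖w.im • f.toFun Complex.I‖ := norm_add_le _ _
    _ = |w.re| * ‖f.toFun 1‖ + |w.im| * ‖f.toFun Complex.I‖ := by
        rw [norm_smul, norm_smul, Real.norm_eq_abs, Real.norm_eq_abs]
    _ ≤ ‖w‖ * ‖f.toFun 1‖ + ‖w‖ * ‖f.toFun Complex.I‖ := by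
        gcongr
        · exact Complex.abs_re_le_norm w
        · exact Complex.abs_im_le_norm w
    _ = _ := by ring

theorem exists_J [CompleteSpace X] [TopologicalSpace.SeparableSpace X] (hX : Homog ℝ X)
    (hinf : ¬ FiniteDimensional ℝ X) {ε : ℝ} (hε : 0 < ε) :
    ∃ J : X →ₗ[ℝ] X, (∀ x, J (J x) = -x) ∧
      ∀ a b : ℝ, a ^ 2 + b ^ 2 = 1 → ∀ x, ‖a • x + b • J x‖ ≤ (1 + ε) * ‖x‖ := by
  obtain ⟨W, hW, -⟩ := exists_near_fix hX hinf (⊥ : Submodule ℝ X) one_pos
  set β : ℝ := min 1 (ε / 64) with hβ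
  have hβpos : 0 < β := by rw [hβ]; positivity
  have hβ1 : β ≤ 1 := min_le_left _ _
  have hβ2 : β ≤ ε / 64 := min_le_right _ _
  set lam : ℂ := Complex.I * Complex.exp (Complex.I * β) with hlamdef
  have hlam : ‖lam‖ = 1 := by rw [hlamdef, norm_mul, Complex.norm_exp_I_mul_ofReal]; simp
  have hlamim : 1 / 2 ≤ lam.im := by
    have h1 : lam.im = Real.cos β := by
      rw [hlamdef, mul_comm Complex.I (β : ℂ), Complex.exp_mul_I, ← Complex.ofReal_cos,
        ← Complex.ofReal_sin]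
      simp only [Complex.mul_im, Complex.I_re, Complex.I_im, Complex.add_re, Complex.ofReal_re,
        Complex.mul_re, Complex.ofReal_im, Complex.add_im]
      ring
    rw [h1]
    have h2 := Real.one_sub_sq_div_two_le_cos (x := β)
    nlinarith
  have hlam4 : lam ^ 4 = Complex.exp (Complex.I * ((4 * β : ℝ) : ℂ)) := by
    rw [hlamdef, mul_pow, Complex.I_pow_four, one_mul, ← Complex.exp_nat_mul]
    congr 1; push_cast; ring
  obtain ⟨K, hK⟩ := exists_pow_close (4 * β) (by positivity)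
  set δ : ℝ := min (1 / 8) (ε / (64 * (K + 1))) with hδ
  have hδpos : 0 < δ := by rw [hδ]; positivity
  have hδ1 : δ ≤ 1 / 8 := min_le_left _ _
  have hδ2 : δ * (K + 1) ≤ ε / 64 := by
    have : δ ≤ ε / (64 * (K + 1)) := min_le_right _ _
    calc δ * (K + 1) ≤ ε / (64 * (K + 1)) * (K + 1) := by gcongr
      _ = ε / 64 := by field_simp
  -- the approximate eigenspace in the complexification
  have htop : Module.Finite ℂ (Cx X ⧸ (⊤ : Submodule ℂ (Cx X))) := inferInstance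
  obtain ⟨M, hM1, -, hM3⟩ := exists_CI_small
    ((Cx.lift W).toContinuousLinearMap - lam • (1 : Cx X →L[ℂ] Cx X)) ⊤ isClosed_univ htop
    hδpos (by
      intro L hL1 hL2 δ' hδ'
      obtain ⟨u, hu1, hu2, hu3⟩ :=
        hasApp_complex lam hlam (Cx.lift W) (Cx.lift_not_surjective hW) L hL1 hL2 δ' hδ'
      exact ⟨u, hu1, hu2, by simpa using hu3⟩)
  have hM4 : ∀ f ∈ M, ‖Cx.lift W f - lam • f‖ ≤ δ * ‖f‖ := fun f hf => by
    simpa using hM3 f hf
  have hlow : ∀ f ∈ M, ‖f‖ ≤ 8 * ‖f.toFun 1‖ := by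
    intro f hf
    have h1 := hM4 f hf
    have h2 : ‖W (f.toFun 1) - f.toFun lam‖ ≤ δ * ‖f‖ := by
      have h3 := Cx.apply_le (Cx.lift W f - lam • f) 1
      rw [Cx.sub_apply, Cx.lift_apply, Cx.smul_apply, mul_one, norm_one, mul_one] at h3
      exact h3.trans h1
    rw [Cx.toFun_eq f lam] at h2
    have h3 : ‖lam.im • f.toFun Complex.I‖ ≤ δ * ‖f‖ + ‖f.toFun 1‖ + ‖f.toFun 1‖ := by
      have e : lam.im • f.toFun Complex.I = W (f.toFun 1) - lam.re • f.toFun 1
          - (W (f.toFun 1) - (lam.re • f.toFun 1 + lam.im • f.toFun Complex.I)) := by abel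
      have hre : ‖lam.re • f.toFun 1‖ ≤ ‖f.toFun 1‖ := by
        rw [norm_smul, Real.norm_eq_abs]
        have := Complex.abs_re_le_norm lam
        rw [hlam] at this
        nlinarith [norm_nonneg (f.toFun 1)]
      rw [e]
      refine (norm_sub_le _ _).trans ?_
      have h5 := norm_sub_le (W (f.toFun 1)) (lam.re • f.toFun 1)
      rw [W.norm_map] at h5
      linarith
    have h4 : (1 / 2) * ‖f.toFun Complex.I‖ ≤ ‖lam.im • f.toFun Complex.I‖ := by
      rw [norm_smul, Real.norm_eq_abs]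
      gcongr
      exact hlamim.trans (le_abs_self _)
    have h5 := Cx.norm_le_add f
    have h6 : δ * ‖f‖ ≤ (1/8) * ‖f‖ := by gcongr
    nlinarith [norm_nonneg (f.toFun 1)]
  have hrot : ∀ f ∈ M, ∀ ζ : ℂ, ‖ζ‖ = 1 → ‖f.toFun ζ‖ ≤ (1 + ε) * ‖f.toFun 1‖ := by
    intro f hf ζ hζ
    obtain ⟨k, hk, hζk⟩ := hK ζ hζ
    rw [← hlam4, ← pow_mul] at hζk
    have h1 := iter_near' (Cx.lift W) hlam (hM4 f hf) (4 * k)
    have h2 : ‖(W : X → X)^[4 * k] (f.toFun 1) - f.toFun (lam ^ (4 * k))‖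
        ≤ ((4 * k : ℕ) : ℝ) * (δ * ‖f‖) := by
      have h3 := (Cx.apply_le (((Cx.lift W : Cx X →ₗᵢ[ℂ] Cx X) : Cx X → Cx X)^[4 * k] f
        - lam ^ (4 * k) • f) 1)
      rw [Cx.sub_apply, Cx.lift_iterate, Cx.smul_apply, mul_one, norm_one, mul_one] at h3
      exact h3.trans h1
    have h4 : ‖f.toFun ζ - f.toFun (lam ^ (4 * k))‖ ≤ ‖f‖ * (4 * β) := by
      rw [← map_sub]
      exact (Cx.apply_le f _).trans (by gcongr)
    have h5 : f.toFun ζ = (f.toFun ζ - f.toFun (lam ^ (4 * k)))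
        - ((W : X → X)^[4 * k] (f.toFun 1) - f.toFun (lam ^ (4 * k)))
        + (W : X → X)^[4 * k] (f.toFun 1) := by abel
    have h6 : ‖f.toFun ζ‖ ≤ ‖f‖ * (4 * β) + ((4 * k : ℕ) : ℝ) * (δ * ‖f‖) + ‖f.toFun 1‖ := by
      rw [h5]
      refine (norm_add_le _ _).trans ?_
      rw [norm_iterate']
      gcongr
      refine (norm_sub_le _ _).trans ?_
      gcongr
    have h7 := hlow f hf
    have hkK : (k : ℝ) ≤ K := by exact_mod_cast hk
    have h8 : ‖f‖ * (4 * β) ≤ (ε / 2) * ‖f.toFun 1‖ := by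
      calc ‖f‖ * (4 * β) ≤ (8 * ‖f.toFun 1‖) * (4 * (ε / 64)) := by gcongr
        _ = (ε / 2) * ‖f.toFun 1‖ := by ring
    have h9 : ((4 * k : ℕ) : ℝ) * (δ * ‖f‖) ≤ (ε / 2) * ‖f.toFun 1‖ := by
      push_cast
      calc (4 * (k : ℝ)) * (δ * ‖f‖) ≤ (4 * (K + 1)) * (δ * (8 * ‖f.toFun 1‖)) := by
            gcongr; linarith
        _ = 32 * (δ * (K + 1)) * ‖f.toFun 1‖ := by ring
        _ ≤ 32 * (ε / 64) * ‖f.toFun 1‖ := by gcongr
        _ = (ε / 2) * ‖f.toFun 1‖ := by ring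
    linarith
  -- the real subspace
  let e : M →ₗ[ℝ] X := (Cx.eval 1).comp (M.subtype.restrictScalars ℝ)
  have he : ∀ f : M, e f = (f : Cx X).toFun 1 := fun f => rfl
  have hanti : ∀ f : M, ‖f‖ ≤ 8 * ‖e f‖ := fun f => hlow f f.2
  have hinj : Function.Injective e := by
    rw [injective_iff_map_eq_zero]
    intro f hf
    have := hanti f
    rw [hf, norm_zero, mul_zero] at this
    exact norm_le_zero_iff.1 this
  have hecont : ∀ f : M, ‖e f‖ ≤ 1 * ‖f‖ := by
    intro f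
    have := Cx.apply_le (f : Cx X) 1
    rw [norm_one, mul_one] at this
    rw [one_mul]; exact this
  let eL : M →L[ℝ] X := e.mkContinuous 1 hecont
  have hMcomplete : CompleteSpace M := hM1.closed.completeSpace_coe
  have hantiL : AntilipschitzWith 8 eL := by
    apply eL.antilipschitz_of_bound
    intro f
    exact hanti f
  have hclosed : IsClosed (Set.range eL) := hantiL.isClosed_range eL.uniformContinuous
  have hcl' : IsClosed ((LinearMap.range e : Submodule ℝ X) : Set X) := by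
    have : ((LinearMap.range e : Submodule ℝ X) : Set X) = Set.range eL := by
      ext x; simp [eL]
    rw [this]; exact hclosed
  have hinf' : ¬ FiniteDimensional ℝ (LinearMap.range e) := by
    intro h
    have h1 : FiniteDimensional ℝ M :=
      FiniteDimensional.of_injective e.rangeRestrict (by
        intro a b hab
        exact hinj (congrArg Subtype.val hab))
    exact hM1.inf (Module.Finite.of_restrictScalars_finite ℝ ℂ M)
  obtain ⟨V⟩ := hX _ hcl' hinf'
  let E : M ≃ₗ[ℝ] LinearMap.range e := LinearEquiv.ofInjective e hinj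
  have hE : ∀ z : LinearMap.range e, ((E.symm z : M) : Cx X).toFun 1 = z := by
    intro z
    have h1 : E (E.symm z) = z := E.apply_symm_apply z
    have h2 : ((E (E.symm z) : LinearMap.range e) : X) = z := by rw [h1]
    exact h2
  let mulI : M →ₗ[ℝ] M := (LinearMap.lsmul ℂ M Complex.I).restrictScalars ℝ
  have hmulI : ∀ f : M, mulI f = Complex.I • f := fun f => rfl
  let J0 : LinearMap.range e →ₗ[ℝ] LinearMap.range e :=
    (E : M →ₗ[ℝ] LinearMap.range e).comp (mulI.comp (E.symm : LinearMap.range e →ₗ[ℝ] M))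
  have hJ0 : ∀ z, J0 z = E (Complex.I • E.symm z) := fun z => rfl
  have hJ0sq : ∀ z, J0 (J0 z) = -z := by
    intro z
    rw [hJ0, hJ0, E.symm_apply_apply, smul_smul, Complex.I_mul_I, neg_one_smul, map_neg,
      E.apply_symm_apply]
  have hJ0val : ∀ z, ((J0 z : LinearMap.range e) : X)
      = ((E.symm z : M) : Cx X).toFun Complex.I := by
    intro z
    rw [hJ0]
    show (Complex.I • ((E.symm z : M) : Cx X)).toFun 1 = _
    rw [Cx.smul_apply, mul_one]
  have hJ0n : ∀ a b : ℝ, a ^ 2 + b ^ 2 = 1 → ∀ z, ‖a • z + b • J0 z‖ ≤ (1 + ε) * ‖z‖ := by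
    intro a b hab z
    have h1 := hrot (E.symm z) (E.symm z).2 (⟨a, b⟩ : ℂ) (by
      rw [Complex.norm_eq_sqrt_sq_add_sq]; simp [hab])
    rw [Cx.toFun_eq, hE z] at h1
    show ‖((a • z + b • J0 z : LinearMap.range e) : X)‖ ≤ (1 + ε) * ‖(z : X)‖
    rw [Submodule.coe_add, Submodule.coe_smul, Submodule.coe_smul, hJ0val]
    exact h1
  refine ⟨(V.symm.toLinearEquiv : LinearMap.range e →ₗ[ℝ] X).comp
    (J0.comp (V.toLinearEquiv : X →ₗ[ℝ] LinearMap.range e)), ?_, ?_⟩
  · intro x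
    show V.symm (J0 (V (V.symm (J0 (V x))))) = -x
    rw [V.apply_symm_apply, hJ0sq, map_neg, V.symm_apply_apply]
  · intro a b hab x
    show ‖a • x + b • V.symm (J0 (V x))‖ ≤ _
    rw [← V.norm_map, map_add, map_smul, map_smul, V.apply_symm_apply, ← V.norm_map x]
    exact hJ0n a b hab (V x)

end Pool.Agent.TH319
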