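import Pool.Agent.TH319.EigenKer

/-!
The complexification of a real normed space, realised as the space of real-linear maps from
the complex plane.
-/

namespace Pool.Agent.TH319

open Module

/-- The complexification of a real normed space `Y`: real-linear maps `ℂ → Y` with the operator
norm, a complex number acting by precomposition with multiplication. -/
def Cx (Y : Type*) [NormedAddCommGroup Y] [NormedSpace ℝ Y] : Type _ := ℂ →L[ℝ] Y

section
variable {Y : Type*} [NormedAddCommGroup Y] [NormedSpace ℝ Y]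

noncomputable instance : NormedAddCommGroup (Cx Y) :=
  inferInstanceAs (NormedAddCommGroup (ℂ →L[ℝ] Y))

instance [CompleteSpace Y] : CompleteSpace (Cx Y) :=
  inferInstanceAs (CompleteSpace (ℂ →L[ℝ] Y))

/-- The underlying map. -/
def Cx.toFun (f : Cx Y) : ℂ →L[ℝ] Y := f

theorem Cx.ext {f g : Cx Y} (h : ∀ w, f.toFun w = g.toFun w) : f = g :=
  ContinuousLinearMap.ext h

/-- Constructor. -/
def Cx.mk (f : ℂ →L[ℝ] Y) : Cx Y := f

noncomputable instance : SMul ℂ (Cx Y) where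
  smul z f := Cx.mk (f.toFun.comp (ContinuousLinearMap.mul ℝ ℂ z))

theorem Cx.smul_apply (z : ℂ) (f : Cx Y) (w : ℂ) : (z • f).toFun w = f.toFun (z * w) := rfl

theorem Cx.add_apply (f g : Cx Y) (w : ℂ) : (f + g).toFun w = f.toFun w + g.toFun w := rfl

theorem Cx.sub_apply (f g : Cx Y) (w : ℂ) : (f - g).toFun w = f.toFun w - g.toFun w := rfl

theorem Cx.zero_apply (w : ℂ) : (0 : Cx Y).toFun w = 0 := rfl

noncomputable instance : Module ℂ (Cx Y) where
  one_smul f := Cx.ext fun w => by rw [Cx.smul_apply, one_mul]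
  mul_smul a b f := Cx.ext fun w => by
    rw [Cx.smul_apply, Cx.smul_apply, Cx.smul_apply, ← mul_assoc, mul_comm b a]
  smul_zero a := Cx.ext fun w => by rw [Cx.smul_apply, Cx.zero_apply, Cx.zero_apply]
  smul_add a f g := Cx.ext fun w => by
    rw [Cx.smul_apply, Cx.add_apply, Cx.add_apply, Cx.smul_apply, Cx.smul_apply]
  add_smul a b f := Cx.ext fun w => by
    rw [Cx.smul_apply, Cx.add_apply, Cx.smul_apply, Cx.smul_apply, add_mul, map_add]
  zero_smul f := Cx.ext fun w => by rw [Cx.smul_apply, zero_mul, map_zero, Cx.zero_apply]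

theorem Cx.norm_def (f : Cx Y) : ‖f‖ = ‖f.toFun‖ := rfl

theorem Cx.apply_le (f : Cx Y) (w : ℂ) : ‖f.toFun w‖ ≤ ‖f‖ * ‖w‖ := f.toFun.le_opNorm w

theorem Cx.norm_le {f : Cx Y} {C : ℝ} (hC : 0 ≤ C) (h : ∀ w, ‖f.toFun w‖ ≤ C * ‖w‖) :
    ‖f‖ ≤ C := ContinuousLinearMap.opNorm_le_bound _ hC h

noncomputable instance : NormedSpace ℂ (Cx Y) where
  norm_smul_le z f := by
    apply Cx.norm_le (by positivity)
    intro w
    rw [Cx.smul_apply]
    calc ‖f.toFun (z * w)‖ ≤ ‖f‖ * ‖z * w‖ := f.apply_le _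
      _ = ‖z‖ * ‖f‖ * ‖w‖ := by rw [norm_mul]; ring

/-- The extension of a real-linear isometry to the complexification. -/
noncomputable def Cx.lift (W : Y →ₗᵢ[ℝ] Y) : Cx Y →ₗᵢ[ℂ] Cx Y where
  toFun f := Cx.mk (W.toContinuousLinearMap.comp f.toFun)
  map_add' f g := Cx.ext fun w => by
    show W (f.toFun w + g.toFun w) = W (f.toFun w) + W (g.toFun w)
    rw [map_add]
  map_smul' z f := Cx.ext fun w => rfl
  norm_map' f := by
    show ‖W.toContinuousLinearMap.comp f.toFun‖ = ‖f.toFun‖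
    exact W.norm_toContinuousLinearMap_comp

theorem Cx.lift_apply (W : Y →ₗᵢ[ℝ] Y) (f : Cx Y) (w : ℂ) :
    (Cx.lift W f).toFun w = W (f.toFun w) := rfl

/-- The real vector `y` as an element of the complexification. -/
noncomputable def Cx.ofReal (y : Y) : Cx Y :=
  Cx.mk (ContinuousLinearMap.smulRight Complex.reCLM y)

theorem Cx.ofReal_apply (y : Y) (w : ℂ) : (Cx.ofReal y).toFun w = w.re • y := rfl

theorem Cx.lift_not_surjective {W : Y →ₗᵢ[ℝ] Y} (hW : ¬ Function.Surjective W) :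
    ¬ Function.Surjective (Cx.lift W) := by
  intro h
  apply hW
  intro y
  obtain ⟨g, hg⟩ := h (Cx.ofReal y)
  refine ⟨g.toFun 1, ?_⟩
  have := congrArg (fun f => Cx.toFun f 1) hg
  simpa [Cx.lift_apply, Cx.ofReal_apply] using this

theorem Cx.toFun_eq (f : Cx Y) (w : ℂ) :
    f.toFun w = w.re • f.toFun 1 + w.im • f.toFun Complex.I := by
  have h1 : w = w.re • (1 : ℂ) + w.im • Complex.I := by
    apply Complex.ext <;> simp
  conv_lhs => rw [h1]
  rw [map_add, map_smul, map_smul]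

/-- Evaluation as a real-linear map. -/
noncomputable def Cx.eval (w : ℂ) : Cx Y →ₗ[ℝ] Y where
  toFun f := f.toFun w
  map_add' f g := rfl
  map_smul' r f := by
    show (((r : ℂ)) • f).toFun w = r • f.toFun w
    rw [Cx.smul_apply, ← map_smul]
    congr 1

theorem Cx.eval_apply (w : ℂ) (f : Cx Y) : Cx.eval w f = f.toFun w := rfl

/-- For a non-surjective isometry of a real Banach space there are vectors in any subspace of
finite codimension which are almost mapped to their negatives. -/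
theorem approx_neg_real [CompleteSpace Y] (W : Y →ₗᵢ[ℝ] Y) (hW : ¬ Function.Surjective W)
    (L : Submodule ℝ Y) (hL : Module.Finite ℝ (Y ⧸ L)) {δ : ℝ} (hδ : 0 < δ) :
    ∃ u ∈ L, ‖u‖ = 1 ∧ ‖W u + u‖ ≤ δ := by
  let Ψ : Cx Y →ₗ[ℝ] (Y ⧸ L) × (Y ⧸ L) :=
    (L.mkQ.comp (Cx.eval 1)).prod (L.mkQ.comp (Cx.eval Complex.I))
  obtain ⟨f, hf0, hf1, hf2⟩ := approx_eigen_ker (Cx.lift W) (Cx.lift_not_surjective hW) (-1)
    (by simp) Ψ (half_pos hδ)
  have hmem : ∀ w, f.toFun w ∈ L := by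
    intro w
    rw [Cx.toFun_eq]
    have h0 : (L.mkQ (f.toFun 1), L.mkQ (f.toFun Complex.I)) = (0, 0) := hf0
    have h1 := (Prod.ext_iff.1 h0).1
    have h2 := (Prod.ext_iff.1 h0).2
    simp only [Submodule.mkQ_apply, Submodule.Quotient.mk_eq_zero] at h1 h2
    exact L.add_mem (L.smul_mem _ h1) (L.smul_mem _ h2)
  -- some value has norm at least 1/2 times the norm of the argument
  have hex : ∃ w : ℂ, ‖f.toFun w‖ > (1/2) * ‖w‖ := by
    by_contra hcon
    push Not at hcon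
    have := Cx.norm_le (f := f) (by norm_num) hcon
    rw [hf1] at this
    norm_num at this
  obtain ⟨w, hw⟩ := hex
  have hw0 : 0 < ‖f.toFun w‖ := lt_of_le_of_lt (by positivity) hw
  refine ⟨‖f.toFun w‖⁻¹ • f.toFun w, L.smul_mem _ (hmem w), ?_, ?_⟩
  · rw [norm_smul, norm_inv, norm_norm]; exact inv_mul_cancel₀ hw0.ne'
  · have h1 : W (f.toFun w) + f.toFun w = (Cx.lift W f - (-1 : ℂ) • f).toFun w := by
      rw [Cx.sub_apply, Cx.lift_apply, Cx.smul_apply]
      rw [neg_one_mul, map_neg, sub_neg_eq_add]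
    rw [map_smul, ← smul_add, norm_smul, norm_inv, norm_norm, inv_mul_le_iff₀ hw0, h1]
    calc _ ≤ ‖Cx.lift W f - (-1 : ℂ) • f‖ * ‖w‖ := Cx.apply_le _ _
      _ ≤ (δ / 2) * ‖w‖ := by gcongr
      _ = ((1/2) * ‖w‖) * δ := by ring
      _ ≤ ‖f.toFun w‖ * δ := by gcongr

end

end Pool.Agent.TH319
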