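import Pool.Agent.TH319.Parts
import Pool.Agent.TH319.RealPartner

/-!
Almost Hermitian rank-one projections relative to an almost isometric projection.
-/

namespace Pool.Agent.TH319

open Module Filter Topology

universe u

section
variable {Y : Type*} [NormedAddCommGroup Y] [NormedSpace ℂ Y]

theorem NP.norm_le {ε : ℝ} {P : Y →ₗ[ℂ] Y} (h : NP ε P) (hε : 0 ≤ ε) (y : Y) :
    ‖P y‖ ≤ (1 + ε) * ‖y‖ := by
  have h1 := h.ph (-1) (by simp) y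
  have h2 : (2 : ℂ) • P y = y - (y + (-1 - 1 : ℂ) • P y) := by module
  have h3 : ‖(2 : ℂ) • P y‖ ≤ ‖y‖ + (1 + ε) * ‖y‖ := by
    rw [h2]; exact (norm_sub_le _ _).trans (by gcongr)
  rw [norm_smul, Complex.norm_ofNat] at h3
  nlinarith [norm_nonneg y]

theorem NU.mono_sub {δ : ℝ} {g w : Y} {S S' : Submodule ℂ Y} (h : NU δ g w S) (hle : S' ≤ S) :
    NU δ g w S' := fun α β k hk => h α β k (hle hk)

theorem NU.mono {δ δ' : ℝ} {g w : Y} {S : Submodule ℂ Y} (h : NU δ g w S) (hle : δ ≤ δ') :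
    NU δ' g w S := fun α β k hk =>
  ⟨(h α β k hk).1.trans (by gcongr), (h α β k hk).2.trans (by gcongr)⟩

/-- The off-diagonal part of a rank-one projection. -/
theorem offd_rank1 (P : Y →ₗ[ℂ] Y) (f : Y) (φ : Y →ₗ[ℂ] ℂ) (y : Y) :
    offd P (φ.smulRight f) y = φ (y - P y) • P f + φ (P y) • (f - P f) := by
  rw [offd_apply]
  simp only [LinearMap.smulRight_apply, map_smul, smul_sub]

theorem offd_rank1_cube {P : Y →ₗ[ℂ] Y} (hP : ∀ y, P (P y) = P y) (f : Y) (φ : Y →ₗ[ℂ] ℂ)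
    (hf : φ f = 1) (y : Y) :
    offd P (φ.smulRight f) (offd P (φ.smulRight f) (offd P (φ.smulRight f) y))
      = (φ (P f) * (1 - φ (P f))) • offd P (φ.smulRight f) y := by
  simp only [offd_rank1, map_add, map_smul, map_sub, hP, smul_eq_mul, hf]
  module

end

/-- If the weight of a rank-one almost isometric projection is close to zero or one, then the
projection is close to a block. -/
theorem rank1_small (κ : ℝ) (hκ : 0 < κ) :
    ∃ s₀ > (0 : ℝ), ∃ ε₀ > (0 : ℝ), ∀ (Y : Type u) [NormedAddCommGroup Y] [NormedSpace ℂ Y]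
      (P : Y →ₗ[ℂ] Y) (f : Y) (φ : Y →ₗ[ℂ] ℂ), NP ε₀ P → NP ε₀ (φ.smulRight f) → φ f = 1 →
      ‖φ (P f) * (1 - φ (P f))‖ ≤ s₀ →
      (1 / 2 ≤ ‖φ (P f)‖ ∧ ‖f - P f‖ ≤ κ * ‖P f‖ ∧ ∀ x, P x = 0 → ‖φ x‖ * ‖P f‖ ≤ κ * ‖x‖) ∨
      (1 / 2 ≤ ‖1 - φ (P f)‖ ∧ ‖P f‖ ≤ κ * ‖f - P f‖ ∧
        ∀ x, P x = x → ‖φ x‖ * ‖f - P f‖ ≤ κ * ‖x‖) := by
  obtain ⟨s₀, hs₀, ε₀, hε₀, H⟩ := small_op.{u} (κ / 2) (half_pos hκ)
  obtain ⟨ε₁, hε₁, hε₁1, hε₁2⟩ : ∃ ε₁ > (0 : ℝ), ε₁ ≤ 1 ∧ (1 + ε₁) ^ 3 - 1 ≤ ε₀ := by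
    refine ⟨min 1 (ε₀ / 7), by positivity, min_le_left _ _, ?_⟩
    have h1 : min 1 (ε₀ / 7) ≤ 1 := min_le_left _ _
    have h2 : min 1 (ε₀ / 7) ≤ ε₀ / 7 := min_le_right _ _
    have h3 : 0 < min 1 (ε₀ / 7) := by positivity
    nlinarith [mul_pos h3 h3]
  refine ⟨s₀, hs₀, ε₁, hε₁, ?_⟩
  intro Y _ _ P f φ hP hR hf hs
  have hNH : NH ε₀ (offd P (φ.smulRight f)) := (NP.offd_NH hε₁.le hP hR).mono hε₁2
  have hA := H Y _ _ hNH (offd_rank1_cube hP.idem f φ hf) hs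
  set g := P f with hg
  have hPg : P g = g := hP.idem f
  have hPm : P (f - g) = 0 := by rw [map_sub, hPg, ← hg, sub_self]
  have hφm : φ (f - g) = 1 - φ g := by rw [map_sub, hf]
  have hAg : offd P (φ.smulRight f) g = φ g • (f - g) := by
    rw [offd_rank1, hPg, sub_self, map_zero, zero_smul, zero_add]
  have hAm : offd P (φ.smulRight f) (f - g) = (1 - φ g) • g := by
    rw [offd_rank1, hPm, map_zero, zero_smul, add_zero, sub_zero, hφm]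
  have hA1 := hA g
  have hA2 := hA (f - g)
  rw [hAg, norm_smul] at hA1
  rw [hAm, norm_smul] at hA2
  by_cases hw : 1 / 2 ≤ ‖φ g‖
  · left
    refine ⟨hw, ?_, ?_⟩
    · nlinarith [norm_nonneg (f - g), norm_nonneg g]
    · intro x hx
      have h1 := hA x
      rw [offd_rank1, hx, map_zero, zero_smul, add_zero, sub_zero, norm_smul] at h1
      have := norm_nonneg x
      nlinarith
  · right
    have hw' : 1 / 2 ≤ ‖1 - φ g‖ := by
      have h1 : ‖(1 : ℂ)‖ ≤ ‖1 - φ g‖ + ‖φ g‖ := by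
        have := norm_add_le (1 - φ g) (φ g)
        rwa [sub_add_cancel] at this
      rw [norm_one] at h1
      push Not at hw
      linarith
    refine ⟨hw', ?_, ?_⟩
    · nlinarith [norm_nonneg (f - g), norm_nonneg g]
    · intro x hx
      have h1 := hA x
      rw [offd_rank1, hx, sub_self, map_zero, zero_smul, zero_add, norm_smul] at h1
      have := norm_nonneg x
      nlinarith

/-- If the weight is intermediate, the two components of the vector form an almost unitarily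
invariant pair. -/
theorem rank1_big (s₀ δ : ℝ) (hs : 0 < s₀) (hδ : 0 < δ) :
    ∃ ε₀ > (0 : ℝ), ∀ (Y : Type u) [NormedAddCommGroup Y] [NormedSpace ℂ Y]
      (P : Y →ₗ[ℂ] Y) (f : Y) (φ : Y →ₗ[ℂ] ℂ), NP ε₀ P → NP ε₀ (φ.smulRight f) → φ f = 1 →
      s₀ ≤ ‖φ (P f) * (1 - φ (P f))‖ → P f ≠ 0 ∧
      ∃ c : ℂ, c ≠ 0 ∧ NU δ (P f) (c • (f - P f))
        (LinearMap.ker (φ ∘ₗ P) ⊓ LinearMap.ker φ) := by
  obtain ⟨ε₀, hε₀, H⟩ := rot_NU.{u} (Real.sqrt s₀) δ (Real.sqrt_pos.2 hs) hδ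
  obtain ⟨ε₁, hε₁, hε₁1, hε₁2⟩ : ∃ ε₁ > (0 : ℝ), ε₁ ≤ ε₀ ∧ (1 + ε₁) ^ 3 - 1 ≤ ε₀ := by
    refine ⟨min (min 1 ε₀) (ε₀ / 7), by positivity, (min_le_left _ _).trans (min_le_right _ _), ?_⟩
    have h1 : min (min 1 ε₀) (ε₀ / 7) ≤ 1 := (min_le_left _ _).trans (min_le_left _ _)
    have h2 : min (min 1 ε₀) (ε₀ / 7) ≤ ε₀ / 7 := min_le_right _ _
    have h3 : 0 < min (min 1 ε₀) (ε₀ / 7) := by positivity
    nlinarith [mul_pos h3 h3]
  refine ⟨ε₁, hε₁, ?_⟩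
  intro Y _ _ P f φ hP hR hf hs'
  have hNH : NH ε₀ (offd P (φ.smulRight f)) := (NP.offd_NH hε₁.le hP hR).mono hε₁2
  set g := P f with hg
  set w := φ g with hw
  have hPg : P g = g := hP.idem f
  have hPm : P (f - g) = 0 := by rw [map_sub, hPg, ← hg, sub_self]
  have hφm : φ (f - g) = 1 - w := by rw [map_sub, hf]
  have hAg : offd P (φ.smulRight f) g = w • (f - g) := by
    rw [offd_rank1, hPg, sub_self, map_zero, zero_smul, zero_add]
  have hAm : offd P (φ.smulRight f) (f - g) = (1 - w) • g := by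
    rw [offd_rank1, hPm, map_zero, zero_smul, add_zero, sub_zero, hφm]
  have hwne : w * (1 - w) ≠ 0 := by
    intro h
    rw [h, norm_zero] at hs'
    linarith
  have hw0 : w ≠ 0 := left_ne_zero_of_mul hwne
  have hg0 : g ≠ 0 := by
    intro h
    apply hw0
    rw [hw, h, map_zero]
  obtain ⟨σ, hσ⟩ := IsAlgClosed.exists_pow_nat_eq (w * (1 - w)) (n := 2) (by norm_num)
  have hσ0 : σ ≠ 0 := by
    rintro rfl
    apply hwne
    rw [← hσ]; norm_num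
  refine ⟨hg0, w / σ, div_ne_zero hw0 hσ0, ?_⟩
  apply H Y P (offd P (φ.smulRight f)) g ((w / σ) • (f - g)) σ _ (hP.mono hε₁1) hNH
  · rw [Real.sqrt_le_left (norm_nonneg _), ← norm_pow, hσ]; exact hs'
  · exact hg0
  · exact hPg
  · rw [map_smul, hPm, smul_zero]
  · rw [hAg, smul_smul, mul_div_cancel₀ _ hσ0]
  · rw [map_smul, hAm, smul_smul]
    congr 1
    field_simp
    rw [hσ]
  · intro k hk
    have h1 : φ (P k) = 0 := hk.1
    have h2 : φ k = 0 := hk.2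
    rw [offd_rank1, map_sub, h1, h2, sub_zero, zero_smul, zero_smul, add_zero]
  · intro k hk
    have h1 : φ (P k) = 0 := hk.1
    refine ⟨?_, ?_⟩
    · show φ (P (P k)) = 0
      rw [hP.idem, h1]
    · exact h1

/-- In a rigid space every almost isometric rank-one projection is close to a block of any
almost isometric projection with infinite-dimensional kernel. -/
theorem dichotomy (δ κ : ℝ) (hδ : 0 < δ) (hκ : 0 < κ) :
    ∃ ε₀ > (0 : ℝ), ∀ (Y : Type u) [NormedAddCommGroup Y] [NormedSpace ℂ Y], Rigid δ Y →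
      ∀ (P : Y →ₗ[ℂ] Y) (f : Y) (φ : Y →ₗ[ℂ] ℂ), NP ε₀ P → NP ε₀ (φ.smulRight f) → φ f = 1 →
      CI (LinearMap.ker P) →
      (1 / 2 ≤ ‖φ (P f)‖ ∧ ‖f - P f‖ ≤ κ * ‖P f‖ ∧ ∀ x, P x = 0 → ‖φ x‖ * ‖P f‖ ≤ κ * ‖x‖) ∨
      (1 / 2 ≤ ‖1 - φ (P f)‖ ∧ ‖P f‖ ≤ κ * ‖f - P f‖ ∧
        ∀ x, P x = x → ‖φ x‖ * ‖f - P f‖ ≤ κ * ‖x‖) := by
  obtain ⟨s₀, hs₀, ε₀, hε₀, H1⟩ := rank1_small.{u} κ hκ
  obtain ⟨ε₁, hε₁, H2⟩ := rank1_big.{u} s₀ δ hs₀ hδ
  refine ⟨min ε₀ ε₁, lt_min hε₀ hε₁, ?_⟩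
  intro Y _ _ hR P f φ hP hf hφ hCI
  by_cases hs : ‖φ (P f) * (1 - φ (P f))‖ ≤ s₀
  · exact H1 Y P f φ (hP.mono (min_le_left _ _)) (hf.mono (min_le_left _ _)) hφ hs
  · exfalso
    push Not at hs
    obtain ⟨hg0, c, hc, hNU⟩ := H2 Y P f φ (hP.mono (min_le_right _ _))
      (hf.mono (min_le_right _ _)) hφ hs.le
    have hf0 : f ≠ 0 := by
      rintro rfl
      rw [map_zero] at hφ
      exact zero_ne_one hφ
    have hfpos : 0 < ‖f‖ := norm_pos_iff.2 hf0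
    have hb : ∀ y, ‖φ y‖ ≤ ((1 + min ε₀ ε₁) / ‖f‖) * ‖y‖ := by
      intro y
      have h1 := hf.norm_le (lt_min hε₀ hε₁).le y
      rw [LinearMap.smulRight_apply, norm_smul] at h1
      rw [div_mul_eq_mul_div, le_div_iff₀ hfpos]
      exact h1
    let φL : Y →L[ℂ] ℂ := φ.mkContinuous _ hb
    have hCI' := hCI.inf_ker φL
    apply hR (P f) (c • (f - P f)) (LinearMap.ker P ⊓ LinearMap.ker (φL : Y →ₗ[ℂ] ℂ)) hg0 hCI'
    apply hNU.mono_sub
    intro k hk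
    have h1 : P k = 0 := hk.1
    have h2 : φ k = 0 := hk.2
    refine ⟨?_, h2⟩
    show φ (P k) = 0
    rw [h1, map_zero]

end Pool.Agent.TH319
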