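import Pool.Agent.TH319.Select

/-!
Approximate eigenvectors of non-surjective linear isometric embeddings.
-/

namespace Pool.Agent.TH319

open Module

section one
variable {𝕜 : Type*} [RCLike 𝕜] {F : Type*} [NormedAddCommGroup F] [NormedSpace 𝕜 F]
  [CompleteSpace F]

theorem isUnit_of_near {A B : F →L[𝕜] F} (hA : IsUnit A) {a : ℝ} (ha : 0 < a)
    (hb : ∀ x, a * ‖x‖ ≤ ‖A x‖) (hBA : ‖B - A‖ < a) : IsUnit B := by
  obtain ⟨u, rfl⟩ := hA
  have hinv : ‖((u⁻¹ : (F →L[𝕜] F)ˣ) : F →L[𝕜] F)‖ ≤ a⁻¹ := by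
    apply ContinuousLinearMap.opNorm_le_bound _ (by positivity)
    intro x
    have h1 := hb (((u⁻¹ : (F →L[𝕜] F)ˣ) : F →L[𝕜] F) x)
    have h2 : (u : F →L[𝕜] F) (((u⁻¹ : (F →L[𝕜] F)ˣ) : F →L[𝕜] F) x) = x := by
      rw [← mul_apply_eq_comp, Units.mul_inv]; rfl
    rw [h2] at h1
    rw [inv_mul_eq_div, le_div_iff₀ ha]
    linarith
  have ht : ‖((u⁻¹ : (F →L[𝕜] F)ˣ) : F →L[𝕜] F) * ((u : F →L[𝕜] F) - B)‖ < 1 := by
    calc _ ≤ ‖((u⁻¹ : (F →L[𝕜] F)ˣ) : F →L[𝕜] F)‖ * ‖(u : F →L[𝕜] F) - B‖ := norm_mul_le _ _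
      _ ≤ a⁻¹ * ‖(u : F →L[𝕜] F) - B‖ := by gcongr
      _ < a⁻¹ * a := by
          apply mul_lt_mul_of_pos_left _ (by positivity)
          rw [norm_sub_rev]; exact hBA
      _ = 1 := inv_mul_cancel₀ ha.ne'
  have h3 : B = (u : F →L[𝕜] F) * ((Units.oneSub _ ht : (F →L[𝕜] F)ˣ) : F →L[𝕜] F) := by
    rw [Units.val_oneSub, mul_sub, mul_one, ← mul_assoc, Units.mul_inv, one_mul, sub_sub_cancel]
  rw [h3]
  exact (u.isUnit).mul (Units.isUnit _)

/-- Every scalar of modulus one is an approximate eigenvalue of a non-surjective isometric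
embedding. -/
theorem approx_eigen (W : F →ₗᵢ[𝕜] F) (hW : ¬ Function.Surjective W) (lam : 𝕜)
    (hlam : ‖lam‖ = 1) {ε : ℝ} (hε : 0 < ε) : ∃ z : F, ‖z‖ = 1 ∧ ‖W z - lam • z‖ ≤ ε := by
  by_contra hcon
  push Not at hcon
  have hlow : ∀ x : F, ε * ‖x‖ ≤ ‖W x - lam • x‖ := by
    intro x
    by_cases hx : x = 0
    · simp [hx]
    have hx' : 0 < ‖x‖ := norm_pos_iff.2 hx
    have h1 := hcon (((‖x‖⁻¹ : ℝ) : 𝕜) • x) (by
      rw [norm_smul, RCLike.norm_ofReal, abs_of_nonneg (by positivity)]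
      exact inv_mul_cancel₀ hx'.ne')
    rw [map_smul, smul_comm lam, ← smul_sub, norm_smul, RCLike.norm_ofReal,
      abs_of_nonneg (by positivity), inv_mul_eq_div, lt_div_iff₀ hx'] at h1
    exact h1.le
  let A : ℝ → (F →L[𝕜] F) := fun t =>
    W.toContinuousLinearMap - ((t : 𝕜) * lam) • (1 : F →L[𝕜] F)
  have hA : ∀ t : ℝ, 0 ≤ t → ∀ x, (ε / 2) * ‖x‖ ≤ ‖A t x‖ := by
    intro t ht x
    have e1 : A t x = W x - ((t : 𝕜) * lam) • x := by simp [A]
    have e2 : A t x = (W x - lam • x) - (((t - 1 : ℝ) : 𝕜) * lam) • x := by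
      rw [e1]; push_cast; module
    rcases le_or_gt (ε / 2) |t - 1| with h | h
    · have h1 : |t - 1| * ‖x‖ ≤ ‖A t x‖ := by
        rw [e1]
        have h2 : ‖((t : 𝕜) * lam) • x‖ = t * ‖x‖ := by
          rw [norm_smul, norm_mul, hlam, RCLike.norm_ofReal, abs_of_nonneg ht, mul_one]
        have h3 := abs_norm_sub_norm_le (W x) (((t : 𝕜) * lam) • x)
        rw [h2, W.norm_map] at h3
        have h4 : |‖x‖ - t * ‖x‖| = |t - 1| * ‖x‖ := by
          rw [show ‖x‖ - t * ‖x‖ = -((t - 1) * ‖x‖) by ring, abs_neg, abs_mul, abs_norm]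
        rwa [h4] at h3
      exact (mul_le_mul_of_nonneg_right h (norm_nonneg x)).trans h1
    · rw [e2]
      have h2 : ‖(((t - 1 : ℝ) : 𝕜) * lam) • x‖ = |t - 1| * ‖x‖ := by
        rw [norm_smul, norm_mul, hlam, RCLike.norm_ofReal, mul_one]
      have h3 := norm_sub_norm_le (W x - lam • x) ((((t - 1 : ℝ) : 𝕜) * lam) • x)
      rw [h2] at h3
      have h4 := hlow x
      nlinarith [norm_nonneg x]
  have hA2 : IsUnit (A 2) := by
    have h0 : IsUnit (-(((2 : ℝ) : 𝕜) * lam) • (1 : F →L[𝕜] F)) := by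
      have hne : -(((2 : ℝ) : 𝕜) * lam) ≠ 0 := by
        rw [neg_ne_zero]
        apply mul_ne_zero
        · exact_mod_cast (by norm_num : (2:ℝ) ≠ 0)
        · intro h; rw [h, norm_zero] at hlam; exact zero_ne_one hlam
      exact (Units.mk0 _ hne • (1 : (F →L[𝕜] F)ˣ)).isUnit
    apply isUnit_of_near h0 (a := 2) (by norm_num)
    · intro x
      have : (-(((2 : ℝ) : 𝕜) * lam) • (1 : F →L[𝕜] F)) x = -(((2 : ℝ) : 𝕜) * lam) • x := rfl
      rw [this, norm_smul, norm_neg, norm_mul, hlam, RCLike.norm_ofReal]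
      norm_num
    · have : A 2 - -(((2 : ℝ) : 𝕜) * lam) • (1 : F →L[𝕜] F) = W.toContinuousLinearMap := by
        simp only [A]; module
      rw [this]
      have := W.norm_toContinuousLinearMap_le
      linarith
  obtain ⟨N, hN⟩ := exists_nat_gt (4 / ε)
  have hNpos : (0 : ℝ) < N := lt_trans (by positivity) hN
  have hstep : ∀ k : ℕ, k ≤ N → IsUnit (A (2 - 2 * k / N)) := by
    intro k
    induction k with
    | zero => intro _; simpa using hA2
    | succ k ih =>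
      intro hk
      have ihk := ih (by omega)
      have hk' : ((k : ℝ) + 1) ≤ N := by exact_mod_cast hk
      have ht0 : (0 : ℝ) ≤ 2 - 2 * k / N := by
        have : 2 * (k : ℝ) / N ≤ 2 := by rw [div_le_iff₀ hNpos]; nlinarith
        linarith
      apply isUnit_of_near ihk (a := ε / 2) (by positivity) (hA _ ht0)
      have e : A (2 - 2 * ((k + 1 : ℕ) : ℝ) / N) - A (2 - 2 * k / N)
          = (((2 / N : ℝ) : 𝕜) * lam) • (1 : F →L[𝕜] F) := by
        simp only [A]; push_cast; module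
      rw [e]
      calc ‖(((2 / N : ℝ) : 𝕜) * lam) • (1 : F →L[𝕜] F)‖
          ≤ (2 / N) * ‖(1 : F →L[𝕜] F)‖ := by
            rw [norm_smul, norm_mul, hlam, RCLike.norm_ofReal, abs_of_nonneg (by positivity),
              mul_one]
        _ ≤ (2 / N) * 1 := by gcongr; exact ContinuousLinearMap.norm_id_le
        _ < ε / 2 := by
            rw [mul_one, div_lt_iff₀ hNpos]
            rw [div_lt_iff₀ hε] at hN
            nlinarith
  have h0 := hstep N le_rfl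
  have hz : (2 : ℝ) - 2 * N / N = 0 := by field_simp; norm_num
  rw [hz] at h0
  have hA0 : A 0 = W.toContinuousLinearMap := by simp [A]
  rw [hA0] at h0
  apply hW
  obtain ⟨u, hu⟩ := h0
  intro y
  refine ⟨((u⁻¹ : (F →L[𝕜] F)ˣ) : F →L[𝕜] F) y, ?_⟩
  have h2 : (u : F →L[𝕜] F) (((u⁻¹ : (F →L[𝕜] F)ˣ) : F →L[𝕜] F) y) = y := by
    rw [← mul_apply_eq_comp, Units.mul_inv]; rfl
  rw [hu] at h2
  exact h2

end one

end Pool.Agent.TH319
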