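import Pool.Agent.TH319.Eigen

/-!
Approximate eigenvectors of a non-surjective linear isometric embedding of a complex Banach
space inside the kernel of a (real-)linear map of finite rank.
-/

namespace Pool.Agent.TH319

open Module

/-- The Cayley parametrisation of the circle. -/
noncomputable def cay (t : ℝ) : ℂ := (1 + t * Complex.I) / (1 - t * Complex.I)

theorem cay_den (t : ℝ) : (1 - (t : ℂ) * Complex.I) ≠ 0 := by
  intro h
  have := congrArg Complex.re h
  simp at this

theorem cay_norm (t : ℝ) : ‖cay t‖ = 1 := by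
  unfold cay
  rw [norm_div]
  have : ‖(1 + (t : ℂ) * Complex.I)‖ = ‖(1 - (t : ℂ) * Complex.I)‖ := by
    rw [← Complex.norm_conj (1 + (t : ℂ) * Complex.I)]
    congr 1
    simp [Complex.conj_ofReal]
    ring
  rw [this, div_self]
  exact norm_ne_zero_iff.2 (cay_den t)

theorem cay_sub_one (t : ℝ) : ‖cay t - 1‖ ≤ 2 * |t| := by
  have h : cay t - 1 = 2 * (t : ℂ) * Complex.I / (1 - t * Complex.I) := by
    unfold cay
    rw [div_sub_one (cay_den t)]
    congr 1; ring
  rw [h, norm_div]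
  have h1 : ‖2 * (t : ℂ) * Complex.I‖ = 2 * |t| := by simp
  rw [h1]
  have h2 : 1 ≤ ‖1 - (t : ℂ) * Complex.I‖ := by
    have := Complex.abs_re_le_norm (1 - (t : ℂ) * Complex.I)
    simpa using this
  exact div_le_self (by positivity) h2

theorem cay_injective : Function.Injective cay := by
  intro s t h
  unfold cay at h
  rw [div_eq_div_iff (cay_den s) (cay_den t)] at h
  have := congrArg Complex.im h
  simp at this
  linarith

theorem norm_geom_le {μ : ℂ} (hμ : ‖μ‖ = 1) (hne : μ ≠ 1) (K : ℕ) :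
    ‖∑ k ∈ Finset.range K, μ ^ k‖ ≤ 2 / ‖μ - 1‖ := by
  rw [geom_sum_eq hne, norm_div]
  gcongr
  calc ‖μ ^ K - 1‖ ≤ ‖μ ^ K‖ + ‖(1 : ℂ)‖ := norm_sub_le _ _
    _ = 2 := by rw [norm_pow, hμ]; norm_num

section two
variable {F : Type*} [NormedAddCommGroup F] [NormedSpace ℂ F]

theorem iter_near (W : F →ₗᵢ[ℂ] F) {lam : ℂ} (hlam : ‖lam‖ = 1) {z : F} {δ : ℝ}
    (hz : ‖W z - lam • z‖ ≤ δ) (k : ℕ) : ‖(W : F → F)^[k] z - lam ^ k • z‖ ≤ k * δ := by
  induction k with
  | zero => simp
  | succ k ih =>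
    rw [Function.iterate_succ_apply']
    have h1 : W ((W : F → F)^[k] z) - lam ^ (k + 1) • z
        = W ((W : F → F)^[k] z - lam ^ k • z) + lam ^ k • (W z - lam • z) := by
      rw [map_sub, map_smul, smul_sub, smul_smul, pow_succ]
      abel
    rw [h1]
    calc _ ≤ ‖W ((W : F → F)^[k] z - lam ^ k • z)‖ + ‖lam ^ k • (W z - lam • z)‖ :=
          norm_add_le _ _
      _ ≤ k * δ + δ := by
          rw [W.norm_map, norm_smul, norm_pow, hlam, one_pow, one_mul]
          exact add_le_add ih hz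
      _ = _ := by push_cast; ring

theorem iterate_linear (W : F →ₗᵢ[ℂ] F) (k : ℕ) {ι : Type*} (s : Finset ι) (c : ι → ℝ)
    (z : ι → F) : (W : F → F)^[k] (∑ j ∈ s, c j • z j) = ∑ j ∈ s, c j • (W : F → F)^[k] (z j) := by
  induction k with
  | zero => simp
  | succ k ih =>
    rw [Function.iterate_succ_apply', ih, map_sum]
    apply Finset.sum_congr rfl
    intro j _
    rw [Function.iterate_succ_apply', ← Complex.coe_smul, map_smul, Complex.coe_smul]

theorem norm_iterate (W : F →ₗᵢ[ℂ] F) (k : ℕ) (x : F) : ‖(W : F → F)^[k] x‖ = ‖x‖ := by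
  induction k with
  | zero => simp
  | succ k ih => rw [Function.iterate_succ_apply', W.norm_map, ih]

/-- Approximate eigenvectors in the kernel of a real-linear map of finite rank. -/
theorem approx_eigen_ker [CompleteSpace F] (W : F →ₗᵢ[ℂ] F) (hW : ¬ Function.Surjective W)
    (lam : ℂ) (hlam : ‖lam‖ = 1) {V : Type*} [AddCommGroup V] [Module ℝ V]
    [FiniteDimensional ℝ V] (Ψ : F →ₗ[ℝ] V) {δ : ℝ} (hδ : 0 < δ) :
    ∃ u : F, Ψ u = 0 ∧ ‖u‖ = 1 ∧ ‖W u - lam • u‖ ≤ δ := by
  classical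
  set m : ℕ := finrank ℝ V + 1 with hm
  have hm0 : (0 : ℝ) < m := by rw [hm]; positivity
  -- the points on the circle
  let t : Fin m → ℝ := fun j => δ / (8 * m) * ((j : ℝ) / m)
  let μ : Fin m → ℂ := fun j => cay (t j)
  let l : Fin m → ℂ := fun j => lam * μ j
  have hlam0 : lam ≠ 0 := by intro h; rw [h, norm_zero] at hlam; exact zero_ne_one hlam
  have hl : ∀ j, ‖l j‖ = 1 := fun j => by simp [l, μ, hlam, cay_norm]
  have hlinj : ∀ i j, l i = l j → i = j := by
    intro i j h
    have h1 : μ i = μ j := mul_left_cancel₀ hlam0 h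
    have h2 := cay_injective h1
    simp only [t] at h2
    have h3 : ((i : ℕ) : ℝ) = (j : ℕ) := by
      have hc : δ / (8 * m) ≠ 0 := by positivity
      have := mul_left_cancel₀ hc h2
      field_simp at this
      exact this
    exact Fin.ext (by exact_mod_cast h3)
  have hlclose : ∀ j, ‖l j - lam‖ ≤ δ / (4 * m) := by
    intro j
    have h1 : l j - lam = lam * (μ j - 1) := by simp only [l]; ring
    rw [h1, norm_mul, hlam, one_mul]
    refine (cay_sub_one _).trans ?_
    have hj : (j : ℝ) / m ≤ 1 := by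
      rw [div_le_one hm0]; exact_mod_cast j.2.le
    have hj0 : 0 ≤ (j : ℝ) / m := by positivity
    have ht0 : 0 ≤ t j := by simp only [t]; positivity
    rw [abs_of_nonneg ht0]
    simp only [t]
    calc 2 * (δ / (8 * m) * ((j : ℝ) / m)) ≤ 2 * (δ / (8 * m) * 1) := by gcongr
      _ = δ / (4 * m) := by ring
  -- the constant controlling geometric sums
  let C : ℝ := ∑ i : Fin m, ∑ j : Fin m, 2 / ‖(l i)⁻¹ * l j - 1‖
  have hC0 : 0 ≤ C := Finset.sum_nonneg fun i _ => Finset.sum_nonneg fun j _ => by positivity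
  have hC : ∀ i j : Fin m, i ≠ j → ∀ K : ℕ,
      ‖∑ k ∈ Finset.range K, ((l i)⁻¹ * l j) ^ k‖ ≤ C := by
    intro i j hij K
    have hli : l i ≠ 0 := by intro h; have := hl i; rw [h, norm_zero] at this; norm_num at this
    have h1 : (l i)⁻¹ * l j ≠ 1 := by
      intro h
      rw [inv_mul_eq_one₀ hli] at h
      exact hij (hlinj i j h)
    have h2 : ‖(l i)⁻¹ * l j‖ = 1 := by rw [norm_mul, norm_inv, hl, hl]; norm_num
    refine (norm_geom_le h2 h1 K).trans ?_
    calc 2 / ‖(l i)⁻¹ * l j - 1‖ ≤ ∑ j : Fin m, 2 / ‖(l i)⁻¹ * l j - 1‖ :=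
          Finset.single_le_sum (f := fun j => 2 / ‖(l i)⁻¹ * l j - 1‖)
            (fun j _ => by positivity) (Finset.mem_univ j)
      _ ≤ C := Finset.single_le_sum (f := fun i => ∑ j : Fin m, 2 / ‖(l i)⁻¹ * l j - 1‖)
            (fun i _ => Finset.sum_nonneg fun j _ => by positivity) (Finset.mem_univ i)
  obtain ⟨K, hK⟩ := exists_nat_gt (4 * m * C)
  have hKpos : (0 : ℝ) < K := lt_of_le_of_lt (by positivity) hK
  -- choose approximate eigenvectors
  set δ0 : ℝ := min (1 / (4 * m * K)) (δ / (4 * m)) with hδ0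
  have hδ0pos : 0 < δ0 := by rw [hδ0]; positivity
  choose z hz1 hz2 using fun j : Fin m => approx_eigen W hW (l j) (hl j) hδ0pos
  -- the linear relation
  have hdep : ¬ LinearIndependent ℝ (fun j : Fin m => Ψ (z j)) := by
    intro h
    have := h.fintype_card_le_finrank
    rw [Fintype.card_fin] at this
    omega
  obtain ⟨c, hc0, j1, hj1⟩ := Fintype.not_linearIndependent_iff.1 hdep
  obtain ⟨j0, -, hj0⟩ := Finset.exists_max_image Finset.univ (fun j => |c j|) ⟨j1, Finset.mem_univ _⟩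
  set b := |c j0| with hb
  have hbpos : 0 < b := lt_of_lt_of_le (abs_pos.2 hj1) (hj0 j1 (Finset.mem_univ _))
  have hcb : ∀ j, |c j| ≤ b := fun j => hj0 j (Finset.mem_univ _)
  set u0 := ∑ j, c j • z j with hu0
  -- averaging
  let E : F → F := fun x => ((K : ℂ)⁻¹) • ∑ k ∈ Finset.range K, ((l j0)⁻¹) ^ k • (W : F → F)^[k] x
  have hEnorm : ‖E u0‖ ≤ ‖u0‖ := by
    simp only [E]
    rw [norm_smul, norm_inv]
    have h1 : ‖∑ k ∈ Finset.range K, ((l j0)⁻¹) ^ k • (W : F → F)^[k] u0‖ ≤ K * ‖u0‖ := by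
      refine (norm_sum_le _ _).trans ?_
      have : ∀ k ∈ Finset.range K, ‖((l j0)⁻¹) ^ k • (W : F → F)^[k] u0‖ = ‖u0‖ := by
        intro k _
        rw [norm_smul, norm_pow, norm_inv, hl, norm_iterate]; norm_num
      rw [Finset.sum_congr rfl this]; simp
    have h2 : ‖(K : ℂ)‖ = K := by simp
    rw [h2, inv_mul_le_iff₀ hKpos]
    exact h1
  let ν : Fin m → ℂ := fun j => (K : ℂ)⁻¹ * ∑ k ∈ Finset.range K, ((l j0)⁻¹ * l j) ^ k
  have hν0 : ν j0 = 1 := by
    have hli : l j0 ≠ 0 := by intro h; have := hl j0; rw [h, norm_zero] at this; norm_num at this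
    simp only [ν]
    rw [inv_mul_cancel₀ hli]
    have : (K : ℂ) ≠ 0 := by exact_mod_cast hKpos.ne'
    simp [this]
  have hν : ∀ j, j ≠ j0 → ‖ν j‖ ≤ 1 / (4 * m) := by
    intro j hj
    simp only [ν]
    rw [norm_mul, norm_inv]
    have h2 : ‖(K : ℂ)‖ = K := by simp
    rw [h2, inv_mul_le_iff₀ hKpos]
    refine (hC j0 j (Ne.symm hj) K).trans ?_
    rw [mul_one_div, le_div_iff₀ (by positivity)]
    linarith
  have hEz : ∀ j, ‖E (z j) - ν j • z j‖ ≤ 1 / (4 * m) := by
    intro j
    have h1 : E (z j) - ν j • z j = (K : ℂ)⁻¹ • ∑ k ∈ Finset.range K,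
        ((l j0)⁻¹) ^ k • ((W : F → F)^[k] (z j) - (l j) ^ k • z j) := by
      simp only [E, ν]
      rw [mul_smul, ← smul_sub, Finset.sum_smul, ← Finset.sum_sub_distrib]
      congr 1
      apply Finset.sum_congr rfl
      intro k _
      rw [smul_sub, smul_smul, mul_pow]
    rw [h1, norm_smul, norm_inv]
    have h2 : ‖(K : ℂ)‖ = K := by simp
    rw [h2, inv_mul_le_iff₀ hKpos]
    refine (norm_sum_le _ _).trans ?_
    have h3 : ∀ k ∈ Finset.range K,
        ‖((l j0)⁻¹) ^ k • ((W : F → F)^[k] (z j) - (l j) ^ k • z j)‖ ≤ 1 / (4 * m) := by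
      intro k hk
      rw [norm_smul, norm_pow, norm_inv, hl, inv_one, one_pow, one_mul]
      refine (iter_near W (hl j) (hz2 j) k).trans ?_
      have hkK : (k : ℝ) ≤ K := by exact_mod_cast (Finset.mem_range.1 hk).le
      calc (k : ℝ) * δ0 ≤ K * (1 / (4 * m * K)) := by
            gcongr
            rw [hδ0]; exact min_le_left _ _
        _ = 1 / (4 * m) := by field_simp
    calc _ ≤ ∑ k ∈ Finset.range K, 1 / (4 * (m : ℝ)) := Finset.sum_le_sum h3
      _ = K * (1 / (4 * m)) := by simp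
  have hEsum : E u0 = ∑ j, c j • E (z j) := by
    simp only [E]
    have h1 : ∀ k, ((l j0)⁻¹) ^ k • (W : F → F)^[k] u0
        = ∑ j, c j • (((l j0)⁻¹) ^ k • (W : F → F)^[k] (z j)) := by
      intro k
      rw [hu0, iterate_linear, Finset.smul_sum]
      apply Finset.sum_congr rfl
      intro j _
      rw [smul_comm]
    simp_rw [h1]
    rw [Finset.sum_comm, Finset.smul_sum]
    apply Finset.sum_congr rfl
    intro j _
    rw [← Finset.smul_sum, smul_comm]
  have hkey : b / 2 ≤ ‖u0‖ := by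
    refine le_trans ?_ hEnorm
    have h1 : E u0 = c j0 • z j0 + (∑ j ∈ Finset.univ.erase j0, c j • (ν j • z j)
        + ∑ j, c j • (E (z j) - ν j • z j)) := by
      rw [hEsum]
      have h2 : ∑ j, c j • (E (z j) - ν j • z j) = ∑ j, c j • E (z j) - ∑ j, c j • (ν j • z j) := by
        rw [← Finset.sum_sub_distrib]
        exact Finset.sum_congr rfl fun j _ => smul_sub _ _ _
      have h3 : ∑ j, c j • (ν j • z j) = c j0 • z j0
          + ∑ j ∈ Finset.univ.erase j0, c j • (ν j • z j) := by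
        rw [← Finset.add_sum_erase _ _ (Finset.mem_univ j0), hν0, one_smul]
      rw [h2, h3]; abel
    have h4 : ‖c j0 • z j0‖ = b := by rw [norm_smul, hz1, mul_one, Real.norm_eq_abs]
    have h5 : ‖∑ j ∈ Finset.univ.erase j0, c j • (ν j • z j)‖ ≤ b / 4 := by
      refine (norm_sum_le _ _).trans ?_
      calc ∑ j ∈ Finset.univ.erase j0, ‖c j • (ν j • z j)‖
          ≤ ∑ j ∈ Finset.univ.erase j0, b * (1 / (4 * m)) := by
            apply Finset.sum_le_sum
            intro j hj
            rw [norm_smul, norm_smul, hz1, mul_one, Real.norm_eq_abs]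
            exact mul_le_mul (hcb j) (hν j (Finset.ne_of_mem_erase hj)) (norm_nonneg _) hbpos.le
        _ ≤ ∑ j : Fin m, b * (1 / (4 * m)) :=
            Finset.sum_le_sum_of_subset_of_nonneg (Finset.erase_subset _ _)
              (fun _ _ _ => by positivity)
        _ = b / 4 := by simp; field_simp
    have h6 : ‖∑ j, c j • (E (z j) - ν j • z j)‖ ≤ b / 4 := by
      refine (norm_sum_le _ _).trans ?_
      calc ∑ j, ‖c j • (E (z j) - ν j • z j)‖
          ≤ ∑ j : Fin m, b * (1 / (4 * m)) := by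
            apply Finset.sum_le_sum
            intro j hj
            rw [norm_smul, Real.norm_eq_abs]
            exact mul_le_mul (hcb j) (hEz j) (norm_nonneg _) hbpos.le
        _ = b / 4 := by simp; field_simp
    rw [h1]
    have h7 := norm_sub_norm_le (c j0 • z j0) (-(∑ j ∈ Finset.univ.erase j0, c j • (ν j • z j)
        + ∑ j, c j • (E (z j) - ν j • z j)))
    rw [sub_neg_eq_add, norm_neg] at h7
    have h8 := norm_add_le (∑ j ∈ Finset.univ.erase j0, c j • (ν j • z j))
      (∑ j, c j • (E (z j) - ν j • z j))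
    linarith
  have hu0pos : 0 < ‖u0‖ := lt_of_lt_of_le (by positivity) hkey
  have herr : ‖W u0 - lam • u0‖ ≤ b * (δ / 2) := by
    have h1 : W u0 - lam • u0 = ∑ j, c j • (W (z j) - lam • z j) := by
      have h2 := iterate_linear W 1 Finset.univ c z
      simp only [Function.iterate_one] at h2
      rw [hu0, h2, Finset.smul_sum, ← Finset.sum_sub_distrib]
      apply Finset.sum_congr rfl
      intro j _
      rw [smul_sub, smul_comm lam]
    rw [h1]
    refine (norm_sum_le _ _).trans ?_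
    calc ∑ j, ‖c j • (W (z j) - lam • z j)‖ ≤ ∑ j : Fin m, b * (δ / (2 * m)) := by
          apply Finset.sum_le_sum
          intro j _
          rw [norm_smul, Real.norm_eq_abs]
          refine mul_le_mul (hcb j) ?_ (norm_nonneg _) hbpos.le
          have h2 : W (z j) - lam • z j = (W (z j) - l j • z j) + (l j - lam) • z j := by
            rw [sub_smul]; abel
          rw [h2]
          calc _ ≤ ‖W (z j) - l j • z j‖ + ‖(l j - lam) • z j‖ := norm_add_le _ _
            _ ≤ δ / (4 * m) + δ / (4 * m) := by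
                rw [norm_smul, hz1, mul_one]
                exact add_le_add ((hz2 j).trans (min_le_right _ _)) (hlclose j)
            _ = δ / (2 * m) := by ring
      _ = b * (δ / 2) := by simp; field_simp
  refine ⟨(‖u0‖⁻¹ : ℝ) • u0, ?_, ?_, ?_⟩
  · rw [map_smul, hu0, map_sum]
    have : ∑ j, Ψ (c j • z j) = 0 := by
      rw [← hc0]; exact Finset.sum_congr rfl fun j _ => by rw [map_smul]
    rw [this, smul_zero]
  · rw [norm_smul, norm_inv, norm_norm]
    exact inv_mul_cancel₀ hu0pos.ne'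
  · have h1 : W ((‖u0‖⁻¹ : ℝ) • u0) - lam • ((‖u0‖⁻¹ : ℝ) • u0)
        = (‖u0‖⁻¹ : ℝ) • (W u0 - lam • u0) := by
      have e : ∀ x : F, (‖u0‖⁻¹ : ℝ) • x = ((‖u0‖⁻¹ : ℝ) : ℂ) • x :=
        fun x => (Complex.coe_smul _ x).symm
      rw [e, e, map_smul, smul_comm lam, smul_sub]
    rw [h1, norm_smul, norm_inv, norm_norm, inv_mul_le_iff₀ hu0pos]
    calc _ ≤ b * (δ / 2) := herr
      _ = (b / 2) * δ := by ring
      _ ≤ ‖u0‖ * δ := by gcongr

end two

end Pool.Agent.TH319
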