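import Pool.Agent.TH319.Basic

/-!
A separable infinite-dimensional Banach space satisfying the parallelogram identity is
isometric to the space of square-summable sequences.
-/

namespace Pool.Agent.TH319

open Module

section hilbert
variable {𝕜 : Type*} [RCLike 𝕜] {E : Type*} [NormedAddCommGroup E] [InnerProductSpace 𝕜 E]
  [CompleteSpace E]

theorem countable_of_orthonormal [TopologicalSpace.SeparableSpace E] {ι : Type*} {v : ι → E}
    (hv : Orthonormal 𝕜 v) : Countable ι := by
  classical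
  by_contra hunc
  have : Uncountable ι := ⟨hunc⟩
  have : Nonempty E := ⟨0⟩
  have hd : ∀ i, ∃ n : ℕ, dist (v i) (TopologicalSpace.denseSeq E n) < 1 / 2 := by
    intro t
    obtain ⟨y, hy, hd⟩ := Metric.dense_iff.1 (TopologicalSpace.denseRange_denseSeq E) (v t)
      (1 / 2) (by norm_num)
    obtain ⟨n, rfl⟩ := hd
    exact ⟨n, by rw [dist_comm]; exact hy⟩
  choose n hn using hd
  have hni : ¬ Function.Injective n := not_injective_uncountable_countable n
  rw [Function.not_injective_iff] at hni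
  obtain ⟨s, t, hst, hne⟩ := hni
  have h1 := hn s
  have h2 := hn t
  rw [← hst] at h2
  have h3 : dist (v s) (v t) < 1 := by
    calc _ ≤ _ := dist_triangle_right _ _ (TopologicalSpace.denseSeq E (n s))
      _ < 1 := by linarith
  have h4 : ‖v s - v t‖ * ‖v s - v t‖ = 2 := by
    have h5 := norm_sub_mul_self (𝕜 := 𝕜) (v s) (v t)
    rw [h5, hv.1 s, hv.1 t, hv.2 hne]
    simp; norm_num
  rw [dist_eq_norm] at h3
  nlinarith [norm_nonneg (v s - v t)]

theorem l2_of_hilbert [TopologicalSpace.SeparableSpace E] (hinf : ¬ FiniteDimensional 𝕜 E) :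
    Nonempty (E ≃ₗᵢ[𝕜] lp (fun _ : ℕ => 𝕜) 2) := by
  obtain ⟨w, b, hb⟩ := exists_hilbertBasis 𝕜 E
  have hcount : Countable w := countable_of_orthonormal b.orthonormal
  have hinfw : Infinite w := by
    by_contra hfin
    rw [not_infinite_iff_finite] at hfin
    apply hinf
    have := Fintype.ofFinite w
    exact b.toOrthonormalBasis.toBasis.finiteDimensional_of_finite
  obtain ⟨e⟩ := nonempty_denumerable w
  let eq : w ≃ ℕ := e.eqv
  have ho : Orthonormal 𝕜 (fun n => b (eq.symm n)) := b.orthonormal.comp _ eq.symm.injective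
  have hr : Set.range (fun n => b (eq.symm n)) = Set.range b := by
    exact eq.symm.surjective.range_comp b
  have hb2 : HilbertBasis ℕ 𝕜 E := HilbertBasis.mk ho (by
    rw [hr]; exact b.dense_span.ge)
  exact ⟨hb2.repr⟩

end hilbert

theorem l2_of_parallelogram {𝕜 : Type*} [RCLike 𝕜] {X : Type*} [NormedAddCommGroup X]
    [NormedSpace 𝕜 X] [CompleteSpace X] [TopologicalSpace.SeparableSpace X]
    (hinf : ¬ FiniteDimensional 𝕜 X)
    (h : ∀ x y : X, ‖x + y‖ * ‖x + y‖ + ‖x - y‖ * ‖x - y‖ = 2 * (‖x‖ * ‖x‖ + ‖y‖ * ‖y‖)) :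
    Nonempty (X ≃ₗᵢ[𝕜] lp (fun _ : ℕ => 𝕜) 2) := by
  letI : InnerProductSpace 𝕜 X := InnerProductSpace.ofNorm 𝕜 h
  exact l2_of_hilbert hinf

end Pool.Agent.TH319
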