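import Pool.Agent.TH319.Planes

/-!
Elementary properties of almost unitarily invariant pairs.
-/

namespace Pool.Agent.TH319

open Module Filter Topology

universe u

section
variable {Y : Type*} [NormedAddCommGroup Y] [NormedSpace ℂ Y]

theorem NU.indep {δ : ℝ} {u v : Y} {S : Submodule ℂ Y} (h : NU δ u v S) (hu : u ≠ 0) {α β : ℂ}
    {k : Y} (hk : k ∈ S) (h0 : α • u + β • v + k = 0) : α = 0 ∧ β = 0 := by
  have h1 := (h α β k hk).2
  rw [h0, norm_zero, mul_zero] at h1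
  have h1' := norm_le_zero_iff.1 h1
  have h2 := (h (-α) (-β) k hk).1
  rw [norm_neg, norm_neg, h1', norm_zero, mul_zero] at h2
  have h2' := norm_le_zero_iff.1 h2
  have hk0 : k = 0 := by
    have : (2 : ℂ) • k = (α • u + β • v + k) + ((-α) • u + (-β) • v + k) := by module
    rw [h0, h2', add_zero] at this
    rcases smul_eq_zero.1 this with h3 | h3
    · norm_num at h3
    · exact h3
  rw [hk0, add_zero] at h1'
  rcases smul_eq_zero.1 h1' with h3 | h3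
  · have h4 : Real.sqrt (‖α‖ ^ 2 + ‖β‖ ^ 2) = 0 := by exact_mod_cast h3
    rw [Real.sqrt_eq_zero (by positivity)] at h4
    have h5 : ‖α‖ ^ 2 = 0 := by nlinarith [sq_nonneg ‖α‖, sq_nonneg ‖β‖]
    have h6 : ‖β‖ ^ 2 = 0 := by nlinarith [sq_nonneg ‖α‖, sq_nonneg ‖β‖]
    exact ⟨norm_eq_zero.1 (pow_eq_zero_iff (by norm_num) |>.1 h5),
      norm_eq_zero.1 (pow_eq_zero_iff (by norm_num) |>.1 h6)⟩
  · exact absurd h3 hu

theorem NU.swap {δ : ℝ} (hδ : 0 ≤ δ) {u v : Y} {S : Submodule ℂ Y} (h : NU δ u v S) :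
    NU ((1 + δ) ^ 2 - 1) v u S := by
  intro α β k hk
  set r : ℝ := Real.sqrt (‖α‖ ^ 2 + ‖β‖ ^ 2) with hr
  have hr0 : 0 ≤ r := Real.sqrt_nonneg _
  have h1 := h β α k hk
  have e1 : Real.sqrt (‖β‖ ^ 2 + ‖α‖ ^ 2) = r := by rw [hr, add_comm]
  rw [e1, add_comm (β • u) (α • v)] at h1
  have h2 := h 0 (r : ℂ) k hk
  have e2 : Real.sqrt (‖(0 : ℂ)‖ ^ 2 + ‖(r : ℂ)‖ ^ 2) = r := by
    rw [norm_zero, Complex.norm_real, Real.norm_eq_abs, sq_abs]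
    rw [zero_pow (by norm_num), zero_add, Real.sqrt_sq hr0]
  rw [e2, zero_smul, zero_add] at h2
  constructor
  · calc _ ≤ (1 + δ) * ‖(r : ℂ) • u + k‖ := h1.1
      _ ≤ (1 + δ) * ((1 + δ) * ‖(r : ℂ) • v + k‖) := by gcongr; exact h2.2
      _ = _ := by ring
  · calc _ ≤ (1 + δ) * ‖(r : ℂ) • u + k‖ := h2.1
      _ ≤ (1 + δ) * ((1 + δ) * ‖α • v + β • u + k‖) := by gcongr; exact h1.2
      _ = _ := by ring

theorem NU.pos_smul {δ : ℝ} {u v : Y} {S : Submodule ℂ Y} (h : NU δ u v S) {c : ℝ}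
    (hc : 0 ≤ c) : NU δ ((c : ℂ) • u) ((c : ℂ) • v) S := by
  intro α β k hk
  have h1 := h (α * c) (β * c) k hk
  have e1 : Real.sqrt (‖α * c‖ ^ 2 + ‖β * c‖ ^ 2) = Real.sqrt (‖α‖ ^ 2 + ‖β‖ ^ 2) * c := by
    rw [norm_mul, norm_mul, Complex.norm_real, Real.norm_eq_abs, abs_of_nonneg hc, mul_pow,
      mul_pow, ← add_mul, Real.sqrt_mul (by positivity), Real.sqrt_sq hc]
  rw [e1] at h1
  rw [smul_smul, smul_smul, smul_smul]
  push_cast at h1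
  exact h1

/-- The phase property of the first vector. -/
theorem NU.phase1 {δ : ℝ} (hδ : 0 ≤ δ) {u v : Y} {S : Submodule ℂ Y} (h : NU δ u v S)
    {ζ : ℂ} (hζ : ‖ζ‖ = 1) (α β : ℂ) {k : Y} (hk : k ∈ S) :
    ‖(ζ * α) • u + β • v + k‖ ≤ (1 + ((1 + δ) ^ 2 - 1)) * ‖α • u + β • v + k‖ := by
  have h1 := (h (ζ * α) β k hk).1
  have h2 := (h α β k hk).2
  rw [norm_mul, hζ, one_mul] at h1
  calc _ ≤ (1 + δ) * ‖((Real.sqrt (‖α‖ ^ 2 + ‖β‖ ^ 2) : ℝ) : ℂ) • u + k‖ := h1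
    _ ≤ (1 + δ) * ((1 + δ) * ‖α • u + β • v + k‖) := by gcongr
    _ = _ := by ring

theorem NU.phase2 {δ : ℝ} (hδ : 0 ≤ δ) {u v : Y} {S : Submodule ℂ Y} (h : NU δ u v S)
    {ζ : ℂ} (hζ : ‖ζ‖ = 1) (α β : ℂ) {k : Y} (hk : k ∈ S) :
    ‖α • u + (ζ * β) • v + k‖ ≤ (1 + ((1 + δ) ^ 2 - 1)) * ‖α • u + β • v + k‖ := by
  have h1 := (h α (ζ * β) k hk).1
  have h2 := (h α β k hk).2
  rw [norm_mul ζ β, hζ, one_mul] at h1
  calc _ ≤ (1 + δ) * ‖((Real.sqrt (‖α‖ ^ 2 + ‖β‖ ^ 2) : ℝ) : ℂ) • u + k‖ := h1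
    _ ≤ (1 + δ) * ((1 + δ) * ‖α • u + β • v + k‖) := by gcongr
    _ = _ := by ring

theorem biorth_decomp {u v : Y} {φu φv : Y →ₗ[ℂ] ℂ} (h1 : φu u = 1) (h2 : φu v = 0)
    (h3 : φv u = 0) (h4 : φv v = 1) (y : Y) :
    y = φu y • u + φv y • v + (y - φu y • u - φv y • v) ∧
      (y - φu y • u - φv y • v) ∈ LinearMap.ker φu ⊓ LinearMap.ker φv := by
  refine ⟨by abel, ?_, ?_⟩
  · show φu (y - φu y • u - φv y • v) = 0
    simp [h1, h2]
  · show φv (y - φu y • u - φv y • v) = 0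
    simp [h3, h4]

theorem NU.np_fst {δ : ℝ} (hδ : 0 ≤ δ) {u v : Y} {φu φv : Y →ₗ[ℂ] ℂ} (h1 : φu u = 1)
    (h2 : φu v = 0) (h3 : φv u = 0) (h4 : φv v = 1)
    (h : NU δ u v (LinearMap.ker φu ⊓ LinearMap.ker φv)) :
    NP ((1 + δ) ^ 2 - 1) (φu.smulRight u) := by
  constructor
  · intro y
    simp only [LinearMap.smulRight_apply, map_smul, h1, one_smul]
  · intro ζ hζ y
    obtain ⟨hy, hk⟩ := biorth_decomp h1 h2 h3 h4 y
    set k := y - φu y • u - φv y • v with hkdef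
    have h5 := h.phase1 hδ hζ (φu y) (φv y) hk
    have e1 : (ζ * φu y) • u + φv y • v + k = y + (ζ - 1) • (φu.smulRight u) y := by
      rw [LinearMap.smulRight_apply, hkdef]; module
    rw [e1, ← hy] at h5
    exact h5

theorem NU.np_snd {δ : ℝ} (hδ : 0 ≤ δ) {u v : Y} {φu φv : Y →ₗ[ℂ] ℂ} (h1 : φu u = 1)
    (h2 : φu v = 0) (h3 : φv u = 0) (h4 : φv v = 1)
    (h : NU δ u v (LinearMap.ker φu ⊓ LinearMap.ker φv)) :
    NP ((1 + δ) ^ 2 - 1) (φv.smulRight v) := by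
  constructor
  · intro y
    simp only [LinearMap.smulRight_apply, map_smul, h4, one_smul]
  · intro ζ hζ y
    obtain ⟨hy, hk⟩ := biorth_decomp h1 h2 h3 h4 y
    set k := y - φu y • u - φv y • v with hkdef
    have h5 := h.phase2 hδ hζ (φu y) (φv y) hk
    have e1 : φu y • u + (ζ * φv y) • v + k = y + (ζ - 1) • (φv.smulRight v) y := by
      rw [LinearMap.smulRight_apply, hkdef]; module
    rw [e1, ← hy] at h5
    exact h5

/-- Transport of a pair from a subspace to the whole space. -/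
theorem NU.toSup {X : Type*} [NormedAddCommGroup X] [NormedSpace ℂ X] {Z : Submodule ℂ X}
    {δ : ℝ} {u v : Z} {S : Submodule ℂ Z} (h : NU δ u v S) :
    NU δ (u : X) (v : X) (S.map Z.subtype) := by
  rintro α β _ ⟨k, hk, rfl⟩
  exact h α β k hk

/-- In a finite-dimensional space containing the pair, the pair and the common kernel span. -/
theorem NU.decomp {δ : ℝ} {u v : Y} {φu φv : Y →ₗ[ℂ] ℂ} {E : Submodule ℂ Y} (hu0 : u ≠ 0)
    (hu : u ∈ E) (hv : v ∈ E) (h : NU δ u v (E ⊓ LinearMap.ker φu ⊓ LinearMap.ker φv)) :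
    ∀ x ∈ E, ∃ α β : ℂ, ∃ x₀ ∈ E ⊓ LinearMap.ker φu ⊓ LinearMap.ker φv,
      x = α • u + β • v + x₀ := by
  let T : ℂ × ℂ →ₗ[ℂ] ℂ × ℂ :=
    { toFun := fun p => (φu (p.1 • u + p.2 • v), φv (p.1 • u + p.2 • v))
      map_add' := by
        intro p q
        simp only [Prod.fst_add, Prod.snd_add, add_smul, map_add, Prod.mk_add_mk]
        congr 1 <;> abel
      map_smul' := by
        intro c p
        simp only [Prod.smul_fst, Prod.smul_snd, smul_eq_mul, RingHom.id_apply, map_add,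
          map_smul, Prod.smul_mk]
        congr 1 <;> ring }
  have hT : ∀ p, T p = (φu (p.1 • u + p.2 • v), φv (p.1 • u + p.2 • v)) := fun _ => rfl
  have hinj : Function.Injective T := by
    rw [← LinearMap.ker_eq_bot, LinearMap.ker_eq_bot']
    intro p hp
    rw [hT, Prod.mk_eq_zero] at hp
    have hk : -(p.1 • u + p.2 • v) ∈ E ⊓ LinearMap.ker φu ⊓ LinearMap.ker φv := by
      apply Submodule.neg_mem
      exact ⟨⟨E.add_mem (E.smul_mem _ hu) (E.smul_mem _ hv), hp.1⟩, hp.2⟩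
    obtain ⟨h1, h2⟩ := h.indep hu0 hk (add_neg_cancel _)
    exact Prod.ext h1 h2
  have hsurj : Function.Surjective T := LinearMap.injective_iff_surjective.1 hinj
  intro x hx
  obtain ⟨p, hp⟩ := hsurj (φu x, φv x)
  rw [hT, Prod.mk.injEq] at hp
  refine ⟨p.1, p.2, x - (p.1 • u + p.2 • v), ⟨⟨?_, ?_⟩, ?_⟩, by abel⟩
  · exact E.sub_mem hx (E.add_mem (E.smul_mem _ hu) (E.smul_mem _ hv))
  · show φu (x - (p.1 • u + p.2 • v)) = 0
    rw [map_sub, hp.1, sub_self]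
  · show φv (x - (p.1 • u + p.2 • v)) = 0
    rw [map_sub, hp.2, sub_self]

/-- Extending a pair relative to a smaller finite-dimensional space to the larger one using
another pair. -/
theorem NU.extend {δ₁ δ₂ : ℝ} (hδ₁ : 0 ≤ δ₁) (hδ₂ : 0 ≤ δ₂) {u v a b : Y}
    {E E₀ M₀ K' : Submodule ℂ Y} (hE : ∀ x ∈ E, ∃ α β : ℂ, ∃ x₀ ∈ E₀, x = α • u + β • v + x₀)
    (h1 : NU δ₁ u v (E₀ ⊔ M₀)) (ha : a ∈ M₀) (hb : b ∈ M₀) (hK' : K' ≤ M₀)
    (h2 : NU δ₂ a b (Submodule.span ℂ {u} ⊔ E₀ ⊔ K')) :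
    NU ((1 + δ₁) * (1 + δ₁) * (1 + δ₂) - 1) a b (E ⊔ K') := by
  intro s t y hy
  obtain ⟨x, hx, k, hk, rfl⟩ := Submodule.mem_sup.1 hy
  obtain ⟨α, β, x₀, hx₀, rfl⟩ := hE x hx
  set r : ℝ := Real.sqrt (‖α‖ ^ 2 + ‖β‖ ^ 2) with hr
  set ρ : ℝ := Real.sqrt (‖s‖ ^ 2 + ‖t‖ ^ 2) with hρ
  have hm1 : x₀ + (s • a + t • b + k) ∈ E₀ ⊔ M₀ := Submodule.add_mem_sup hx₀
    (M₀.add_mem (M₀.add_mem (M₀.smul_mem _ ha) (M₀.smul_mem _ hb)) (hK' hk))
  have hm2 : x₀ + ((ρ : ℂ) • a + k) ∈ E₀ ⊔ M₀ := Submodule.add_mem_sup hx₀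
    (M₀.add_mem (M₀.smul_mem _ ha) (hK' hk))
  have hm3 : (r : ℂ) • u + x₀ + k ∈ Submodule.span ℂ {u} ⊔ E₀ ⊔ K' :=
    Submodule.add_mem_sup (Submodule.add_mem_sup
      (Submodule.smul_mem _ _ (Submodule.mem_span_singleton_self u)) hx₀) hk
  have g1 := h1 α β _ hm1
  have g2 := h1 α β _ hm2
  have g3 := h2 s t _ hm3
  rw [← hr] at g1 g2
  rw [← hρ] at g3
  have e1 : s • a + t • b + (α • u + β • v + x₀ + k)
      = α • u + β • v + (x₀ + (s • a + t • b + k)) := by abel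
  have e2 : (r : ℂ) • u + (x₀ + (s • a + t • b + k))
      = s • a + t • b + ((r : ℂ) • u + x₀ + k) := by abel
  have e3 : (r : ℂ) • u + (x₀ + ((ρ : ℂ) • a + k)) = (ρ : ℂ) • a + ((r : ℂ) • u + x₀ + k) := by
    abel
  have e4 : (ρ : ℂ) • a + (α • u + β • v + x₀ + k)
      = α • u + β • v + (x₀ + ((ρ : ℂ) • a + k)) := by abel
  rw [e2] at g1
  rw [e3] at g2
  rw [e1, e4]
  constructor
  · calc _ ≤ (1 + δ₁) * ‖s • a + t • b + ((r : ℂ) • u + x₀ + k)‖ := g1.1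
      _ ≤ (1 + δ₁) * ((1 + δ₂) * ‖(ρ : ℂ) • a + ((r : ℂ) • u + x₀ + k)‖) := by
          gcongr; exact g3.1
      _ ≤ (1 + δ₁) * ((1 + δ₂) * ((1 + δ₁) * ‖α • u + β • v + (x₀ + ((ρ : ℂ) • a + k))‖)) := by
          gcongr; exact g2.2
      _ = _ := by ring
  · calc _ ≤ (1 + δ₁) * ‖(ρ : ℂ) • a + ((r : ℂ) • u + x₀ + k)‖ := g2.1
      _ ≤ (1 + δ₁) * ((1 + δ₂) * ‖s • a + t • b + ((r : ℂ) • u + x₀ + k)‖) := by
          gcongr; exact g3.2
      _ ≤ (1 + δ₁) * ((1 + δ₂) * ((1 + δ₁) *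
            ‖α • u + β • v + (x₀ + (s • a + t • b + k))‖)) := by
          gcongr; exact g1.2
      _ = _ := by ring

/-- The projection onto a block along an almost isometric complement. -/
theorem exists_NP_of_Ph {X : Type*} [NormedAddCommGroup X] [NormedSpace ℂ X] {ε : ℝ}
    {G M : Submodule ℂ X} (hPh : Ph ε G M) :
    ∃ P : (G ⊔ M : Submodule ℂ X) →ₗ[ℂ] (G ⊔ M : Submodule ℂ X), NP ε P ∧
      (∀ y : (G ⊔ M : Submodule ℂ X), (y : X) ∈ G → P y = y) ∧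
      (∀ y : (G ⊔ M : Submodule ℂ X), (y : X) ∈ M → P y = 0) ∧
      (∀ y, ((P y : (G ⊔ M : Submodule ℂ X)) : X) ∈ G) ∧ (∀ y, P y = 0 → (y : X) ∈ M) := by
  set Y := G ⊔ M with hYdef
  have hGY : G ≤ Y := le_sup_left
  have hMY : M ≤ Y := le_sup_right
  have hdisj : ∀ x ∈ G, x ∈ M → x = 0 := by
    intro x hx1 hx2
    have h1 := hPh (-1) (by simp) x hx1 (-x) (M.neg_mem hx2)
    rw [neg_one_smul, neg_neg, add_neg_cancel, norm_zero, mul_zero, ← two_smul ℂ, norm_smul,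
      Complex.norm_ofNat] at h1
    exact norm_le_zero_iff.1 (by linarith)
  let G' : Submodule ℂ Y := G.comap Y.subtype
  let M' : Submodule ℂ Y := M.comap Y.subtype
  have hcompl : IsCompl G' M' := by
    constructor
    · rw [Submodule.disjoint_def]
      intro x hx1 hx2
      exact Subtype.ext (hdisj x hx1 hx2)
    · rw [codisjoint_iff]
      rw [eq_top_iff]
      intro y _
      obtain ⟨g, hg, m, hm, hgm⟩ := Submodule.mem_sup.1 y.2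
      have : y = (⟨g, hGY hg⟩ : Y) + ⟨m, hMY hm⟩ := Subtype.ext hgm.symm
      rw [this]
      exact Submodule.add_mem_sup hg hm
  let pr : Y →ₗ[ℂ] G' := Submodule.projectionOnto G' M' hcompl
  have hpr1 : ∀ x : G', pr x = x := fun x => Submodule.projectionOnto_apply_left hcompl x
  have hpr2 : ∀ x ∈ M', pr x = 0 := fun x hx =>
    Submodule.projectionOnto_apply_right hcompl ⟨x, hx⟩
  let P : Y →ₗ[ℂ] Y := G'.subtype ∘ₗ pr
  have hPdef : ∀ y, P y = (pr y : Y) := fun _ => rfl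
  have hdec : ∀ y : Y, ∃ x ∈ G, ∃ m ∈ M, (y : X) = x + m ∧ ((P y : Y) : X) = x := by
    intro y
    obtain ⟨x, hx, m, hm, hxm⟩ := Submodule.mem_sup.1 y.2
    refine ⟨x, hx, m, hm, hxm.symm, ?_⟩
    have hy : y = (⟨x, hGY hx⟩ : Y) + ⟨m, hMY hm⟩ := Subtype.ext hxm.symm
    have hm' : (⟨m, hMY hm⟩ : Y) ∈ M' := hm
    have h1 : pr y = ⟨⟨x, hGY hx⟩, hx⟩ := by
      rw [hy, map_add, hpr2 _ hm', add_zero]
      exact hpr1 ⟨⟨x, hGY hx⟩, hx⟩
    rw [hPdef, h1]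
  refine ⟨P, ⟨?_, ?_⟩, ?_, ?_, ?_, ?_⟩
  · intro y
    rw [hPdef (P y), hPdef y, hpr1]
  · intro ζ hζ y
    obtain ⟨x, hx, m, hm, hy, hPy⟩ := hdec y
    have hζ0 : ζ ≠ 0 := by rintro rfl; simp at hζ
    show ‖(y : X) + (ζ - 1) • ((P y : Y) : X)‖ ≤ (1 + ε) * ‖(y : X)‖
    rw [hPy, hy]
    have e1 : x + m + (ζ - 1) • x = ζ • (x + ζ⁻¹ • m) := by
      rw [smul_add, smul_smul, mul_inv_cancel₀ hζ0]; module
    rw [e1, norm_smul, hζ, one_mul]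
    exact hPh ζ⁻¹ (by rw [norm_inv, hζ, inv_one]) x hx m hm
  · intro y hy
    have := hpr1 ⟨y, hy⟩
    rw [hPdef, this]
  · intro y hy
    rw [hPdef, hpr2 y hy]; rfl
  · intro y
    obtain ⟨x, hx, m, hm, hy, hPy⟩ := hdec y
    rw [hPy]; exact hx
  · intro y hy0
    obtain ⟨x, hx, m, hm, hy, hPy⟩ := hdec y
    rw [hy0] at hPy
    have : x = 0 := hPy.symm
    rw [hy, this, zero_add]
    exact hm

end

end Pool.Agent.TH319
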