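import Pool.Agent.TH319.Cx

/-!
Chains of closed infinite-dimensional subspaces indexed by the reals, and non-surjective
isometric embeddings which almost fix a given finite-dimensional subspace.
-/

namespace Pool.Agent.TH319

open Module

variable {𝕜 : Type*} [RCLike 𝕜] {X : Type*} [NormedAddCommGroup X] [NormedSpace 𝕜 X]

theorem exists_functional {M : Submodule 𝕜 X} (hM : IsClosed (M : Set X)) {h : X}
    (hh : h ∉ M) : ∃ f : X →L[𝕜] 𝕜, f h = 1 ∧ ∀ m ∈ M, f m = 0 := by
  have := hM
  have h1 : M.mkQ h ≠ 0 := by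
    rw [Submodule.mkQ_apply, Ne, Submodule.Quotient.mk_eq_zero]; exact hh
  obtain ⟨g, hg⟩ := SeparatingDual.exists_eq_one (R := 𝕜) h1
  refine ⟨g.comp M.mkQL, by simpa using hg, fun m hm => ?_⟩
  have : M.mkQL m = 0 := by
    rw [Submodule.mkQL_apply, Submodule.mkQ_apply, Submodule.Quotient.mk_eq_zero]; exact hm
  rw [ContinuousLinearMap.comp_apply, this, map_zero]

theorem inf_of_linearIndependent' {ι : Type*} [Infinite ι] {z : ι → X}
    (h : LinearIndependent 𝕜 z) {M : Submodule 𝕜 X}
    (hz : ∀ n, z n ∈ M) : ¬ FiniteDimensional 𝕜 M := by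
  intro hM
  have h' : LinearIndependent 𝕜 (fun n => (⟨z n, hz n⟩ : M)) := by
    apply LinearIndependent.of_comp M.subtype
    exact h
  have := h'.finite_of_isNoetherian
  exact not_finite ι

theorem exists_biorth (hX : ¬ FiniteDimensional 𝕜 X) :
    ∃ (e : ℕ → X) (φ : ℕ → (X →L[𝕜] 𝕜)), (∀ n, φ n (e n) = 1) ∧
      ∀ n m, n ≠ m → φ n (e m) = 0 := by
  classical
  let P : X × (X →L[𝕜] 𝕜) → Prop := fun t => t.2 t.1 = 1
  let r : X × (X →L[𝕜] 𝕜) → X × (X →L[𝕜] 𝕜) → Prop := fun t t' => t.2 t'.1 = 0 ∧ t'.2 t.1 = 0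
  obtain ⟨f, hf1, hf2⟩ := exists_seq_of_forall_finset_exists P r (by
    intro s _
    let Φ : X →L[𝕜] (s → 𝕜) := ContinuousLinearMap.pi fun t => t.1.2
    have hfin : Module.Finite 𝕜 (X ⧸ (LinearMap.ker (Φ : X →ₗ[𝕜] (s → 𝕜)))) :=
      finite_quotient_ker _
    have hinf := inf_of_finite_quotient hX hfin
    let S : Submodule 𝕜 X := Submodule.span 𝕜 (((s.image Prod.fst : Finset X)) : Set X)
    have hS : FiniteDimensional 𝕜 S := FiniteDimensional.span_finset 𝕜 _
    have hnle : ¬ LinearMap.ker (Φ : X →ₗ[𝕜] (s → 𝕜)) ≤ S := by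
      intro hle
      exact hinf (Submodule.finiteDimensional_of_le hle)
    obtain ⟨u, hu1, hu2⟩ := SetLike.not_le_iff_exists.1 hnle
    obtain ⟨g, hg1, hg2⟩ := exists_functional (M := S) S.closed_of_finiteDimensional hu2
    refine ⟨(u, g), hg1, ?_⟩
    intro t ht
    refine ⟨?_, ?_⟩
    · have h2 : Φ u = 0 := LinearMap.mem_ker.1 hu1
      have h3 := congrFun h2 ⟨t, ht⟩
      simpa [Φ] using h3
    · apply hg2
      apply Submodule.subset_span
      simp only [Finset.coe_image, Set.mem_image, Finset.mem_coe]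
      exact ⟨t, ht, rfl⟩)
  refine ⟨fun n => (f n).1, fun n => (f n).2, hf1, ?_⟩
  intro n m hnm
  rcases lt_or_gt_of_ne hnm with h | h
  · exact (hf2 n m h).1
  · exact (hf2 m n h).2

theorem exists_chain (hX : ¬ FiniteDimensional 𝕜 X) :
    ∃ Y : ℝ → Submodule 𝕜 X, (∀ t, CI (Y t)) ∧ ∀ s t, s < t → Y s ≤ Y t ∧ Y s ≠ Y t := by
  obtain ⟨e, φ, h1, h2⟩ := exists_biorth hX
  obtain ⟨q, hq⟩ := exists_surjective_nat ℚ
  have hLI : LinearIndependent 𝕜 e := by
    rw [linearIndependent_iff]
    intro c hc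
    ext n
    have h3 : φ n (Finsupp.linearCombination 𝕜 e c) = 0 := by rw [hc, map_zero]
    rw [Finsupp.linearCombination_apply, map_finsuppSum] at h3
    rw [Finsupp.sum, Finset.sum_eq_single n] at h3
    · simpa [h1] using h3
    · intro m _ hm; rw [map_smul, h2 n m (Ne.symm hm), smul_zero]
    · intro hn
      simp only [Finsupp.mem_support_iff, not_not] at hn
      rw [hn, zero_smul, map_zero]
  let S : ℝ → Submodule 𝕜 X := fun t => Submodule.span 𝕜 (e '' {n | (q n : ℝ) < t})
  have hmem : ∀ t n, (q n : ℝ) < t → e n ∈ (S t).topologicalClosure := fun t n hn =>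
    (S t).le_topologicalClosure (Submodule.subset_span ⟨n, hn, rfl⟩)
  refine ⟨fun t => (S t).topologicalClosure, fun t => ⟨(S t).isClosed_topologicalClosure, ?_⟩, ?_⟩
  · have hinfset : {n | (q n : ℝ) < t}.Infinite := by
      intro hfin
      obtain ⟨r0, hr0⟩ := exists_rat_lt t
      have h3 : (Set.Iio r0).Infinite := Set.Iio_infinite r0
      apply h3
      apply (hfin.image q).subset
      intro r hr
      obtain ⟨n, hn⟩ := hq r
      refine ⟨n, ?_, hn⟩
      simp only [Set.mem_ofPred_eq, hn]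
      have : (r : ℝ) < r0 := by exact_mod_cast hr
      linarith
    have : Infinite {n | (q n : ℝ) < t} := hinfset.to_subtype
    apply inf_of_linearIndependent' (hLI.comp (Subtype.val : {n | (q n : ℝ) < t} → ℕ)
      Subtype.val_injective)
    intro n
    exact hmem t n n.2
  · intro s t hst
    refine ⟨?_, ?_⟩
    · apply Submodule.topologicalClosure_mono
      apply Submodule.span_mono
      apply Set.image_mono
      intro n hn
      exact lt_trans hn hst
    · obtain ⟨r, hr1, hr2⟩ := exists_rat_btwn hst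
      obtain ⟨n, rfl⟩ := hq r
      intro heq
      have heq' : (S s).topologicalClosure = (S t).topologicalClosure := heq
      have h3 : e n ∈ (S s).topologicalClosure := by
        rw [heq']; exact hmem t n hr2
      have h4 : (S s).topologicalClosure ≤ LinearMap.ker (φ n : X →ₗ[𝕜] 𝕜) := by
        apply Submodule.topologicalClosure_minimal
        · rw [Submodule.span_le]
          rintro _ ⟨m, hm, rfl⟩
          have hne : n ≠ m := by
            rintro rfl
            simp only [Set.mem_ofPred_eq] at hm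
            linarith
          exact h2 n m hne
        · exact (φ n).isClosed_ker
      have h5 : φ n (e n) = 0 := h4 h3
      rw [h1] at h5
      exact one_ne_zero h5

/-- Two points of an uncountable family in a separable space are close. -/
theorem exists_close {ι M : Type*} [Uncountable ι] [PseudoMetricSpace M]
    [TopologicalSpace.SeparableSpace M] (f : ι → M) {ε : ℝ} (hε : 0 < ε) :
    ∃ s t, s ≠ t ∧ dist (f s) (f t) < ε := by
  classical
  have : Nonempty ι := inferInstance
  have : Nonempty M := ⟨f (Classical.arbitrary ι)⟩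
  have h : ∀ t, ∃ n : ℕ, dist (f t) (TopologicalSpace.denseSeq M n) < ε / 2 := by
    intro t
    obtain ⟨y, hy, hd⟩ := Metric.dense_iff.1 (TopologicalSpace.denseRange_denseSeq M) (f t)
      (ε / 2) (half_pos hε)
    obtain ⟨n, rfl⟩ := hd
    refine ⟨n, ?_⟩
    rw [dist_comm]
    exact hy
  choose n hn using h
  have hni : ¬ Function.Injective n := not_injective_uncountable_countable n
  rw [Function.not_injective_iff] at hni
  obtain ⟨s, t, hst, hne⟩ := hni
  refine ⟨s, t, hne, ?_⟩
  have h1 := hn s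
  have h2 := hn t
  rw [← hst] at h2
  calc dist (f s) (f t) ≤ dist (f s) (TopologicalSpace.denseSeq M (n s))
        + dist (f t) (TopologicalSpace.denseSeq M (n s)) := dist_triangle_right _ _ _
    _ < ε := by linarith

/-- Non-surjective isometric embeddings of a homogeneous space almost fixing a given
finite-dimensional subspace. -/
theorem exists_near_fix [TopologicalSpace.SeparableSpace X] (hX : Homog 𝕜 X)
    (hinf : ¬ FiniteDimensional 𝕜 X) (G : Submodule 𝕜 X) [FiniteDimensional 𝕜 G]
    {δ : ℝ} (hδ : 0 < δ) :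
    ∃ W : X →ₗᵢ[𝕜] X, ¬ Function.Surjective W ∧ ∀ g ∈ G, ‖W g - g‖ ≤ δ * ‖g‖ := by
  obtain ⟨Y, hY1, hY2⟩ := exists_chain hinf
  let V : ∀ t, X ≃ₗᵢ[𝕜] Y t := fun t => (hX _ (hY1 t).closed (hY1 t).inf).some
  let F : ℝ → (G →L[𝕜] X) := fun t =>
    ((Y t).subtypeL.comp (V t).toLinearIsometry.toContinuousLinearMap).comp G.subtypeL
  have : SecondCountableTopology X := UniformSpace.secondCountable_of_separable X
  obtain ⟨s, t, hne, hst⟩ := exists_close F hδ
  rw [dist_eq_norm] at hst
  have key : ∀ s t : ℝ, s < t → ‖F s - F t‖ < δ →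
      ∃ W : X →ₗᵢ[𝕜] X, ¬ Function.Surjective W ∧ ∀ g ∈ G, ‖W g - g‖ ≤ δ * ‖g‖ := by
    intro s t hlt hd
    obtain ⟨hle, hneq⟩ := hY2 s t hlt
    let inc : Y s →ₗᵢ[𝕜] Y t := ⟨Submodule.inclusion hle, fun x => rfl⟩
    let W : X →ₗᵢ[𝕜] X :=
      (V t).symm.toLinearIsometry.comp (inc.comp (V s).toLinearIsometry)
    have hW : ∀ x, ((V t (W x) : Y t) : X) = ((V s x : Y s) : X) := by
      intro x
      show (((V t) ((V t).symm (inc (V s x))) : Y t) : X) = _
      rw [LinearIsometryEquiv.apply_symm_apply]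
      rfl
    refine ⟨W, ?_, ?_⟩
    · intro hsurj
      apply hneq
      apply le_antisymm hle
      intro y hy
      obtain ⟨x, hx⟩ := (V t).surjective ⟨y, hy⟩
      obtain ⟨x', hx'⟩ := hsurj x
      have h1 := hW x'
      rw [hx', hx] at h1
      change y = _ at h1
      rw [h1]
      exact (V s x').2
    · intro g hg
      have h1 : ‖W g - g‖ = ‖(F s - F t) ⟨g, hg⟩‖ := by
        rw [← (V t).norm_map]
        rw [map_sub]
        have : (F s - F t) ⟨g, hg⟩ = ((V t (W g) - V t g : Y t) : X) := by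
          rw [Submodule.coe_sub, hW]; rfl
        rw [this]; rfl
      rw [h1]
      calc _ ≤ ‖F s - F t‖ * ‖(⟨g, hg⟩ : G)‖ := (F s - F t).le_opNorm _
        _ ≤ δ * ‖g‖ := by
            rw [Submodule.coe_norm]
            gcongr
  rcases lt_or_gt_of_ne hne with h | h
  · exact key s t h hst
  · refine key t s h ?_
    rw [norm_sub_rev]; exact hst

end Pool.Agent.TH319
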