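import Pool.Agent.TH319.Planes

/-!
A complex homogeneous space is not rigid: it contains almost unitarily invariant pairs.
The proof follows the two lines of the planes cut out of a three-dimensional coordinate space
along a grid.
-/

namespace Pool.Agent.TH319

open Module Filter Topology

universe u

section
variable {X : Type*} [NormedAddCommGroup X] [NormedSpace ℂ X]

theorem D3.mono {ε ε' : ℝ} {x : Fin 3 → X} {M : Submodule ℂ X} (h : D3 ε x M) (hle : ε ≤ ε') :
    D3 ε' x M := fun z ζ hζ m hm => (h z ζ hζ m hm).trans (by gcongr)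

theorem D3.ph {ε : ℝ} {x : Fin 3 → X} {M : Submodule ℂ X} (h : D3 ε x M) (n : Fin 3 → ℝ) :
    Ph ε (Pl x n) M := by
  rintro ζ hζ _ ⟨z, -, rfl⟩ m hm
  have hζ0 : ζ ≠ 0 := by rintro rfl; simp at hζ
  have h1 := h z (fun _ => ζ⁻¹) (fun _ => by rw [norm_inv, hζ, inv_one]) m hm
  have e : ∑ i, z i • x i + ζ • m = ζ • (∑ i, (ζ⁻¹ * z i) • x i + m) := by
    rw [smul_add, Finset.smul_sum]
    congr 1
    apply Finset.sum_congr rfl
    intro i _
    rw [smul_smul, ← mul_assoc, mul_inv_cancel₀ hζ0, one_mul]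
  rw [e, norm_smul, hζ, one_mul]
  exact h1

theorem D3.lp {ε : ℝ} {x : Fin 3 → X} {M : Submodule ℂ X} (h : D3 ε x M) (i : Fin 3)
    (w : Fin 3 → ℂ) (hw : w i = 0) : LP ε (x i) (∑ j, w j • x j) M := by
  classical
  intro α β ζ hζ m hm
  have h1 := h (Pi.single i α + β • w) (fun j => if j = i then ζ else 1)
    (fun j => by split_ifs <;> simp [hζ]) m hm
  have e1 : ∑ j, (Pi.single i α + β • w : Fin 3 → ℂ) j • x j
      = α • x i + β • ∑ j, w j • x j := by
    simp only [Pi.add_apply, add_smul, Finset.sum_add_distrib]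
    congr 1
    · rw [Finset.sum_eq_single i]
      · simp
      · intro j _ hj; simp [Pi.single_apply, hj]
      · simp
    · rw [Finset.smul_sum]
      apply Finset.sum_congr rfl
      intro j _
      rw [Pi.smul_apply, smul_smul, smul_eq_mul]
  have e2 : ∑ j, ((if j = i then ζ else 1) * (Pi.single i α + β • w : Fin 3 → ℂ) j) • x j
      = (ζ * α) • x i + β • ∑ j, w j • x j := by
    have e3 : ∀ j, (if j = i then ζ else 1) * (Pi.single i α + β • w : Fin 3 → ℂ) j
        = (Pi.single i (ζ * α) + β • w : Fin 3 → ℂ) j := by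
      intro j
      by_cases hj : j = i
      · subst hj
        simp [hw]
      · simp [hj, Pi.single_apply]
    simp only [e3]
    simp only [Pi.add_apply, add_smul, Finset.sum_add_distrib]
    congr 1
    · rw [Finset.sum_eq_single i]
      · simp
      · intro j _ hj; simp [Pi.single_apply, hj]
      · simp
    · rw [Finset.smul_sum]
      apply Finset.sum_congr rfl
      intro j _
      rw [Pi.smul_apply, smul_smul, smul_eq_mul]
  rw [e1, e2] at h1
  exact h1

/-- A coordinate vector contained in the plane is a member of a pair. -/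
theorem D3.exists_pair {ε : ℝ} (hε : ε ≤ 1) {x : Fin 3 → X} {M : Submodule ℂ X}
    (hx : ∀ i, ‖x i‖ = 1) (h : D3 ε x M) (i : Fin 3) (w : Fin 3 → ℂ) (hw : w i = 0)
    (hw0 : w ≠ 0) (n : Fin 3 → ℝ) (hnw : ∑ j, (n j : ℂ) * w j = 0) :
    ∃ d ∈ Pl x n, ‖d‖ = 1 ∧ LP ε (x i) d M := by
  set v := ∑ j, w j • x j with hv
  have hv0 : v ≠ 0 := by
    intro h0
    apply hw0
    ext j
    have h1 := (h.mono hε).coord_le hx w M.zero_mem j
    rw [add_zero, ← hv, h0, norm_zero, mul_zero] at h1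
    simpa using norm_le_zero_iff.1 h1
  have hvn : 0 < ‖v‖ := norm_pos_iff.2 hv0
  refine ⟨(‖v‖⁻¹ : ℂ) • v, ?_, ?_, ?_⟩
  · apply Submodule.smul_mem
    exact ⟨w, hnw, rfl⟩
  · rw [norm_smul, norm_inv, Complex.norm_real, norm_norm, inv_mul_cancel₀ hvn.ne']
  · have e : (‖v‖⁻¹ : ℂ) • v = ∑ j, ((‖v‖⁻¹ : ℂ) • w) j • x j := by
      rw [hv, Finset.smul_sum]
      apply Finset.sum_congr rfl
      intro j _
      rw [Pi.smul_apply, smul_smul, smul_eq_mul]
    rw [e]
    apply h.lp
    rw [Pi.smul_apply, hw, smul_zero]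

theorem mem_Pl_single (x : Fin 3 → X) (n : Fin 3 → ℝ) (i : Fin 3) (hn : n i = 0) :
    x i ∈ Pl x n := by
  classical
  refine ⟨Pi.single i 1, ?_, ?_⟩
  · rw [Finset.sum_eq_single i]
    · simp [hn]
    · intro j _ hj; simp [Pi.single_apply, hj]
    · simp
  · rw [Finset.sum_eq_single i]
    · simp
    · intro j _ hj; simp [Pi.single_apply, hj]
    · simp

end

/-- The coefficients of the planes of the grid. -/
noncomputable def grd (N i j : ℕ) : Fin 3 → ℝ :=
  ![(i / N : ℝ) * (1 - j / N), (i / N : ℝ) * (j / N), 1 - i / N]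

theorem grd_nonneg {N i j : ℕ} (hN : 0 < N) (hi : i ≤ N) (hj : j ≤ N) (k : Fin 3) :
    0 ≤ grd N i j k := by
  have hN' : (0 : ℝ) < N := by exact_mod_cast hN
  have h1 : (i / N : ℝ) ≤ 1 := by rw [div_le_one hN']; exact_mod_cast hi
  have h2 : (j / N : ℝ) ≤ 1 := by rw [div_le_one hN']; exact_mod_cast hj
  have h3 : 0 ≤ (i / N : ℝ) := by positivity
  have h4 : 0 ≤ (j / N : ℝ) := by positivity
  fin_cases k
  · show 0 ≤ (i / N : ℝ) * (1 - j / N)
    apply mul_nonneg h3; linarith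
  · show 0 ≤ (i / N : ℝ) * (j / N)
    positivity
  · show 0 ≤ (1 : ℝ) - i / N
    linarith

theorem grd_sum (N i j : ℕ) : ∑ k, grd N i j k = 1 := by
  rw [Fin.sum_univ_three]
  show (i / N : ℝ) * (1 - j / N) + (i / N : ℝ) * (j / N) + (1 - i / N) = 1
  ring

theorem grd_step1 {N i j : ℕ} (hN : 0 < N) (hj : j ≤ N) (k : Fin 3) :
    |grd N i j k - grd N (i + 1) j k| ≤ 1 / N := by
  have hN' : (0 : ℝ) < N := by exact_mod_cast hN
  have h2 : (j / N : ℝ) ≤ 1 := by rw [div_le_one hN']; exact_mod_cast hj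
  have h4 : 0 ≤ (j / N : ℝ) := by positivity
  have h5 : 0 < (1 / N : ℝ) := by positivity
  fin_cases k
  · show |(i / N : ℝ) * (1 - j / N) - ((i + 1 : ℕ) / N : ℝ) * (1 - j / N)| ≤ 1 / N
    have : (i / N : ℝ) * (1 - j / N) - ((i + 1 : ℕ) / N : ℝ) * (1 - j / N)
        = -((1 / N) * (1 - j / N)) := by push_cast; ring
    rw [this, abs_neg, abs_of_nonneg (mul_nonneg h5.le (by linarith))]
    nlinarith
  · show |(i / N : ℝ) * (j / N) - ((i + 1 : ℕ) / N : ℝ) * (j / N)| ≤ 1 / N
    have : (i / N : ℝ) * (j / N) - ((i + 1 : ℕ) / N : ℝ) * (j / N)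
        = -((1 / N) * (j / N)) := by push_cast; ring
    rw [this, abs_neg, abs_of_nonneg (by positivity)]
    nlinarith
  · show |(1 - (i / N : ℝ)) - (1 - ((i + 1 : ℕ) / N : ℝ))| ≤ 1 / N
    have : (1 - (i / N : ℝ)) - (1 - ((i + 1 : ℕ) / N : ℝ)) = 1 / N := by push_cast; ring
    rw [this, abs_of_pos h5]

theorem grd_step2 {N i j : ℕ} (hN : 0 < N) (hi : i ≤ N) (k : Fin 3) :
    |grd N i j k - grd N i (j + 1) k| ≤ 1 / N := by
  have hN' : (0 : ℝ) < N := by exact_mod_cast hN
  have h2 : (i / N : ℝ) ≤ 1 := by rw [div_le_one hN']; exact_mod_cast hi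
  have h4 : 0 ≤ (i / N : ℝ) := by positivity
  have h5 : 0 < (1 / N : ℝ) := by positivity
  fin_cases k
  · show |(i / N : ℝ) * (1 - j / N) - (i / N : ℝ) * (1 - (j + 1 : ℕ) / N)| ≤ 1 / N
    have : (i / N : ℝ) * (1 - j / N) - (i / N : ℝ) * (1 - (j + 1 : ℕ) / N)
        = (i / N) * (1 / N) := by push_cast; ring
    rw [this, abs_of_nonneg (by positivity)]
    nlinarith
  · show |(i / N : ℝ) * (j / N) - (i / N : ℝ) * ((j + 1 : ℕ) / N)| ≤ 1 / N
    have : (i / N : ℝ) * (j / N) - (i / N : ℝ) * ((j + 1 : ℕ) / N)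
        = -((i / N) * (1 / N)) := by push_cast; ring
    rw [this, abs_neg, abs_of_nonneg (by positivity)]
    nlinarith
  · show |(1 - (i / N : ℝ)) - (1 - (i / N : ℝ))| ≤ 1 / N
    rw [sub_self, abs_zero]
    positivity

theorem grd_ne_zero (N i j : ℕ) : grd N i j ≠ 0 := by
  intro h
  have := grd_sum N i j
  rw [h] at this
  simp at this

theorem not_rigid {X : Type u} [NormedAddCommGroup X] [NormedSpace ℂ X] [CompleteSpace X]
    [TopologicalSpace.SeparableSpace X] (hX : Homog ℂ X) (hinf : ¬ FiniteDimensional ℂ X)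
    {δ : ℝ} (hδ : 0 < δ) : ¬ Rigid δ X := by
  intro hRig
  obtain ⟨η₀, hη₀, hη₀1, HU⟩ := uniq_axis.{u} δ (1 / 100) hδ (by norm_num)
  set η : ℝ := η₀ / 8 with hη
  have hηpos : 0 < η := by positivity
  obtain ⟨ε₁, hε₁, HA⟩ := axis_in_plane.{u} δ η hδ hηpos
  set ε : ℝ := min ε₁ η with hε
  have hεpos : 0 < ε := lt_min hε₁ hηpos
  have hεη : ε ≤ η := min_le_right _ _
  have hεε₁ : ε ≤ ε₁ := min_le_left _ _
  have hε1 : ε ≤ 1 := by linarith
  obtain ⟨x, M, hM, hx, hD⟩ := exists_D3 hX hinf hεpos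
  have hD1 := hD.mono hε1
  -- the mesh
  set ρ : ℝ := η₀ / 200000 with hρ
  have hρpos : 0 < ρ := by positivity
  obtain ⟨N, hN⟩ := exists_nat_gt (1 / ρ)
  have hNr : (0 : ℝ) < N := lt_trans (by positivity) hN
  have hNpos : 0 < N := by exact_mod_cast hNr
  have hNρ : (1 / N : ℝ) ≤ ρ := by
    rw [div_le_iff₀ hNr]
    rw [div_lt_iff₀ hρpos] at hN
    linarith
  have hfr : ∀ i j, finrank ℂ (Pl x (grd N i j)) = 2 := fun i j =>
    finrank_Pl hx hD1 (grd_ne_zero N i j)
  -- good pairs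
  let Good : ℕ → ℕ → X × X → Prop := fun i j p =>
    p.1 ∈ Pl x (grd N i j) ∧ p.2 ∈ Pl x (grd N i j) ∧ ‖p.1‖ = 1 ∧ ‖p.2‖ = 1 ∧
      LP (3 * η) p.1 p.2 M ∧ LP (3 * η) p.2 p.1 M
  have hGood_of : ∀ i j a b, a ∈ Pl x (grd N i j) → b ∈ Pl x (grd N i j) → ‖a‖ = 1 → ‖b‖ = 1 →
      LP η a b M → Good i j (a, b) := by
    intro i j a b ha hb ha1 hb1 hab
    refine ⟨ha, hb, ha1, hb1, hab.mono (by linarith), ?_⟩
    apply (LP.swap hηpos.le ha hb hab (hD.ph _)).mono
    nlinarith
  have hexG : ∀ i j, ∃ p : X × X, Good i j p ∧ (i = 0 → p = (x 0, x 1)) := by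
    intro i j
    rcases Nat.eq_zero_or_pos i with rfl | hi
    · refine ⟨(x 0, x 1), ?_, fun _ => rfl⟩
      have h0 : grd N 0 j 0 = 0 := by
        show ((0 : ℕ) / N : ℝ) * (1 - j / N) = 0
        simp
      have h1 : grd N 0 j 1 = 0 := by
        show ((0 : ℕ) / N : ℝ) * (j / N) = 0
        simp
      apply hGood_of _ _ _ _ (mem_Pl_single x _ 0 h0) (mem_Pl_single x _ 1 h1) (hx 0) (hx 1)
      have h2 := (hD.lp 0 (Pi.single 1 1) (by simp)).mono hεη
      have e : ∑ k, (Pi.single (1 : Fin 3) (1 : ℂ) : Fin 3 → ℂ) k • x k = x 1 := by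
        rw [Fin.sum_univ_three]; simp
      rw [e] at h2
      exact h2
    · obtain ⟨a, ha, b, hb, ha1, hb1, hab⟩ := HA X hX hRig (Pl x (grd N i j)) M (hfr i j) hM
        ((hD.ph _).mono hεε₁)
      exact ⟨(a, b), hGood_of i j a b ha hb ha1 hb1 hab, fun h => absurd h hi.ne'⟩
  choose p hpG hp0 using hexG
  let L : ℕ → ℕ → Bool → X := fun i j b => if b then (p i j).1 else (p i j).2
  have hLt : ∀ i j, L i j true = (p i j).1 := fun _ _ => rfl
  have hLf : ∀ i j, L i j false = (p i j).2 := fun _ _ => rfl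
  have hLmem : ∀ i j b, L i j b ∈ Pl x (grd N i j) := by
    intro i j b
    cases b
    · exact (hpG i j).2.1
    · exact (hpG i j).1
  have hL1 : ∀ i j b, ‖L i j b‖ = 1 := by
    intro i j b
    cases b
    · exact (hpG i j).2.2.2.1
    · exact (hpG i j).2.2.1
  have hLLP : ∀ i j b, LP (3 * η) (L i j b) (L i j (!b)) M := by
    intro i j b
    cases b
    · exact (hpG i j).2.2.2.2.2
    · exact (hpG i j).2.2.2.2.1
  have h3η : 3 * η ≤ η₀ := by rw [hη]; linarith
  -- uniqueness in the form needed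
  have huniq : ∀ i j c d, c ∈ Pl x (grd N i j) → d ∈ Pl x (grd N i j) → ‖c‖ = 1 → ‖d‖ = 1 →
      LP η₀ c d M → ∃ y, Cl (1 / 100) (L i j y) c := by
    intro i j c d hc hd hc1 hd1 hcd
    rcases HU X hRig (Pl x (grd N i j)) M (hfr i j) hM (L i j true) (L i j false) c d
      (hLmem _ _ _) (hLmem _ _ _) hc hd (hL1 _ _ _) (hL1 _ _ _) hc1 hd1
      ((hLLP i j true).mono h3η) hcd with h | h
    · exact ⟨true, h.symm⟩
    · exact ⟨false, h.symm⟩
  have hnb : ∀ i j i' j', (∀ k, 0 ≤ grd N i' j' k) →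
      (∀ k, |grd N i j k - grd N i' j' k| ≤ 1 / N) → ∀ b, ∃ y, Cl (1 / 50) (L i' j' y) (L i j b) := by
    intro i j i' j' h0 hd b
    obtain ⟨a', ha', b', hb', ha1, hb1, hLP, hna, -⟩ := LP.perturb hx hD1 h0 (grd_sum N i' j')
      hρpos.le (by rw [hρ]; linarith) (fun k => (hd k).trans hNρ) (hLmem i j b) (hLmem i j (!b))
      (hL1 _ _ _) (hL1 _ _ _) (by positivity) (by linarith) (hLLP i j b)
    obtain ⟨y, hy⟩ := huniq i' j' a' b' ha' hb' ha1 hb1 (hLP.mono (by rw [hη, hρ]; linarith))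
    refine ⟨y, ?_⟩
    have h1 := hy.trans (Cl.of_near hna)
    exact h1.mono (by rw [hρ]; linarith)
  have hcoord : ∀ i j (k : Fin 3) (w : Fin 3 → ℂ), grd N i j k = 0 → w k = 0 → w ≠ 0 →
      ∑ l, (grd N i j l : ℂ) * w l = 0 → ∃ y, Cl (1 / 50) (L i j y) (x k) := by
    intro i j k w hk hwk hw0 hnw
    obtain ⟨d, hd, hd1, hLP⟩ := D3.exists_pair hε1 hx hD k w hwk hw0 (grd N i j) hnw
    obtain ⟨y, hy⟩ := huniq i j (x k) d (mem_Pl_single x _ k hk) hd (hx k) hd1
      (hLP.mono (by linarith))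
    exact ⟨y, hy.mono (by norm_num)⟩
  have hxfar : ∀ i j : Fin 3, i ≠ j → ¬ Cl (1 / 2) (x i) (x j) := by
    intro i j hij
    have h1 := hD1.lp i (Pi.single j 1) (by simp [hij])
    have e : ∑ k, (Pi.single j (1 : ℂ) : Fin 3 → ℂ) k • x k = x j := by
      rw [Finset.sum_eq_single j]
      · simp
      · intro k _ hk; simp [Pi.single_apply, hk]
      · simp
    rw [e] at h1
    exact LP.far zero_le_one le_rfl (hx i) h1
  have hNN : (N / N : ℝ) = 1 := div_self hNr.ne'
  apply grid_lemma (V := X) (fun κ a b => Cl κ a b) (fun κ a b h => Cl.symm h)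
    (fun κ κ' a b hle h => Cl.mono hle h) (fun κ κ' a b c h h' => Cl.trans h h')
    (κ := 1 / 50) (by norm_num) (by norm_num) N L (x 0) (x 1) (x 2)
  · intro i _ j _
    have := hLLP i j true
    exact LP.far (by positivity) (by linarith) (hL1 i j true) this
  · intro i hi j hj b
    exact hnb i j (i + 1) j (grd_nonneg hNpos (by omega) hj) (grd_step1 hNpos hj) b
  · intro i hi j hj b
    exact hnb i j i (j + 1) (grd_nonneg hNpos hi (by omega)) (grd_step2 hNpos hi) b
  · intro j _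
    rw [hLt, hp0 0 j rfl]
    exact Cl.of_near (by simp)
  · intro i _
    apply hcoord i 0 1 (fun k => if k = 0 then (grd N i 0 2 : ℂ) else if k = 2 then
      -(grd N i 0 0 : ℂ) else 0)
    · show (i / N : ℝ) * ((0 : ℕ) / N) = 0
      simp
    · simp
    · intro h0
      have h1 : (grd N i 0 2 : ℂ) = 0 := by
        have := congrFun h0 0
        simpa using this
      have h2 : (grd N i 0 0 : ℂ) = 0 := by
        have := congrFun h0 2
        simpa using this
      have h3 := grd_sum N i 0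
      rw [Fin.sum_univ_three] at h3
      have h4 : grd N i 0 1 = 0 := by
        show (i / N : ℝ) * ((0 : ℕ) / N) = 0
        simp
      have h5 : grd N i 0 2 = 0 := by exact_mod_cast h1
      have h6 : grd N i 0 0 = 0 := by exact_mod_cast h2
      rw [h4, h5, h6] at h3
      norm_num at h3
    · rw [Fin.sum_univ_three]
      simp
      ring
  · intro i _
    apply hcoord i N 0 (fun k => if k = 1 then (grd N i N 2 : ℂ) else if k = 2 then
      -(grd N i N 1 : ℂ) else 0)
    · show (i / N : ℝ) * (1 - N / N) = 0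
      rw [hNN]; ring
    · simp
    · intro h0
      have h1 : (grd N i N 2 : ℂ) = 0 := by
        have := congrFun h0 1
        simpa using this
      have h2 : (grd N i N 1 : ℂ) = 0 := by
        have := congrFun h0 2
        simpa using this
      have h3 := grd_sum N i N
      rw [Fin.sum_univ_three] at h3
      have h4 : grd N i N 0 = 0 := by
        show (i / N : ℝ) * (1 - N / N) = 0
        rw [hNN]; ring
      have h5 : grd N i N 2 = 0 := by exact_mod_cast h1
      have h6 : grd N i N 1 = 0 := by exact_mod_cast h2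
      rw [h4, h5, h6] at h3
      norm_num at h3
    · rw [Fin.sum_univ_three]
      simp
      ring
  · intro j _
    apply hcoord N j 2 (fun k => if k = 0 then (grd N N j 1 : ℂ) else if k = 1 then
      -(grd N N j 0 : ℂ) else 0)
    · show 1 - (N / N : ℝ) = 0
      rw [hNN]; ring
    · simp
    · intro h0
      have h1 : (grd N N j 1 : ℂ) = 0 := by
        have := congrFun h0 0
        simpa using this
      have h2 : (grd N N j 0 : ℂ) = 0 := by
        have := congrFun h0 1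
        simpa using this
      have h3 := grd_sum N N j
      rw [Fin.sum_univ_three] at h3
      have h4 : grd N N j 2 = 0 := by
        show 1 - (N / N : ℝ) = 0
        rw [hNN]; ring
      have h5 : grd N N j 1 = 0 := by exact_mod_cast h1
      have h6 : grd N N j 0 = 0 := by exact_mod_cast h2
      rw [h4, h5, h6] at h3
      norm_num at h3
    · rw [Fin.sum_univ_three]
      simp
      ring
  · exact hxfar 0 1 (by decide)
  · exact hxfar 0 2 (by decide)
  · exact hxfar 1 2 (by decide)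

end Pool.Agent.TH319
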