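import Pool.Agent.TH319.CDefs
import Pool.Agent.TH858.HomogOffd
import Pool.Agent.TH858.HomogSmall
import Pool.Agent.TH858.HomogRot
import Pool.Agent.TH345.HomogPrefix
import Pool.Agent.TH298.HomogGrid
import Pool.Agent.TH298.HomogSU2
import Pool.Agent.TH323.HomogD3
import Pool.Agent.TH61.HomogPlane
import Pool.Agent.TH61.HomogEigen
import Pool.Agent.TH445.HomogSU2

/-!
Collects the parts of the complex case.
-/
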