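import Pool.Agent.TH319.Reflect

/-!
The phase property in homogeneous real and complex spaces.
-/

namespace Pool.Agent.TH319

open Module

theorem exists_proj {𝕜 : Type*} [RCLike 𝕜] {X : Type*} [NormedAddCommGroup X]
    [NormedSpace 𝕜 X] (G : Submodule 𝕜 X) (hG : FiniteDimensional 𝕜 G) :
    ∃ P : X →L[𝕜] G, ∀ g : G, P g = g :=
  Submodule.ClosedComplemented.of_finiteDimensional G

theorem phLocal_real {X : Type*} [NormedAddCommGroup X] [NormedSpace ℝ X] [CompleteSpace X]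
    [TopologicalSpace.SeparableSpace X] (hX : Homog ℝ X) (hinf : ¬ FiniteDimensional ℝ X) :
    PhLocal (𝕜 := ℝ) X := by
  intro G hG L0 hL0c hL0 ε hε
  obtain ⟨P, hP⟩ := exists_proj G hG
  have happ : HasApp X (-1 : ℝ) := by
    intro W hW L _ hL δ hδ
    obtain ⟨u, hu1, hu2, hu3⟩ := approx_neg_real W hW L hL hδ
    refine ⟨u, hu1, hu2, ?_⟩
    simpa using hu3
  obtain ⟨M, hM1, hM2, hM3⟩ := reflect_aux hX hinf G P hP L0 hL0c hL0 (-1) (by simp) happ 1 hε
  refine ⟨M, hM1, hM2.trans inf_le_left, ?_⟩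
  intro ζ hζ g hg m hm
  rw [Real.norm_eq_abs] at hζ
  rcases eq_or_eq_neg_of_abs_eq hζ with h | h
  · rw [h, one_smul]
    nlinarith [norm_nonneg (g + m)]
  · have := hM3 1 le_rfl g hg m hm
    rw [pow_one] at this
    rw [h]
    exact this

theorem hasApp_complex {X : Type*} [NormedAddCommGroup X] [NormedSpace ℂ X] [CompleteSpace X]
    (lam : ℂ) (hlam : ‖lam‖ = 1) : HasApp X lam := by
  intro W hW L _ hL δ hδ
  have : FiniteDimensional ℝ (X ⧸ L) := FiniteDimensional.complexToReal (X ⧸ L)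
  obtain ⟨u, hu0, hu1, hu2⟩ := approx_eigen_ker W hW lam hlam (L.mkQ.restrictScalars ℝ) hδ
  refine ⟨u, ?_, hu1, hu2⟩
  simpa using hu0

theorem exists_pow_close (β : ℝ) (hβ : 0 < β) :
    ∃ K : ℕ, ∀ ζ : ℂ, ‖ζ‖ = 1 → ∃ k ≤ K, ‖ζ - Complex.exp (Complex.I * β) ^ k‖ ≤ β := by
  refine ⟨⌈3 * Real.pi / β⌉₊, ?_⟩
  intro ζ hζ
  set θ : ℝ := Complex.arg ζ + 2 * Real.pi with hθ
  have hpi := Real.pi_pos
  have hθ0 : 0 ≤ θ := by have := Complex.neg_pi_lt_arg ζ; rw [hθ]; linarith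
  have hθ1 : θ ≤ 3 * Real.pi := by have := Complex.arg_le_pi ζ; rw [hθ]; linarith
  have hζ' : ζ = Complex.exp (Complex.I * θ) := by
    have h1 := Complex.norm_mul_exp_arg_mul_I ζ
    rw [hζ, Complex.ofReal_one, one_mul] at h1
    rw [← h1, hθ]
    rw [h1]
    push_cast
    rw [mul_add, Complex.exp_add, show Complex.I * (2 * (Real.pi : ℂ)) = 2 * Real.pi * Complex.I by
      ring, Complex.exp_two_pi_mul_I, mul_one, mul_comm Complex.I, h1]
  set k : ℕ := ⌊θ / β⌋₊ with hk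
  refine ⟨k, ?_, ?_⟩
  · rw [hk]
    apply Nat.le_trans (Nat.floor_le_ceil _)
    apply Nat.ceil_mono
    gcongr
  · have h1 : (k : ℝ) ≤ θ / β := Nat.floor_le (by positivity)
    have h2 : θ / β < k + 1 := Nat.lt_floor_add_one _
    rw [le_div_iff₀ hβ] at h1
    rw [div_lt_iff₀ hβ] at h2
    have h3 : ζ - Complex.exp (Complex.I * β) ^ k
        = Complex.exp (Complex.I * β) ^ k * (Complex.exp (Complex.I * ((θ - k * β : ℝ) : ℂ)) - 1) := by
      rw [hζ', ← Complex.exp_nat_mul, mul_sub, ← Complex.exp_add, mul_one]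
      congr 2
      push_cast; ring
    rw [h3, norm_mul, norm_pow, Complex.norm_exp_I_mul_ofReal, one_pow, one_mul]
    refine (Real.norm_exp_I_mul_ofReal_sub_one_le).trans ?_
    rw [Real.norm_eq_abs, abs_of_nonneg (by linarith)]
    linarith

theorem phLocal_complex {X : Type*} [NormedAddCommGroup X] [NormedSpace ℂ X] [CompleteSpace X]
    [TopologicalSpace.SeparableSpace X] (hX : Homog ℂ X) (hinf : ¬ FiniteDimensional ℂ X) :
    PhLocal (𝕜 := ℂ) X := by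
  intro G hG L0 hL0c hL0 ε hε
  obtain ⟨P, hP⟩ := exists_proj G hG
  set C : ℝ := 1 + ‖P‖ with hC
  have hCpos : 0 < C := by positivity
  set β : ℝ := ε / (2 * C) with hβ
  have hβpos : 0 < β := by positivity
  obtain ⟨K, hK⟩ := exists_pow_close β hβpos
  obtain ⟨M, hM1, hM2, hM3⟩ := reflect_aux hX hinf G P hP L0 hL0c hL0
    (Complex.exp (Complex.I * β)) (Complex.norm_exp_I_mul_ofReal _)
    (hasApp_complex _ (Complex.norm_exp_I_mul_ofReal _)) K (half_pos hε)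
  refine ⟨M, hM1, hM2.trans inf_le_left, ?_⟩
  intro ζ hζ g hg m hm
  obtain ⟨k, hk, hζk⟩ := hK ζ hζ
  have h1 := hM3 k hk g hg m hm
  have hPm : P m = 0 := LinearMap.mem_ker.1 (Submodule.mem_inf.1 (hM2 hm)).2
  have hPg : P g = ⟨g, hg⟩ := hP ⟨g, hg⟩
  have h2 : ‖g‖ ≤ ‖P‖ * ‖g + m‖ := by
    have h2 : P (g + m) = ⟨g, hg⟩ := by rw [map_add, hPm, hPg, add_zero]
    have h3 := P.le_opNorm (g + m)
    rw [h2] at h3
    exact h3
  have h3 : ‖m‖ ≤ C * ‖g + m‖ := by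
    have h3 : ‖m‖ ≤ ‖g + m‖ + ‖g‖ := by
      have := norm_sub_le (g + m) g
      rwa [add_sub_cancel_left] at this
    rw [hC]; linarith
  have h4 : g + ζ • m = (g + Complex.exp (Complex.I * β) ^ k • m)
      + (ζ - Complex.exp (Complex.I * β) ^ k) • m := by
    rw [sub_smul]; abel
  rw [h4]
  calc _ ≤ ‖g + Complex.exp (Complex.I * β) ^ k • m‖
        + ‖(ζ - Complex.exp (Complex.I * β) ^ k) • m‖ := norm_add_le _ _
    _ ≤ (1 + ε / 2) * ‖g + m‖ + β * (C * ‖g + m‖) := by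
        rw [norm_smul]
        gcongr
    _ = (1 + ε) * ‖g + m‖ := by
        rw [hβ]; field_simp; ring

end Pool.Agent.TH319
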