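import Pool.Agent.TH319.Axis

/-!
Almost isometric lines in planes of a rigid homogeneous space: existence and uniqueness.
-/

namespace Pool.Agent.TH319

open Module Filter Topology

universe u

section
variable {X : Type*} [NormedAddCommGroup X] [NormedSpace ℂ X]

theorem LP.mono {η η' : ℝ} {a b : X} {M : Submodule ℂ X} (h : LP η a b M) (hle : η ≤ η') :
    LP η' a b M := fun α β ζ hζ m hm => (h α β ζ hζ m hm).trans (by gcongr)

theorem Ph.mono {ε ε' : ℝ} {G M : Submodule ℂ X} (h : Ph ε G M) (hle : ε ≤ ε') : Ph ε' G M :=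
  fun ζ hζ g hg m hm => (h ζ hζ g hg m hm).trans (by gcongr)

theorem Cl.symm {κ : ℝ} {a b : X} (h : Cl κ a b) : Cl κ b a := by
  obtain ⟨ζ, hζ, h⟩ := h
  have hζ0 : ζ ≠ 0 := by rintro rfl; simp at hζ
  refine ⟨ζ⁻¹, by rw [norm_inv, hζ, inv_one], ?_⟩
  have e : b - ζ⁻¹ • a = -(ζ⁻¹ • (a - ζ • b)) := by
    rw [smul_sub, smul_smul, inv_mul_cancel₀ hζ0, one_smul]; abel
  rw [e, norm_neg, norm_smul, norm_inv, hζ, inv_one, one_mul]
  exact h

theorem Cl.trans {κ κ' : ℝ} {a b c : X} (h : Cl κ a b) (h' : Cl κ' b c) : Cl (κ + κ') a c := by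
  obtain ⟨ζ, hζ, h⟩ := h
  obtain ⟨ζ', hζ', h'⟩ := h'
  refine ⟨ζ * ζ', by rw [norm_mul, hζ, hζ', one_mul], ?_⟩
  have e : a - (ζ * ζ') • c = (a - ζ • b) + ζ • (b - ζ' • c) := by
    rw [smul_sub, smul_smul]; abel
  rw [e]
  refine (norm_add_le _ _).trans ?_
  rw [norm_smul, hζ, one_mul]
  exact add_le_add h h'

theorem Cl.mono {κ κ' : ℝ} {a b : X} (hle : κ ≤ κ') (h : Cl κ a b) : Cl κ' a b := by
  obtain ⟨ζ, hζ, h⟩ := h
  exact ⟨ζ, hζ, h.trans hle⟩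

theorem Cl.of_near {κ : ℝ} {a b : X} (h : ‖a - b‖ ≤ κ) : Cl κ a b :=
  ⟨1, norm_one, by rwa [one_smul]⟩

theorem Cl.of_smul {κ : ℝ} {a c : X} (ha : ‖a‖ = 1) (hc : ‖c‖ = 1) {lam : ℂ} (hκ : κ < 1)
    (h : ‖c - lam • a‖ ≤ κ) : Cl (2 * κ) c a := by
  have h1 : |1 - ‖lam‖| ≤ κ := by
    have h2 := abs_norm_sub_norm_le c (lam • a)
    rw [norm_smul, ha, hc, mul_one] at h2
    exact h2.trans h
  have hlam : 0 < ‖lam‖ := by
    have := (abs_le.1 h1).2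
    linarith
  have hlam0 : (‖lam‖ : ℂ) ≠ 0 := by exact_mod_cast hlam.ne'
  refine ⟨lam / ‖lam‖, ?_, ?_⟩
  · rw [norm_div, Complex.norm_real, norm_norm, div_self hlam.ne']
  · have e : c - (lam / ‖lam‖) • a = (c - lam • a) + ((‖lam‖ - 1 : ℂ) * (lam / ‖lam‖)) • a := by
      have : (‖lam‖ - 1 : ℂ) * (lam / ‖lam‖) = lam - lam / ‖lam‖ := by field_simp
      rw [this, sub_smul]; abel
    rw [e]
    refine (norm_add_le _ _).trans ?_
    rw [norm_smul, ha, mul_one, norm_mul, norm_div, Complex.norm_real, norm_norm,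
      div_self hlam.ne', mul_one]
    have h3 : ‖(‖lam‖ - 1 : ℂ)‖ = |1 - ‖lam‖| := by
      rw [← Complex.ofReal_one, ← Complex.ofReal_sub, Complex.norm_real, Real.norm_eq_abs,
        abs_sub_comm]
    rw [h3]
    linarith

theorem LP.far {η : ℝ} (hη0 : 0 ≤ η) (hη : η ≤ 1) {a b : X} {M : Submodule ℂ X} (ha : ‖a‖ = 1)
    (h : LP η a b M) : ¬ Cl (1 / 2) a b := by
  rintro ⟨ζ, hζ, h1⟩
  have h2 := h 1 (-ζ) (-1) (by simp) 0 M.zero_mem
  have e1 : ((-1 : ℂ) * 1) • a + (-ζ) • b + 0 = (a - ζ • b) - (2 : ℂ) • a := by module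
  have e2 : (1 : ℂ) • a + (-ζ) • b + 0 = a - ζ • b := by module
  rw [e1, e2] at h2
  have h3 : ‖(2 : ℂ) • a‖ ≤ ‖a - ζ • b‖ + (1 + η) * ‖a - ζ • b‖ := by
    have h4 : (2 : ℂ) • a = (a - ζ • b) - ((a - ζ • b) - (2 : ℂ) • a) := by abel
    rw [h4]
    exact (norm_sub_le _ _).trans (by gcongr)
  rw [norm_smul, ha, Complex.norm_ofNat] at h3
  nlinarith [norm_nonneg (a - ζ • b)]

/-- The other vector of a pair. -/
theorem LP.swap {η ε : ℝ} (hη0 : 0 ≤ η) {a b : X} {G M : Submodule ℂ X} (ha : a ∈ G)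
    (hb : b ∈ G) (h : LP η a b M) (hG : Ph ε G M) : LP ((1 + η) * (1 + ε) - 1) b a M := by
  intro α β ζ hζ m hm
  have hζ0 : ζ ≠ 0 := by rintro rfl; simp at hζ
  have hζi : ‖ζ⁻¹‖ = 1 := by rw [norm_inv, hζ, inv_one]
  have e : (ζ * α) • b + β • a + m = ζ • ((ζ⁻¹ * β) • a + α • b + ζ⁻¹ • m) := by
    rw [smul_add, smul_add, smul_smul, smul_smul, smul_smul, ← mul_assoc,
      mul_inv_cancel₀ hζ0, one_mul, one_smul]
    abel
  rw [e, norm_smul, hζ, one_mul]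
  have h1 := h β α ζ⁻¹ hζi (ζ⁻¹ • m) (M.smul_mem _ hm)
  have h2 := hG ζ⁻¹ hζi (β • a + α • b) (G.add_mem (G.smul_mem _ ha) (G.smul_mem _ hb)) m hm
  have e2 : α • b + β • a + m = β • a + α • b + m := by abel
  rw [e2]
  calc _ ≤ (1 + η) * ‖β • a + α • b + ζ⁻¹ • m‖ := h1
    _ ≤ (1 + η) * ((1 + ε) * ‖β • a + α • b + m‖) := by gcongr
    _ = _ := by ring

theorem Rigid.sub {δ : ℝ} (h : Rigid δ X) {Z : Submodule ℂ X} (hZ : IsClosed (Z : Set X)) :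
    Rigid δ Z := by
  intro u v K hu hK hNU
  apply h (u : X) (v : X) (K.map Z.subtype) (by simpa using hu) (hK.map hZ)
  rintro α β _ ⟨k, hk, rfl⟩
  exact hNU α β k hk

end

theorem axis_in_plane (δ κ : ℝ) (hδ : 0 < δ) (hκ : 0 < κ) :
    ∃ ε₀ > (0 : ℝ), ∀ (X : Type u) [NormedAddCommGroup X] [NormedSpace ℂ X] [CompleteSpace X]
      [TopologicalSpace.SeparableSpace X], Homog ℂ X → Rigid δ X → ∀ G M : Submodule ℂ X,
      finrank ℂ G = 2 → CI M → Ph ε₀ G M →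
      ∃ a ∈ G, ∃ b ∈ G, ‖a‖ = 1 ∧ ‖b‖ = 1 ∧ LP κ a b M := by
  obtain ⟨ε₁, hε₁, H⟩ := exists_axis.{u} δ κ hδ hκ
  set ε₀ := min ε₁ (1 / 2) with hε₀
  have hε₀pos : 0 < ε₀ := by rw [hε₀]; positivity
  have hle1 : ε₀ ≤ ε₁ := min_le_left _ _
  have hle2 : ε₀ ≤ 1 / 2 := min_le_right _ _
  refine ⟨ε₀, hε₀pos, ?_⟩
  intro X _ _ _ _ hX hRig G M hG2 hM hPh
  have hGf : FiniteDimensional ℂ G := Module.finite_of_finrank_pos (by rw [hG2]; norm_num)
  set Y := G ⊔ M with hYdef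
  have hY : CI Y := CI.sup hGf hM
  have hYc : CompleteSpace Y := hY.closed.completeSpace_coe
  have hsc : SecondCountableTopology X := UniformSpace.secondCountable_of_separable X
  have hGY : G ≤ Y := le_sup_left
  have hMY : M ≤ Y := le_sup_right
  have hdisj : ∀ x ∈ G, x ∈ M → x = 0 := by
    intro x hx1 hx2
    have h1 := hPh (-1) (by simp) x hx1 (-x) (M.neg_mem hx2)
    rw [neg_one_smul, neg_neg, add_neg_cancel, norm_zero, mul_zero, ← two_smul ℂ, norm_smul,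
      Complex.norm_ofNat] at h1
    exact norm_le_zero_iff.1 (by linarith)
  let G' : Submodule ℂ Y := G.comap Y.subtype
  let M' : Submodule ℂ Y := M.comap Y.subtype
  have hcompl : IsCompl G' M' := by
    constructor
    · rw [Submodule.disjoint_def]
      intro x hx1 hx2
      exact Subtype.ext (hdisj x hx1 hx2)
    · rw [codisjoint_iff]
      rw [eq_top_iff]
      intro y _
      obtain ⟨g, hg, m, hm, hgm⟩ := Submodule.mem_sup.1 y.2
      have : y = (⟨g, hGY hg⟩ : Y) + ⟨m, hMY hm⟩ := Subtype.ext hgm.symm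
      rw [this]
      exact Submodule.add_mem_sup hg hm
  let e : G' ≃ₗ[ℂ] G := Submodule.comapSubtypeEquivOfLe hGY
  have hG'2 : finrank ℂ G' = 2 := by rw [e.finrank_eq, hG2]
  have hG'f : FiniteDimensional ℂ G' := Module.finite_of_finrank_pos (by rw [hG'2]; norm_num)
  let bas : Basis (Fin 2) ℂ G' := Module.finBasisOfFinrankEq ℂ G' hG'2
  let pr : Y →ₗ[ℂ] G' := Submodule.projectionOnto G' M' hcompl
  have hpr1 : ∀ x : G', pr x = x := fun x => Submodule.projectionOnto_apply_left hcompl x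
  have hpr2 : ∀ x ∈ M', pr x = 0 := fun x hx =>
    Submodule.projectionOnto_apply_right hcompl ⟨x, hx⟩
  let P : Y →ₗ[ℂ] Y := G'.subtype ∘ₗ pr
  have hPdef : ∀ y, P y = (pr y : Y) := fun _ => rfl
  let g : Fin 2 → Y := fun i => (bas i : Y)
  let γ : Fin 2 → (Y →ₗ[ℂ] ℂ) := fun i => (bas.coord i) ∘ₗ pr
  have hγ : ∀ i j, γ i (g j) = if i = j then 1 else 0 := by
    intro i j
    show bas.coord i (pr (bas j : Y)) = _
    rw [hpr1]
    simp [Finsupp.single_apply, eq_comm]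
  have hPsum : ∀ y, P y = ∑ i, γ i y • g i := by
    intro y
    rw [hPdef]
    have h1 := bas.sum_repr (pr y)
    conv_lhs => rw [← h1]
    rw [Submodule.coe_sum]
    rfl
  have hdec : ∀ y : Y, ∃ x ∈ G, ∃ m ∈ M, (y : X) = x + m ∧ ((P y : Y) : X) = x := by
    intro y
    obtain ⟨x, hx, m, hm, hxm⟩ := Submodule.mem_sup.1 y.2
    refine ⟨x, hx, m, hm, hxm.symm, ?_⟩
    have hy : y = (⟨x, hGY hx⟩ : Y) + ⟨m, hMY hm⟩ := Subtype.ext hxm.symm
    have hm' : (⟨m, hMY hm⟩ : Y) ∈ M' := hm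
    have h1 : pr y = ⟨⟨x, hGY hx⟩, hx⟩ := by
      rw [hy, map_add, hpr2 _ hm', add_zero]
      exact hpr1 ⟨⟨x, hGY hx⟩, hx⟩
    rw [hPdef, h1]
  have hNP : NP ε₀ P := by
    constructor
    · intro y
      rw [hPdef (P y), hPdef y, hpr1]
    · intro ζ hζ y
      obtain ⟨x, hx, m, hm, hy, hPy⟩ := hdec y
      have hζ0 : ζ ≠ 0 := by rintro rfl; simp at hζ
      show ‖(y : X) + (ζ - 1) • ((P y : Y) : X)‖ ≤ (1 + ε₀) * ‖(y : X)‖
      rw [hPy, hy]
      have e1 : x + m + (ζ - 1) • x = ζ • (x + ζ⁻¹ • m) := by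
        rw [smul_add, smul_smul, mul_inv_cancel₀ hζ0]; module
      rw [e1, norm_smul, hζ, one_mul]
      exact hPh ζ⁻¹ (by rw [norm_inv, hζ, inv_one]) x hx m hm
  obtain ⟨a, φ, hPa, hφa, hφP, hNPa⟩ := H Y (hX.sub hY) hY.inf (hRig.sub hY.closed) g γ P hγ hPsum
    (hNP.mono hle1)
  have haG : (a : X) ∈ G := by
    obtain ⟨x, hx, m, hm, hy, hPy⟩ := hdec a
    rw [hPa] at hPy
    rw [hPy]; exact hx
  have ha0 : (a : X) ≠ 0 := by
    intro h0
    have : a = 0 := Subtype.ext h0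
    rw [this, map_zero] at hφa
    exact zero_ne_one hφa
  have hφM : ∀ m : Y, (m : X) ∈ M → φ m = 0 := by
    intro m hm
    rw [← hφP]
    have : P m = 0 := by rw [hPdef, hpr2 m hm]; rfl
    rw [this, map_zero]
  -- the second vector
  obtain ⟨b', hb', hb'0⟩ : ∃ b' : G', φ (b' : Y) = 0 ∧ b' ≠ 0 := by
    have h1 : LinearMap.ker (φ ∘ₗ G'.subtype) ≠ ⊥ := by
      apply LinearMap.ker_ne_bot_of_finrank_lt
      rw [hG'2, finrank_self]; norm_num
    obtain ⟨x, hx1, hx2⟩ := Submodule.exists_mem_ne_zero_of_ne_bot h1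
    exact ⟨x, hx1, hx2⟩
  set b : Y := (b' : Y) with hb
  have hbG : (b : X) ∈ G := b'.2
  have hb0 : (b : X) ≠ 0 := by
    intro h0
    apply hb'0
    exact Subtype.ext (Subtype.ext h0)
  have hna : 0 < ‖(a : X)‖ := norm_pos_iff.2 ha0
  have hnb : 0 < ‖(b : X)‖ := norm_pos_iff.2 hb0
  refine ⟨(‖(a : X)‖⁻¹ : ℂ) • (a : X), G.smul_mem _ haG, (‖(b : X)‖⁻¹ : ℂ) • (b : X),
    G.smul_mem _ hbG, ?_, ?_, ?_⟩
  · rw [norm_smul, norm_inv, Complex.norm_real, norm_norm, inv_mul_cancel₀ hna.ne']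
  · rw [norm_smul, norm_inv, Complex.norm_real, norm_norm, inv_mul_cancel₀ hnb.ne']
  · intro α β ζ hζ m hm
    set c₁ : ℂ := (‖(a : X)‖⁻¹ : ℂ) with hc₁
    set c₂ : ℂ := (‖(b : X)‖⁻¹ : ℂ) with hc₂
    have h1 := hNPa.ph ζ hζ ((α * c₁) • a + (β * c₂) • b + ⟨m, hMY hm⟩)
    have h2 : φ ((α * c₁) • a + (β * c₂) • b + ⟨m, hMY hm⟩) = α * c₁ := by
      rw [map_add, map_add, map_smul, map_smul, hφa, hb, hb', hφM _ hm]
      simp
    rw [LinearMap.smulRight_apply, h2] at h1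
    have h3 : ‖(ζ * α) • c₁ • (a : X) + β • c₂ • (b : X) + m‖
        = ‖(α * c₁) • a + (β * c₂) • b + ⟨m, hMY hm⟩ + (ζ - 1) • (α * c₁) • a‖ := by
      have e1 : (ζ * α) • c₁ • (a : X) + β • c₂ • (b : X) + m
          = (α * c₁) • (a : X) + (β * c₂) • (b : X) + m + (ζ - 1) • (α * c₁) • (a : X) := by
        module
      rw [e1]; rfl
    have h4 : ‖α • c₁ • (a : X) + β • c₂ • (b : X) + m‖
        = ‖(α * c₁) • a + (β * c₂) • b + ⟨m, hMY hm⟩‖ := by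
      have e1 : α • c₁ • (a : X) + β • c₂ • (b : X) + m
          = (α * c₁) • (a : X) + (β * c₂) • (b : X) + m := by module
      rw [e1]; rfl
    rw [h3, h4]
    exact h1

theorem lp_functional {X : Type*} [NormedAddCommGroup X] [NormedSpace ℂ X] {η : ℝ} {a b : X}
    {M : Submodule ℂ X} (hM : IsClosed (M : Set X)) (ha : a ≠ 0) (h : LP η a b M) :
    ∃ φ : X →L[ℂ] ℂ, φ a = 1 ∧ φ b = 0 ∧ ∀ m ∈ M, φ m = 0 := by
  have hcl : IsClosed ((Submodule.span ℂ {b} ⊔ M : Submodule ℂ X) : Set X) := by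
    rw [sup_comm]
    exact Submodule.isClosed_sup_finiteDimensional M _ hM
  have hna : a ∉ Submodule.span ℂ {b} ⊔ M := by
    intro hmem
    obtain ⟨x, hx, m, hm, hxm⟩ := Submodule.mem_sup.1 hmem
    obtain ⟨β, rfl⟩ := Submodule.mem_span_singleton.1 hx
    have h1 := h 1 (-β) (-1) (by simp) (-m) (M.neg_mem hm)
    have e1 : (1 : ℂ) • a + (-β) • b + (-m) = 0 := by rw [← hxm]; module
    have e2 : ((-1 : ℂ) * 1) • a + (-β) • b + (-m) = -((2 : ℂ) • a) := by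
      rw [← hxm]; module
    rw [e1, e2, norm_zero, mul_zero, norm_neg, norm_smul, Complex.norm_ofNat] at h1
    have : ‖a‖ ≤ 0 := by linarith
    exact ha (norm_le_zero_iff.1 this)
  obtain ⟨φ, h1, h2⟩ := exists_functional hcl hna
  refine ⟨φ, h1, ?_, ?_⟩
  · exact h2 b (Submodule.mem_sup_left (Submodule.mem_span_singleton_self b))
  · intro m hm
    exact h2 m (Submodule.mem_sup_right hm)

theorem lp_span {X : Type*} [NormedAddCommGroup X] [NormedSpace ℂ X] {η : ℝ} {a b : X}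
    {G M : Submodule ℂ X} (hG : finrank ℂ G = 2) (ha : a ∈ G) (hb : b ∈ G) (ha0 : a ≠ 0)
    (hb0 : b ≠ 0) (h : LP η a b M) : ∀ y ∈ G, ∃ α β : ℂ, y = α • a + β • b := by
  have hGf : FiniteDimensional ℂ G := Module.finite_of_finrank_pos (by rw [hG]; norm_num)
  have hLI : LinearIndependent ℂ ![(⟨a, ha⟩ : G), ⟨b, hb⟩] := by
    rw [LinearIndependent.pair_iff]
    intro s t hst
    have hst' : s • a + t • b = 0 := congrArg Subtype.val hst
    have h1 := h s t (-1) (by simp) 0 M.zero_mem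
    rw [add_zero, add_zero, hst', norm_zero, mul_zero] at h1
    have h2 : (-1 * s) • a + t • b = 0 := norm_le_zero_iff.1 h1
    have h3 : (2 * s) • a = 0 := by
      have : (2 * s) • a = (s • a + t • b) - ((-1 * s) • a + t • b) := by module
      rw [this, hst', h2, sub_self]
    have hs : s = 0 := by
      rcases smul_eq_zero.1 h3 with h4 | h4
      · simpa using h4
      · exact absurd h4 ha0
    refine ⟨hs, ?_⟩
    rw [hs, zero_smul, zero_add] at hst'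
    rcases smul_eq_zero.1 hst' with h4 | h4
    · exact h4
    · exact absurd h4 hb0
  have hspan := hLI.span_eq_top_of_card_eq_finrank (by rw [Fintype.card_fin, hG])
  intro y hy
  have h1 : (⟨y, hy⟩ : G) ∈ Submodule.span ℂ (Set.range ![(⟨a, ha⟩ : G), ⟨b, hb⟩]) := by
    rw [hspan]; trivial
  rw [Matrix.range_cons, Matrix.range_cons, Matrix.range_empty, Set.union_empty,
    Set.singleton_union, Submodule.mem_span_pair] at h1
  obtain ⟨α, β, hab⟩ := h1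
  exact ⟨α, β, (congrArg Subtype.val hab).symm⟩

/-- Uniqueness of the pair of lines in a plane of a rigid space. -/
theorem uniq_axis (δ κ : ℝ) (hδ : 0 < δ) (hκ : 0 < κ) :
    ∃ η₀ > (0 : ℝ), η₀ ≤ 1 ∧ ∀ (X : Type u) [NormedAddCommGroup X] [NormedSpace ℂ X],
      Rigid δ X → ∀ G M : Submodule ℂ X, finrank ℂ G = 2 → CI M → ∀ a b c d : X,
      a ∈ G → b ∈ G → c ∈ G → d ∈ G → ‖a‖ = 1 → ‖b‖ = 1 → ‖c‖ = 1 → ‖d‖ = 1 →
      LP η₀ a b M → LP η₀ c d M → Cl κ c a ∨ Cl κ c b := by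
  set κ' : ℝ := min (κ / 10) (1 / 10) with hκ'
  have hκ'pos : 0 < κ' := by rw [hκ']; positivity
  have hκ'1 : κ' ≤ 1 / 10 := min_le_right _ _
  have hκ'2 : κ' ≤ κ / 10 := min_le_left _ _
  obtain ⟨ε₁, hε₁, H⟩ := dichotomy.{u} δ κ' hδ hκ'pos
  set η₀ := min ε₁ 1 with hη₀
  have hη₀pos : 0 < η₀ := by rw [hη₀]; positivity
  have hle1 : η₀ ≤ ε₁ := min_le_left _ _
  have hle2 : η₀ ≤ 1 := min_le_right _ _
  refine ⟨η₀, hη₀pos, hle2, ?_⟩
  intro X _ _ hRig G M hG hM a b c d ha hb hc hd ha1 hb1 hc1 hd1 hab hcd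
  have ha0 : a ≠ 0 := by rw [← norm_ne_zero_iff, ha1]; norm_num
  have hb0 : b ≠ 0 := by rw [← norm_ne_zero_iff, hb1]; norm_num
  have hc0 : c ≠ 0 := by rw [← norm_ne_zero_iff, hc1]; norm_num
  have hd0 : d ≠ 0 := by rw [← norm_ne_zero_iff, hd1]; norm_num
  have hGf : FiniteDimensional ℂ G := Module.finite_of_finrank_pos (by rw [hG]; norm_num)
  obtain ⟨φa, ha2, ha3, ha4⟩ := lp_functional hM.closed ha0 hab
  obtain ⟨φc, hc2, hc3, hc4⟩ := lp_functional hM.closed hc0 hcd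
  have hspab := lp_span hG ha hb ha0 hb0 hab
  have hspcd := lp_span hG hc hd hc0 hd0 hcd
  set Y := G ⊔ M with hYdef
  have hY : CI Y := CI.sup hGf hM
  have hGY : G ≤ Y := le_sup_left
  have hMY : M ≤ Y := le_sup_right
  have hNPgen : ∀ (p q : X) (ψ : X →L[ℂ] ℂ) (hp : p ∈ G), LP η₀ p q M → ψ p = 1 → ψ q = 0 →
      (∀ m ∈ M, ψ m = 0) → (∀ y ∈ G, ∃ α β : ℂ, y = α • p + β • q) →
      NP η₀ (((ψ : X →ₗ[ℂ] ℂ) ∘ₗ Y.subtype).smulRight (⟨p, hGY hp⟩ : Y)) := by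
    intro p q ψ hp hpq h1 h2 h3 h4
    constructor
    · intro y
      show ψ (ψ (y : X) • p) • (⟨p, hGY hp⟩ : Y) = ψ (y : X) • ⟨p, hGY hp⟩
      rw [map_smul, h1]; simp
    · intro ζ hζ y
      obtain ⟨x, hx, m, hm, hxm⟩ := Submodule.mem_sup.1 y.2
      obtain ⟨α, β, rfl⟩ := h4 x hx
      show ‖(y : X) + (ζ - 1) • ψ (y : X) • p‖ ≤ (1 + η₀) * ‖(y : X)‖
      have h5 : ψ (y : X) = α := by
        rw [← hxm, map_add, map_add, map_smul, map_smul, h1, h2, h3 m hm]; simp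
      rw [h5, ← hxm]
      have e : α • p + β • q + m + (ζ - 1) • α • p = (ζ * α) • p + β • q + m := by module
      rw [e]
      exact hpq α β ζ hζ m hm
  have hNPa := hNPgen a b φa ha hab ha2 ha3 ha4 hspab
  have hNPc := hNPgen c d φc hc hcd hc2 hc3 hc4 hspcd
  set P : Y →ₗ[ℂ] Y := ((φa : X →ₗ[ℂ] ℂ) ∘ₗ Y.subtype).smulRight (⟨a, hGY ha⟩ : Y) with hP
  have hPc : ∀ y : Y, ((P y : Y) : X) = φa (y : X) • a := fun _ => rfl
  have hCI : CI (LinearMap.ker P) := by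
    have h1 := (CI.top hY.inf).inf_ker' P (hNPa.norm_le hη₀pos.le) (by
      apply Submodule.finiteDimensional_of_le
        (S₂ := Submodule.span ℂ {(⟨a, hGY ha⟩ : Y)})
      rintro _ ⟨x, rfl⟩
      exact Submodule.smul_mem _ _ (Submodule.mem_span_singleton_self _))
    rwa [top_inf_eq] at h1
  have hcval : ((φc : X →ₗ[ℂ] ℂ) ∘ₗ Y.subtype) (⟨c, hGY hc⟩ : Y) = 1 := hc2
  have key := H Y (hRig.sub hY.closed) P (⟨c, hGY hc⟩ : Y) ((φc : X →ₗ[ℂ] ℂ) ∘ₗ Y.subtype)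
    (hNPa.mono hle1) (hNPc.mono hle1) hcval hCI
  obtain ⟨α, β, hcab⟩ := hspab c hc
  have hφac : φa c = α := by
    rw [hcab, map_add, map_smul, map_smul, ha2, ha3]; simp
  have hPc' : ((P (⟨c, hGY hc⟩ : Y) : Y) : X) = α • a := by rw [hPc, ← hφac]
  have hcP : (((⟨c, hGY hc⟩ : Y) - P (⟨c, hGY hc⟩ : Y) : Y) : X) = β • b := by
    rw [Submodule.coe_sub, hPc']
    show c - α • a = β • b
    rw [hcab]; abel
  have hPn : ‖α • a‖ ≤ 2 := by
    have h1 := hNPa.norm_le hη₀pos.le (⟨c, hGY hc⟩ : Y)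
    have h2 : ‖(P (⟨c, hGY hc⟩ : Y) : Y)‖ = ‖α • a‖ := by rw [← hPc']; rfl
    have h3 : ‖(⟨c, hGY hc⟩ : Y)‖ = 1 := hc1
    rw [h2, h3] at h1
    linarith
  rcases key with ⟨-, h2, -⟩ | ⟨-, h2, -⟩
  · left
    have h3 : ‖c - α • a‖ ≤ κ' * ‖α • a‖ := by
      have e1 : ‖(⟨c, hGY hc⟩ : Y) - P (⟨c, hGY hc⟩ : Y)‖ = ‖c - α • a‖ := by
        rw [← hPc']; rfl
      have e2 : ‖P (⟨c, hGY hc⟩ : Y)‖ = ‖α • a‖ := by rw [← hPc']; rfl
      rw [e1, e2] at h2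
      exact h2
    have h4 : ‖c - α • a‖ ≤ 2 * κ' := by nlinarith
    exact (Cl.of_smul ha1 hc1 (by linarith) h4).mono (by linarith)
  · right
    have h3 : ‖c - β • b‖ ≤ 3 * κ' := by
      have e1 : ‖(⟨c, hGY hc⟩ : Y) - P (⟨c, hGY hc⟩ : Y)‖ = ‖β • b‖ := by
        rw [← hcP]; rfl
      have e2 : ‖P (⟨c, hGY hc⟩ : Y)‖ = ‖α • a‖ := by rw [← hPc']; rfl
      rw [e1, e2] at h2
      have e3 : c - β • b = α • a := by rw [hcab]; abel
      have e4 : ‖β • b‖ ≤ 3 := by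
        have : β • b = c - α • a := by rw [hcab]; abel
        rw [this]
        refine (norm_sub_le _ _).trans ?_
        linarith
      rw [e3]
      nlinarith
    exact (Cl.of_smul hb1 hc1 (by linarith) h3).mono (by linarith)

end Pool.Agent.TH319
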