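import Pool.Agent.TH319.NearFix

/-!
Asymptotic unconditionality: for a homogeneous space and a finite-dimensional subspace `G`,
any closed infinite-dimensional subspace contains a further one, `M`, such that multiplying the
`M`-part of a vector of `G + M` by a scalar of modulus one almost preserves the norm.
-/

namespace Pool.Agent.TH319

open Module

variable {𝕜 : Type*} [RCLike 𝕜] {X : Type*} [NormedAddCommGroup X] [NormedSpace 𝕜 X]

theorem iter_near' (W : X →ₗᵢ[𝕜] X) {lam : 𝕜} (hlam : ‖lam‖ = 1) {z : X} {δ : ℝ}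
    (hz : ‖W z - lam • z‖ ≤ δ) (k : ℕ) : ‖(W : X → X)^[k] z - lam ^ k • z‖ ≤ k * δ := by
  induction k with
  | zero => simp
  | succ k ih =>
    rw [Function.iterate_succ_apply']
    have h1 : W ((W : X → X)^[k] z) - lam ^ (k + 1) • z
        = W ((W : X → X)^[k] z - lam ^ k • z) + lam ^ k • (W z - lam • z) := by
      rw [map_sub, map_smul, smul_sub, smul_smul, pow_succ]
      abel
    rw [h1]
    calc _ ≤ ‖W ((W : X → X)^[k] z - lam ^ k • z)‖ + ‖lam ^ k • (W z - lam • z)‖ :=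
          norm_add_le _ _
      _ ≤ k * δ + δ := by
          rw [W.norm_map, norm_smul, norm_pow, hlam, one_pow, one_mul]
          exact add_le_add ih hz
      _ = _ := by push_cast; ring

theorem norm_iterate' (W : X →ₗᵢ[𝕜] X) (k : ℕ) (x : X) : ‖(W : X → X)^[k] x‖ = ‖x‖ := by
  induction k with
  | zero => simp
  | succ k ih => rw [Function.iterate_succ_apply', W.norm_map, ih]

theorem iterate_add' (W : X →ₗᵢ[𝕜] X) (k : ℕ) (x y : X) :
    (W : X → X)^[k] (x + y) = (W : X → X)^[k] x + (W : X → X)^[k] y := by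
  induction k with
  | zero => simp
  | succ k ih =>
    rw [Function.iterate_succ_apply', ih, map_add, Function.iterate_succ_apply',
      Function.iterate_succ_apply']

/-- The existence of approximate eigenvectors for the scalar `lam`. -/
def HasApp (X : Type*) [NormedAddCommGroup X] [NormedSpace 𝕜 X] (lam : 𝕜) : Prop :=
  ∀ W : X →ₗᵢ[𝕜] X, ¬ Function.Surjective W → ∀ L : Submodule 𝕜 X, IsClosed (L : Set X) →
    Module.Finite 𝕜 (X ⧸ L) → ∀ δ > 0, ∃ u ∈ L, ‖u‖ = 1 ∧ ‖W u - lam • u‖ ≤ δ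

theorem reflect_aux [TopologicalSpace.SeparableSpace X] (hX : Homog 𝕜 X)
    (hinf : ¬ FiniteDimensional 𝕜 X) (G : Submodule 𝕜 X) [FiniteDimensional 𝕜 G]
    (P : X →L[𝕜] G) (hP : ∀ g : G, P g = g) (L0 : Submodule 𝕜 X) (hL0c : IsClosed (L0 : Set X))
    (hL0 : Module.Finite 𝕜 (X ⧸ L0)) (lam : 𝕜) (hlam : ‖lam‖ = 1) (happ : HasApp X lam)
    (K : ℕ) {ε : ℝ} (hε : 0 < ε) :
    ∃ M : Submodule 𝕜 X, CI M ∧ M ≤ L0 ⊓ LinearMap.ker (P : X →ₗ[𝕜] G) ∧
      ∀ k ≤ K, ∀ g ∈ G, ∀ m ∈ M, ‖g + lam ^ k • m‖ ≤ (1 + ε) * ‖g + m‖ := by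
  set C : ℝ := 1 + 2 * ‖P‖ with hC
  have hCpos : 0 < C := by positivity
  set δ : ℝ := ε / ((K + 1) * C) with hδ
  have hδpos : 0 < δ := by positivity
  obtain ⟨W, hW1, hW2⟩ := exists_near_fix hX hinf G hδpos
  have hcl : IsClosed ((L0 ⊓ LinearMap.ker (P : X →ₗ[𝕜] G) : Submodule 𝕜 X) : Set X) :=
    hL0c.inter P.isClosed_ker
  have hfin : Module.Finite 𝕜 (X ⧸ (L0 ⊓ LinearMap.ker (P : X →ₗ[𝕜] G))) :=
    finite_quotient_inf hL0 (finite_quotient_ker _)
  obtain ⟨M, hM1, hM2, hM3⟩ := exists_CI_small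
    (W.toContinuousLinearMap - lam • (1 : X →L[𝕜] X)) _ hcl hfin hδpos (by
      intro L hL1 hL2 δ' hδ'
      obtain ⟨u, hu1, hu2, hu3⟩ := happ W hW1 L hL1 hL2 δ' hδ'
      exact ⟨u, hu1, hu2, by simpa using hu3⟩)
  refine ⟨M, hM1, hM2, ?_⟩
  intro k hk g hg m hm
  have hPm : P m = 0 := LinearMap.mem_ker.1 (Submodule.mem_inf.1 (hM2 hm)).2
  have hPg : P g = ⟨g, hg⟩ := hP ⟨g, hg⟩
  have h1 : ‖g‖ ≤ ‖P‖ * ‖g + m‖ := by
    have h2 : P (g + m) = ⟨g, hg⟩ := by rw [map_add, hPm, hPg, add_zero]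
    have h3 := P.le_opNorm (g + m)
    rw [h2] at h3
    exact h3
  have h2 : ‖m‖ ≤ (1 + ‖P‖) * ‖g + m‖ := by
    have h3 : ‖m‖ ≤ ‖g + m‖ + ‖g‖ := by
      have := norm_sub_le (g + m) g
      rwa [add_sub_cancel_left] at this
    linarith
  have hWg := iter_near' W (lam := 1) (by simp) (z := g) (δ := δ * ‖g‖)
    (by simpa using hW2 g hg) k
  have hWm := iter_near' W hlam (z := m) (δ := δ * ‖m‖) (by simpa using hM3 m hm) k
  rw [one_pow, one_smul] at hWg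
  have h4 : g + lam ^ k • m = (W : X → X)^[k] (g + m) - ((W : X → X)^[k] g - g)
      - ((W : X → X)^[k] m - lam ^ k • m) := by
    rw [iterate_add']; abel
  rw [h4]
  have hkK : (k : ℝ) ≤ K + 1 := by
    have : (k : ℝ) ≤ K := by exact_mod_cast hk
    linarith
  calc _ ≤ ‖(W : X → X)^[k] (g + m) - ((W : X → X)^[k] g - g)‖
        + ‖(W : X → X)^[k] m - lam ^ k • m‖ := norm_sub_le _ _
    _ ≤ (‖(W : X → X)^[k] (g + m)‖ + ‖(W : X → X)^[k] g - g‖)
        + ‖(W : X → X)^[k] m - lam ^ k • m‖ := by gcongr; exact norm_sub_le _ _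
    _ ≤ (‖g + m‖ + k * (δ * ‖g‖)) + k * (δ * ‖m‖) := by
        rw [norm_iterate']; gcongr
    _ = ‖g + m‖ + k * δ * (‖g‖ + ‖m‖) := by ring
    _ ≤ ‖g + m‖ + (K + 1) * δ * (C * ‖g + m‖) := by
        gcongr
        rw [hC]; linarith
    _ = (1 + ε) * ‖g + m‖ := by
        rw [hδ]; field_simp

/-- The relative phase property of a pair of subspaces. -/
def Ph (ε : ℝ) (G M : Submodule 𝕜 X) : Prop :=
  ∀ ζ : 𝕜, ‖ζ‖ = 1 → ∀ g ∈ G, ∀ m ∈ M, ‖g + ζ • m‖ ≤ (1 + ε) * ‖g + m‖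

/-- The class of scalar fields and the statement that the phase property can be achieved inside a
given closed subspace of finite codimension. -/
def PhLocal (X : Type*) [NormedAddCommGroup X] [NormedSpace 𝕜 X] : Prop :=
  ∀ G : Submodule 𝕜 X, FiniteDimensional 𝕜 G → ∀ L0 : Submodule 𝕜 X, IsClosed (L0 : Set X) →
    Module.Finite 𝕜 (X ⧸ L0) → ∀ ε > 0, ∃ M : Submodule 𝕜 X, CI M ∧ M ≤ L0 ∧ Ph ε G M

/-- Transfer of the phase property to arbitrary closed infinite-dimensional subspaces. -/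
theorem ph_of_local {G K : Submodule 𝕜 X} (hG : FiniteDimensional 𝕜 G) (hK : CI K)
    (h : PhLocal (𝕜 := 𝕜) (G ⊔ K : Submodule 𝕜 X)) {ε : ℝ} (hε : 0 < ε) :
    ∃ M : Submodule 𝕜 X, CI M ∧ M ≤ K ∧ Ph ε G M := by
  set Y : Submodule 𝕜 X := G ⊔ K with hY
  have hYc : IsClosed (Y : Set X) := by
    rw [hY, sup_comm]
    exact Submodule.isClosed_sup_finiteDimensional K G hK.closed
  let G' : Submodule 𝕜 Y := G.comap Y.subtype
  let K' : Submodule 𝕜 Y := K.comap Y.subtype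
  have hGY : G ≤ Y := le_sup_left
  have hKY : K ≤ Y := le_sup_right
  have hG' : FiniteDimensional 𝕜 G' :=
    LinearEquiv.finiteDimensional (Submodule.comapSubtypeEquivOfLe hGY).symm
  have hK'c : IsClosed (K' : Set Y) := hK.closed.preimage continuous_subtype_val
  have hK'f : Module.Finite 𝕜 (Y ⧸ K') := by
    let f : G →ₗ[𝕜] (Y ⧸ K') := K'.mkQ.comp (Submodule.inclusion hGY)
    apply Module.Finite.of_surjective f
    intro y
    obtain ⟨y, rfl⟩ := Submodule.Quotient.mk_surjective _ y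
    obtain ⟨g, hg, k, hk, hgk⟩ := Submodule.mem_sup.1 y.2
    refine ⟨⟨g, hg⟩, ?_⟩
    show Submodule.Quotient.mk _ = Submodule.Quotient.mk _
    rw [Submodule.Quotient.eq]
    show ((Submodule.inclusion hGY ⟨g, hg⟩ - y : Y) : X) ∈ K
    have : ((Submodule.inclusion hGY ⟨g, hg⟩ - y : Y) : X) = -k := by
      rw [Submodule.coe_sub, ← hgk]; simp
    rw [this]
    exact K.neg_mem hk
  obtain ⟨M', hM1, hM2, hM3⟩ := h G' hG' K' hK'c hK'f ε hε
  refine ⟨M'.map Y.subtype, hM1.map hYc, ?_, ?_⟩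
  · rintro _ ⟨m, hm, rfl⟩
    exact hM2 hm
  · rintro ζ hζ g hg _ ⟨m, hm, rfl⟩
    exact hM3 ζ hζ ⟨g, hGY hg⟩ hg m hm

end Pool.Agent.TH319
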