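import Pool.Agent.TH319.Tricho
import Pool.Agent.TH319.NotRigid

/-!
One stage of the construction of almost unitarily invariant pairs relative to a
finite-dimensional subspace.
-/

namespace Pool.Agent.TH319

open Module Filter Topology

universe u

/-- The failure of the existence of pairs relative to `E` inside `K`. -/
def Fl {X : Type*} [NormedAddCommGroup X] [NormedSpace ℂ X] (δ : ℝ) (E K : Submodule ℂ X) :
    Prop :=
  ∀ u ∈ K, ∀ v ∈ K, u ≠ 0 → ∀ K' : Submodule ℂ X, K' ≤ K → CI K' → ¬ NU δ u v (E ⊔ K')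

/-- The induction hypothesis. -/
def Pd (X : Type*) [NormedAddCommGroup X] [NormedSpace ℂ X] (d : ℕ) : Prop :=
  ∀ E : Submodule ℂ X, FiniteDimensional ℂ E → finrank ℂ E ≤ d → ∀ K : Submodule ℂ X, CI K →
    ∀ δ > 0, ∃ u ∈ K, ∃ v ∈ K, u ≠ 0 ∧ ∃ K' : Submodule ℂ X, K' ≤ K ∧ CI K' ∧ NU δ u v (E ⊔ K')

/-- The partner data relative to `E` inside `K`. -/
def Pn {X : Type*} [NormedAddCommGroup X] [NormedSpace ℂ X] (δ : ℝ) (E K : Submodule ℂ X)
    (e : E) (ψ : E →ₗ[ℂ] ℂ) (m : X) (K' : Submodule ℂ X) : Prop :=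
  ‖e‖ = 1 ∧ ψ e = 1 ∧ m ∈ K ∧ K' ≤ K ∧ CI K' ∧
    NU δ (e : X) m ((LinearMap.ker ψ).map E.subtype ⊔ K')

theorem stage {X : Type u} [NormedAddCommGroup X] [NormedSpace ℂ X] [CompleteSpace X]
    [TopologicalSpace.SeparableSpace X] (hX : Homog ℂ X) {d : ℕ} (hPd : Pd X d)
    {δ δ₁ : ℝ} (hδ : 0 < δ) (hδ₁ : 0 < δ₁) {E K : Submodule ℂ X} (hE : FiniteDimensional ℂ E)
    (hEd : finrank ℂ E ≤ d + 1) (hK : CI K) (hF : Fl δ E K) :
    ∃ (e : E) (ψ : E →ₗ[ℂ] ℂ) (m : X) (K' : Submodule ℂ X), Pn δ₁ E K e ψ m K' := by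
  set δ₂ : ℝ := min (min δ₁ 1) (δ / 7) with hδ₂
  have hδ₂0 : 0 < δ₂ := by rw [hδ₂]; positivity
  have g1 : δ₂ ≤ δ₁ := (min_le_left _ _).trans (min_le_left _ _)
  have g2 : δ₂ ≤ 1 := (min_le_left _ _).trans (min_le_right _ _)
  have g3 : δ₂ ≤ δ / 7 := min_le_right _ _
  have g4 : (1 + δ₂) * (1 + δ₂) * (1 + δ₂) - 1 ≤ δ := by nlinarith [mul_pos hδ₂0 hδ₂0]
  have g5 : δ₂ ≤ δ := by linarith
  obtain ⟨ε₀, hε₀, HT⟩ := trichotomy.{u} δ₂ hδ₂0
  obtain ⟨M, hM, hMK, hPh⟩ := ph_complex hX hE hK hε₀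
  obtain ⟨P, hP, hP1, hP2, hP3, hP4⟩ := exists_NP_of_Ph hPh
  have hY : CI (E ⊔ M) := CI.sup hE hM
  have hYc : CompleteSpace (E ⊔ M : Submodule ℂ X) := hY.closed.completeSpace_coe
  have hsc : SecondCountableTopology X := UniformSpace.secondCountable_of_separable X
  have hnr : ¬ Rigid ε₀ (E ⊔ M : Submodule ℂ X) := not_rigid (hX.sub hY) hY.inf hε₀
  obtain ⟨u, v, φu, φv, hu0, h1, h2, h3, h4, hNU⟩ := uu_top (hX.sub hY) hε₀ hnr
  have key := HT _ P u v (φu : (E ⊔ M : Submodule ℂ X) →ₗ[ℂ] ℂ)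
    (φv : (E ⊔ M : Submodule ℂ X) →ₗ[ℂ] ℂ) hP hu0 h1 h2 h3 h4 hNU
  have hEY : E ≤ E ⊔ M := le_sup_left
  have hMY : M ≤ E ⊔ M := le_sup_right
  -- the remainder space
  set N' : Submodule ℂ (E ⊔ M : Submodule ℂ X) := Nn P φu φv with hN'
  have hfinP : FiniteDimensional ℂ (LinearMap.range P) := by
    have h5 : LinearMap.range P ≤ E.comap (E ⊔ M).subtype := by
      rintro _ ⟨x, rfl⟩
      exact hP3 x
    have h6 : FiniteDimensional ℂ (E.comap (E ⊔ M).subtype) :=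
      LinearEquiv.finiteDimensional (Submodule.comapSubtypeEquivOfLe hEY).symm
    exact Submodule.finiteDimensional_of_le h5
  have hN'CI : CI N' := by
    have h5 := (CI.top hY.inf).inf_ker' P (hP.norm_le hε₀.le) hfinP
    rw [top_inf_eq] at h5
    exact (h5.inf_ker φu).inf_ker φv
  set M₀ : Submodule ℂ X := N'.map (E ⊔ M).subtype with hM₀
  have hM₀CI : CI M₀ := hN'CI.map hY.closed
  have hM₀M : M₀ ≤ M := by
    rintro _ ⟨x, hx, rfl⟩
    exact hP4 x (LinearMap.mem_ker.1 hx.1.1)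
  have hM₀K : M₀ ≤ K := hM₀M.trans hMK
  have hErange : ∀ x (hx : x ∈ E), (⟨x, hEY hx⟩ : (E ⊔ M : Submodule ℂ X)) ∈ LinearMap.range P :=
    fun x hx => ⟨⟨x, hEY hx⟩, hP1 _ hx⟩
  rcases key with hA | hB | hC
  · -- a pair in the kernel contradicts failure
    exfalso
    obtain ⟨u', v', b1, b2, b3, b4⟩ := hA
    apply hF (u' : X) (hMK (hP4 _ b1)) (v' : X) (hMK (hP4 _ b2)) _ M₀ hM₀K hM₀CI
    · apply (b4.toSup.mono g5).mono_sub
      apply sup_le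
      · intro x hx
        exact ⟨⟨x, hEY hx⟩, Submodule.mem_sup_left (hErange x hx), rfl⟩
      · exact Submodule.map_mono le_sup_right
    · intro h0
      exact b3 (Subtype.ext h0)
  · -- a pair across
    obtain ⟨e, m, φ, b1, b2, b3, b4, b5⟩ := hB
    have heE : (e : X) ∈ E := by rw [← b1]; exact hP3 e
    have hen : 0 < ‖(e : X)‖ := by
      rw [norm_pos_iff]
      intro h0
      exact b3 (Subtype.ext h0)
    set c : ℝ := ‖(e : X)‖⁻¹ with hc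
    have hcpos : 0 < c := by rw [hc]; positivity
    have hcC : (c : ℂ) ≠ 0 := by exact_mod_cast hcpos.ne'
    let ι : E →ₗ[ℂ] (E ⊔ M : Submodule ℂ X) := Submodule.inclusion hEY
    refine ⟨(c : ℂ) • (⟨(e : X), heE⟩ : E), (((c : ℂ) * φ e)⁻¹) • (φ ∘ₗ ι),
      (c : ℂ) • (m : X), M₀, ?_, ?_, ?_, hM₀K, hM₀CI, ?_⟩
    · rw [norm_smul, Complex.norm_real, Real.norm_eq_abs, abs_of_pos hcpos]
      exact inv_mul_cancel₀ hen.ne'
    · rw [map_smul]
      show (c : ℂ) * (((c : ℂ) * φ e)⁻¹ * φ e) = 1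
      field_simp
    · exact K.smul_mem _ (hMK (hP4 _ b2))
    · have h5 := (b5.toSup.mono g1).pos_smul hcpos.le
      apply h5.mono_sub
      apply sup_le
      · rintro _ ⟨x, hx, rfl⟩
        have hx' : (((c : ℂ) * φ e)⁻¹) * φ (ι x) = 0 := LinearMap.mem_ker.1 hx
        have hx2 : φ (ι x) = 0 := by
          rcases mul_eq_zero.1 hx' with h6 | h6
          · exact absurd h6 (inv_ne_zero (mul_ne_zero hcC b4))
          · exact h6
        refine ⟨ι x, Submodule.mem_sup_left ⟨hErange x x.2, hx2⟩, rfl⟩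
      · exact Submodule.map_mono le_sup_right
  · -- a pair in the range: use the induction hypothesis
    exfalso
    obtain ⟨u', v', b1, b2, b3, b4⟩ := hC
    have hu'E : u' ∈ LinearMap.range P := ⟨u', b1⟩
    have hv'E : v' ∈ LinearMap.range P := ⟨v', b2⟩
    have hdec := NU.decomp b3 hu'E hv'E (b4.mono_sub le_sup_left)
    set E₀ : Submodule ℂ X := (LinearMap.range P ⊓ LinearMap.ker (φu : _ →ₗ[ℂ] ℂ) ⊓
      LinearMap.ker (φv : _ →ₗ[ℂ] ℂ)).map (E ⊔ M).subtype with hE₀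
    have hE₀E : E₀ ≤ E := by
      rintro _ ⟨x, ⟨⟨⟨y, rfl⟩, -⟩, -⟩, rfl⟩
      exact hP3 y
    have hdecX : ∀ x ∈ E, ∃ α β : ℂ, ∃ x₀ ∈ E₀, x = α • (u' : X) + β • (v' : X) + x₀ := by
      intro x hx
      obtain ⟨α, β, x₀, hx₀, h5⟩ := hdec ⟨x, hEY hx⟩ (hErange x hx)
      exact ⟨α, β, x₀, ⟨x₀, hx₀, rfl⟩, congrArg Subtype.val h5⟩
    have hNUX : NU δ₂ (u' : X) (v' : X) (E₀ ⊔ M₀) := by
      have h5 := b4.toSup
      rw [Submodule.map_sup] at h5
      exact h5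
    have hu'0 : (u' : X) ≠ 0 := fun h0 => b3 (Subtype.ext h0)
    have hu'EX : (u' : X) ∈ E := by rw [← b1]; exact hP3 u'
    have hv'EX : (v' : X) ∈ E := by rw [← b2]; exact hP3 v'
    set E₁ : Submodule ℂ X := Submodule.span ℂ {(u' : X)} ⊔ E₀ with hE₁
    have hE₁E : E₁ ≤ E := by
      apply sup_le _ hE₀E
      rw [Submodule.span_singleton_le_iff_mem]
      exact hu'EX
    have hE₁f : FiniteDimensional ℂ E₁ := Submodule.finiteDimensional_of_le hE₁E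
    have hv'E₁ : (v' : X) ∉ E₁ := by
      intro hmem
      obtain ⟨y, hy, x₀, hx₀, h5⟩ := Submodule.mem_sup.1 hmem
      obtain ⟨α, rfl⟩ := Submodule.mem_span_singleton.1 hy
      have h6 : α • (u' : X) + (-1 : ℂ) • (v' : X) + x₀ = 0 := by
        rw [← h5]; module
      have h7 := (hNUX.indep hu'0 (Submodule.mem_sup_left hx₀) h6).2
      norm_num at h7
    have hlt : E₁ < E := by
      refine lt_of_le_of_ne hE₁E ?_
      intro h5
      apply hv'E₁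
      rw [h5]
      exact hv'EX
    have hfr : finrank ℂ E₁ ≤ d := by
      have := Submodule.finrank_lt_finrank_of_lt hlt
      omega
    obtain ⟨a, ha, b, hb, ha0, K', hK', hK'CI, hab⟩ := hPd E₁ hE₁f hfr M₀ hM₀CI δ₂ hδ₂0
    have h8 := NU.extend hδ₂0.le hδ₂0.le hdecX hNUX ha hb hK' hab
    exact hF a (hM₀K ha) b (hM₀K hb) ha0 K' (hK'.trans hM₀K) hK'CI (h8.mono g4)

/-- The bound for the functionals of the partner data. -/
theorem pn_bound {X : Type*} [NormedAddCommGroup X] [NormedSpace ℂ X] {δ : ℝ} (hδ0 : 0 ≤ δ)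
    (hδ : δ ≤ 1) {E K K' : Submodule ℂ X} {e : E} {ψ : E →ₗ[ℂ] ℂ} {m : X}
    (h : Pn δ E K e ψ m K') (x : E) : ‖ψ x‖ ≤ 3 * ‖x‖ := by
  obtain ⟨h1, h2, -, -, -, h3⟩ := h
  have hk : ((x - ψ x • e : E) : X) ∈ (LinearMap.ker ψ).map E.subtype ⊔ K' := by
    apply Submodule.mem_sup_left
    refine ⟨x - ψ x • e, ?_, rfl⟩
    show ψ (x - ψ x • e) = 0
    rw [map_sub, map_smul, h2]; simp
  have h4 := h3.phase1 hδ0 (ζ := -1) (by simp) (ψ x) 0 hk
  rw [zero_smul, add_zero, add_zero] at h4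
  have e1 : ψ x • (e : X) + ((x - ψ x • e : E) : X) = x := by
    rw [Submodule.coe_sub, Submodule.coe_smul]; abel
  have e2 : (-1 * ψ x) • (e : X) + ((x - ψ x • e : E) : X) = x - (2 : ℂ) • ψ x • (e : X) := by
    rw [Submodule.coe_sub, Submodule.coe_smul]; module
  rw [e1, e2] at h4
  have h5 : ‖(2 : ℂ) • ψ x • (e : X)‖ ≤ ‖(x : X)‖ + (1 + ((1 + δ) ^ 2 - 1)) * ‖(x : X)‖ := by
    have h6 : (2 : ℂ) • ψ x • (e : X) = x - (x - (2 : ℂ) • ψ x • (e : X)) := by abel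
    rw [h6]
    exact (norm_sub_le _ _).trans (by gcongr)
  have h7 : ‖(e : X)‖ = 1 := h1
  rw [norm_smul, norm_smul, h7, mul_one, Complex.norm_ofNat] at h5
  have h8 : ‖(x : X)‖ = ‖x‖ := rfl
  rw [h8] at h5
  have h9 : (1 + δ) ^ 2 ≤ 4 := by nlinarith
  nlinarith [norm_nonneg x]

theorem exists_close_pair {V : Type*} [NormedAddCommGroup V] [ProperSpace V]
    (x : ℕ → V) {C : ℝ} (hx : ∀ n, ‖x n‖ ≤ C) {ρ : ℝ} (hρ : 0 < ρ) :
    ∃ i k : ℕ, i < k ∧ ‖x i - x k‖ ≤ ρ := by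
  obtain ⟨a, -, φ, hφ, hlim⟩ := tendsto_subseq_of_bounded
    (Metric.isBounded_closedBall (x := (0 : V)) (r := C))
    (fun n => mem_closedBall_zero_iff.2 (hx n))
  have hc := hlim.cauchySeq
  rw [Metric.cauchySeq_iff] at hc
  obtain ⟨N, hN⟩ := hc ρ hρ
  refine ⟨φ N, φ (N + 1), hφ (Nat.lt_succ_self N), ?_⟩
  have := hN N le_rfl (N + 1) (Nat.le_succ N)
  rw [dist_eq_norm] at this
  exact this.le

theorem pd_succ {X : Type u} [NormedAddCommGroup X] [NormedSpace ℂ X] [CompleteSpace X]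
    [TopologicalSpace.SeparableSpace X] (hX : Homog ℂ X) {d : ℕ} (hPd : Pd X d) :
    Pd X (d + 1) := by
  intro E hE hEd K hK δ hδ
  by_contra hcon
  have hF : Fl δ E K := by
    intro u hu v hv hu0 K' hK' hCI hNU
    exact hcon ⟨u, hu, v, hv, hu0, K', hK', hCI, hNU⟩
  obtain ⟨δ₀, hδ₀, ρ, hρ, HC⟩ := nu_combine.{u} δ hδ
  set δ₁ := min δ₀ 1 with hδ₁
  have hδ₁0 : 0 < δ₁ := by rw [hδ₁]; positivity
  have hδ₁1 : δ₁ ≤ 1 := min_le_right _ _
  have hδ₁2 : δ₁ ≤ δ₀ := min_le_left _ _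
  obtain ⟨K₀, hK₀, hK₀K, hPh⟩ := ph_complex hX hE hK (one_pos)
  have hbd : ∀ x ∈ E, ∀ k ∈ K₀, ‖x‖ ≤ 2 * ‖x + k‖ := by
    intro x hx k hk
    have h1 := hPh (-1) (by simp) x hx k hk
    have h2 : ‖(2 : ℂ) • x‖ ≤ ‖x + k‖ + ‖x + (-1 : ℂ) • k‖ := by
      have : (2 : ℂ) • x = (x + k) + (x + (-1 : ℂ) • k) := by module
      rw [this]; exact norm_add_le _ _
    rw [norm_smul, Complex.norm_ofNat] at h2
    have := norm_nonneg (x + k)
    linarith
  let S := {L : Submodule ℂ X // CI L ∧ L ≤ K₀}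
  have hnext : ∀ s : S, ∃ (e : E) (ψ : E →ₗ[ℂ] ℂ) (m : X) (s' : S), Pn δ₁ E s.1 e ψ m s'.1 := by
    intro s
    have hFs : Fl δ E s.1 := by
      intro u hu v hv hu0 K' hK' hCI
      exact hF u (hK₀K (s.2.2 hu)) v (hK₀K (s.2.2 hv)) hu0 K'
        (hK'.trans (s.2.2.trans hK₀K)) hCI
    obtain ⟨e, ψ, m, K', h⟩ := stage hX hPd hδ hδ₁0 hE hEd s.2.1 hFs
    exact ⟨e, ψ, m, ⟨K', h.2.2.2.2.1, h.2.2.2.1.trans s.2.2⟩, h⟩
  choose fe fψ fm fs hf using hnext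
  let s0 : S := ⟨K₀, hK₀, le_rfl⟩
  let sq : ℕ → S := fun n => Nat.rec s0 (fun _ s => fs s) n
  have hsq : ∀ i, sq (i + 1) = fs (sq i) := fun i => rfl
  have hmono : ∀ i j, i ≤ j → (sq j).1 ≤ (sq i).1 := by
    intro i j hij
    induction hij with
    | refl => exact le_rfl
    | @step j _ ih =>
      rw [Nat.succ_eq_add_one, hsq]
      exact (hf (sq j)).2.2.2.1.trans ih
  let ψL : ℕ → (E →L[ℂ] ℂ) := fun i => LinearMap.toContinuousLinearMap (fψ (sq i))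
  have hψL : ∀ i x, ψL i x = fψ (sq i) x := fun i x => rfl
  have hψn : ∀ i, ‖ψL i‖ ≤ 3 := by
    intro i
    apply ContinuousLinearMap.opNorm_le_bound _ (by norm_num)
    intro x
    exact pn_bound hδ₁0.le hδ₁1 (hf (sq i)) x
  have hprop1 : ProperSpace E := FiniteDimensional.proper ℂ E
  have hprop2 : ProperSpace (E →L[ℂ] ℂ) := by
    have : FiniteDimensional ℂ (E →L[ℂ] ℂ) := inferInstance
    exact FiniteDimensional.proper ℂ (E →L[ℂ] ℂ)
  obtain ⟨i, k, hik, hclose⟩ := exists_close_pair (fun i => (fe (sq i), ψL i)) (C := 3) (by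
    intro n
    rw [Prod.norm_def]
    apply max_le
    · have : ‖fe (sq n)‖ = 1 := (hf (sq n)).1
      rw [this]; norm_num
    · exact hψn n) hρ
  rw [Prod.norm_def, max_le_iff] at hclose
  obtain ⟨c1, c2⟩ := hclose
  have hi := hf (sq i)
  have hk := hf (sq k)
  have hKle : (fs (sq k)).1 ≤ (fs (sq i)).1 := by
    rw [← hsq, ← hsq]
    exact hmono (i + 1) (k + 1) (by omega)
  have hmk : fm (sq k) ∈ (fs (sq i)).1 := by
    rw [← hsq]
    exact hmono (i + 1) k (by omega) hk.2.2.1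
  have key := HC X E (fs (sq i)).1 (fs (sq k)).1 (fe (sq i)) (fe (sq k)) (fm (sq i)) (fm (sq k))
    (fψ (sq i)) (fψ (sq k)) hi.1 hk.1 hi.2.1 hk.2.1 (pn_bound hδ₁0.le hδ₁1 hi)
    (pn_bound hδ₁0.le hδ₁1 hk) c1
    (by
      intro x
      have h1 : ‖fψ (sq i) x - fψ (sq k) x‖ ≤ ‖ψL i - ψL k‖ * ‖x‖ :=
        (ψL i - ψL k).le_opNorm x
      exact h1.trans (by gcongr; exact c2))
    hKle hmk (fun x hx k hk => hbd x hx k ((fs (sq i)).2.2 hk))
    (hi.2.2.2.2.2.mono hδ₁2) (hk.2.2.2.2.2.mono hδ₁2)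
  apply hF (fm (sq i)) (hK₀K ((sq i).2.2 hi.2.2.1)) (fm (sq k)) (hK₀K ((sq k).2.2 hk.2.2.1))
    key.1 (fs (sq k)).1 ((fs (sq k)).2.2.trans hK₀K) (fs (sq k)).2.1 key.2

theorem pd_zero {X : Type u} [NormedAddCommGroup X] [NormedSpace ℂ X] [CompleteSpace X]
    [TopologicalSpace.SeparableSpace X] (hX : Homog ℂ X) : Pd X 0 := by
  intro E hE hEd K hK δ hδ
  have hE0 : E = ⊥ := Submodule.finrank_eq_zero.1 (Nat.le_zero.1 hEd)
  have hKc : CompleteSpace K := hK.closed.completeSpace_coe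
  have hsc : SecondCountableTopology X := UniformSpace.secondCountable_of_separable X
  have hnr : ¬ Rigid δ K := not_rigid (hX.sub hK) hK.inf hδ
  unfold Rigid at hnr
  push Not at hnr
  obtain ⟨u, v, K', hu0, hK', hNU⟩ := hnr
  refine ⟨u, u.2, v, v.2, fun h0 => hu0 (Subtype.ext h0), K'.map K.subtype, ?_,
    hK'.map hK.closed, ?_⟩
  · exact Submodule.map_subtype_le K K'
  · rw [hE0, bot_sup_eq]
    exact hNU.toSup

theorem uep_of_homog {X : Type u} [NormedAddCommGroup X] [NormedSpace ℂ X] [CompleteSpace X]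
    [TopologicalSpace.SeparableSpace X] (hX : Homog ℂ X) : UEp X := by
  have h : ∀ d, Pd X d := by
    intro d
    induction d with
    | zero => exact pd_zero hX
    | succ d ih => exact pd_succ hX ih
  intro E hE K hK δ hδ
  exact h (finrank ℂ E) E hE le_rfl K hK δ hδ

end Pool.Agent.TH319
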