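import Pool.Agent.TH319.NUlem
import Pool.Agent.TH113.HomogPerturb
import Pool.Agent.TH113.HomogCombine
import Pool.Agent.TH874.HomogTop

/-!
An almost unitarily invariant pair relative to its common kernel, seen from an almost isometric
projection.
-/

namespace Pool.Agent.TH319

open Module Filter Topology

universe u

section
variable {Y : Type*} [NormedAddCommGroup Y] [NormedSpace ℂ Y]

/-- The remainder space. -/
def Nn (P : Y →ₗ[ℂ] Y) (φu φv : Y →ₗ[ℂ] ℂ) : Submodule ℂ Y :=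
  LinearMap.ker P ⊓ LinearMap.ker φu ⊓ LinearMap.ker φv

/-- First alternative: a pair in the kernel. -/
def AltA (δ : ℝ) (P : Y →ₗ[ℂ] Y) (φu φv : Y →ₗ[ℂ] ℂ) : Prop :=
  ∃ u' v' : Y, P u' = 0 ∧ P v' = 0 ∧ u' ≠ 0 ∧ NU δ u' v' (LinearMap.range P ⊔ Nn P φu φv)

/-- Second alternative: a pair across. -/
def AltB (δ : ℝ) (P : Y →ₗ[ℂ] Y) (φu φv : Y →ₗ[ℂ] ℂ) : Prop :=
  ∃ e m : Y, ∃ φ : Y →ₗ[ℂ] ℂ, P e = e ∧ P m = 0 ∧ e ≠ 0 ∧ φ e ≠ 0 ∧
    NU δ e m ((LinearMap.range P ⊓ LinearMap.ker φ) ⊔ Nn P φu φv)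

/-- Third alternative: a pair in the range. -/
def AltC (δ : ℝ) (P : Y →ₗ[ℂ] Y) (φu φv : Y →ₗ[ℂ] ℂ) : Prop :=
  ∃ u' v' : Y, P u' = u' ∧ P v' = v' ∧ u' ≠ 0 ∧
    NU δ u' v' ((LinearMap.range P ⊓ LinearMap.ker φu ⊓ LinearMap.ker φv) ⊔ Nn P φu φv)

end

/-- The mixed case. -/
theorem mixed_case {Y : Type u} [NormedAddCommGroup Y] [NormedSpace ℂ Y] {ε κ κ' δ : ℝ}
    (hε0 : 0 ≤ ε) (hε : ε ≤ 1) (hκ'0 : 0 ≤ κ') (hκ' : κ' ≤ κ)
    (HP : ∀ (u v u' v' : Y)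
      (φu φv : Y →ₗ[ℂ] ℂ) (S' : Submodule ℂ Y),
      u ≠ 0 → φu u = 1 → φu v = 0 → φv u = 0 → φv v = 1 →
      NU κ u v (LinearMap.ker φu ⊓ LinearMap.ker φv) →
      ‖u - u'‖ ≤ κ * ‖u'‖ → ‖v - v'‖ ≤ κ * ‖v'‖ →
      (∀ α β : ℂ, ∀ k ∈ S', ‖φu k‖ * ‖u'‖
        ≤ 4 * κ * (‖α • u' + β • v' + k‖ + ‖α‖ * ‖u'‖ + ‖β‖ * ‖v'‖)) →
      (∀ α β : ℂ, ∀ k ∈ S', ‖φv k‖ * ‖v'‖
        ≤ 4 * κ * (‖α • u' + β • v' + k‖ + ‖α‖ * ‖u'‖ + ‖β‖ * ‖v'‖)) →
      NU δ u' v' S')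
    {P : Y →ₗ[ℂ] Y} {u v : Y} {φu φv : Y →ₗ[ℂ] ℂ} (hP : NP ε P) (hu0 : u ≠ 0)
    (h1 : φu u = 1) (h2 : φu v = 0) (h3 : φv u = 0) (h4 : φv v = 1)
    (hNU : NU κ u v (LinearMap.ker φu ⊓ LinearMap.ker φv))
    (hu1 : 1 / 2 ≤ ‖φu (P u)‖) (hu2 : ‖u - P u‖ ≤ κ' * ‖P u‖)
    (hv2 : ‖P v‖ ≤ κ' * ‖v - P v‖)
    (hv3 : ∀ x, P x = x → ‖φv x‖ * ‖v - P v‖ ≤ κ' * ‖x‖) :
    AltB δ P φu φv := by
  have hκ0 : 0 ≤ κ := hκ'0.trans hκ'
  refine ⟨P u, v - P v, φu, hP.idem u, ?_, ?_, ?_, ?_⟩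
  · rw [map_sub, hP.idem, sub_self]
  · intro h0
    rw [h0, map_zero, norm_zero] at hu1
    norm_num at hu1
  · intro h0
    rw [h0, norm_zero] at hu1
    norm_num at hu1
  · apply HP u v (P u) (v - P v) φu φv _ hu0 h1 h2 h3 h4 hNU
    · exact hu2.trans (by gcongr)
    · rw [sub_sub_cancel]
      exact hv2.trans (by gcongr)
    · intro α β k hk
      obtain ⟨x, hx, z, hz, rfl⟩ := Submodule.mem_sup.1 hk
      have e1 : φu (x + z) = 0 := by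
        rw [map_add, LinearMap.mem_ker.1 hx.2, LinearMap.mem_ker.1 hz.1.2, add_zero]
      rw [e1, norm_zero, zero_mul]
      positivity
    · intro α β k hk
      obtain ⟨x, hx, z, hz, rfl⟩ := Submodule.mem_sup.1 hk
      obtain ⟨⟨x', rfl⟩, -⟩ := hx
      have hz1 : P z = 0 := LinearMap.mem_ker.1 hz.1.1
      have hz2 : φv z = 0 := LinearMap.mem_ker.1 hz.2
      rw [map_add, hz2, add_zero]
      have h5 := hv3 (P x') (hP.idem _)
      have h6 := hP.norm_le hε0 (α • P u + β • (v - P v) + (P x' + z))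
      have e1 : P (α • P u + β • (v - P v) + (P x' + z)) = α • P u + P x' := by
        simp only [map_add, map_smul, map_sub, hP.idem, hz1]
        simp
      rw [e1] at h6
      have h7 : ‖P x'‖ ≤ ‖α • P u + P x'‖ + ‖α‖ * ‖P u‖ := by
        have := norm_sub_le (α • P u + P x') (α • P u)
        rwa [add_sub_cancel_left, norm_smul] at this
      set N := ‖α • P u + β • (v - P v) + (P x' + z)‖ with hN
      have hN0 : 0 ≤ N := norm_nonneg _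
      have hA : 0 ≤ ‖α‖ * ‖P u‖ := by positivity
      have hB : 0 ≤ ‖β‖ * ‖v - P v‖ := by positivity
      have h8 : ‖P x'‖ ≤ 2 * N + ‖α‖ * ‖P u‖ := by nlinarith
      calc _ ≤ κ' * ‖P x'‖ := h5
        _ ≤ κ * (2 * N + ‖α‖ * ‖P u‖) := by gcongr
        _ ≤ κ * (4 * (N + ‖α‖ * ‖P u‖ + ‖β‖ * ‖v - P v‖)) := by
            gcongr; linarith
        _ = _ := by ring

theorem trichotomy (δ : ℝ) (hδ : 0 < δ) :
    ∃ ε₀ > (0 : ℝ), ∀ (Y : Type u) [NormedAddCommGroup Y] [NormedSpace ℂ Y] (P : Y →ₗ[ℂ] Y)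
      (u v : Y) (φu φv : Y →ₗ[ℂ] ℂ), NP ε₀ P → u ≠ 0 → φu u = 1 → φu v = 0 → φv u = 0 →
      φv v = 1 → NU ε₀ u v (LinearMap.ker φu ⊓ LinearMap.ker φv) →
      AltA δ P φu φv ∨ AltB δ P φu φv ∨ AltC δ P φu φv := by
  obtain ⟨κ, hκ, HP⟩ := nu_perturb.{u} δ hδ
  obtain ⟨s₀, hs₀, ε₁, hε₁, H1⟩ := rank1_small.{u} κ hκ
  obtain ⟨ε₂, hε₂, H2⟩ := rank1_big.{u} s₀ δ hs₀ hδ
  obtain ⟨ε₀, hε₀, hε₀1, a0, a1, a2⟩ : ∃ ε₀ > (0 : ℝ), ε₀ ≤ 1 ∧ (1 + ε₀) ^ 2 - 1 ≤ κ ∧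
      (1 + ε₀) ^ 2 - 1 ≤ ε₁ ∧ (1 + ε₀) ^ 2 - 1 ≤ ε₂ := by
    refine ⟨min (min 1 (κ / 3)) (min (ε₁ / 3) (ε₂ / 3)), by positivity,
      (min_le_left _ _).trans (min_le_left _ _), ?_, ?_, ?_⟩
    all_goals
      set ε₀ := min (min 1 (κ / 3)) (min (ε₁ / 3) (ε₂ / 3)) with h
      have b0 : 0 < ε₀ := by rw [h]; positivity
      have b1 : ε₀ ≤ 1 := (min_le_left _ _).trans (min_le_left _ _)
      have b2 : ε₀ ≤ κ / 3 := (min_le_left _ _).trans (min_le_right _ _)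
      have b3 : ε₀ ≤ ε₁ / 3 := (min_le_right _ _).trans (min_le_left _ _)
      have b4 : ε₀ ≤ ε₂ / 3 := (min_le_right _ _).trans (min_le_right _ _)
      nlinarith
  have c0 : ε₀ ≤ (1 + ε₀) ^ 2 - 1 := by nlinarith
  refine ⟨ε₀, hε₀, ?_⟩
  intro Y _ _ P u v φu φv hP hu0 h1 h2 h3 h4 hNU
  have hv0 : v ≠ 0 := by
    rintro rfl
    rw [map_zero] at h4
    exact zero_ne_one h4
  have hRu := hNU.np_fst hε₀.le h1 h2 h3 h4
  have hRv := hNU.np_snd hε₀.le h1 h2 h3 h4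
  have hNn : ∀ (φ : Y →ₗ[ℂ] ℂ), (φ = φu ∨ φ = φv) →
      (LinearMap.range P ⊓ LinearMap.ker φ) ⊔ Nn P φu φv
        ≤ LinearMap.ker (φ ∘ₗ P) ⊓ LinearMap.ker φ := by
    intro φ hφ
    apply sup_le
    · rintro _ ⟨⟨x, rfl⟩, hx⟩
      refine ⟨?_, hx⟩
      show φ (P (P x)) = 0
      rw [hP.idem]; exact hx
    · rintro z hz
      have hz1 : P z = 0 := LinearMap.mem_ker.1 hz.1.1
      refine ⟨?_, ?_⟩
      · show φ (P z) = 0
        rw [hz1, map_zero]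
      · rcases hφ with rfl | rfl
        · exact hz.1.2
        · exact hz.2
  have hbig : ∀ (f : Y) (φ : Y →ₗ[ℂ] ℂ), (φ = φu ∨ φ = φv) →
      NP ((1 + ε₀) ^ 2 - 1) (φ.smulRight f) → φ f = 1 →
      s₀ ≤ ‖φ (P f) * (1 - φ (P f))‖ → AltB δ P φu φv := by
    intro f φ hφ hR hf hs
    obtain ⟨hg0, c, hc, hN⟩ := H2 Y P f φ (hP.mono (c0.trans a2)) (hR.mono a2) hf hs
    refine ⟨P f, c • (f - P f), φ, hP.idem f, ?_, hg0, ?_, hN.mono_sub (hNn φ hφ)⟩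
    · rw [map_smul, map_sub, hP.idem, sub_self, smul_zero]
    · intro h0
      rw [h0, zero_mul, norm_zero] at hs
      linarith
  by_cases hsu : s₀ ≤ ‖φu (P u) * (1 - φu (P u))‖
  · exact Or.inr (Or.inl (hbig u φu (Or.inl rfl) hRu h1 hsu))
  by_cases hsv : s₀ ≤ ‖φv (P v) * (1 - φv (P v))‖
  · exact Or.inr (Or.inl (hbig v φv (Or.inr rfl) hRv h4 hsv))
  push Not at hsu hsv
  have hcu := H1 Y P u φu (hP.mono (c0.trans a1)) (hRu.mono a1) h1 hsu.le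
  have hcv := H1 Y P v φv (hP.mono (c0.trans a1)) (hRv.mono a1) h4 hsv.le
  have hNUκ : NU κ u v (LinearMap.ker φu ⊓ LinearMap.ker φv) := hNU.mono (c0.trans a0)
  have hNUκ' : NU κ v u (LinearMap.ker φv ⊓ LinearMap.ker φu) := by
    rw [inf_comm]
    exact (hNU.swap hε₀.le).mono a0
  rcases hcu with ⟨hu1, hu2, hu3⟩ | ⟨hu1, hu2, hu3⟩
  · rcases hcv with ⟨hv1, hv2, hv3⟩ | ⟨hv1, hv2, hv3⟩
    · -- both in the range
      right; right
      refine ⟨P u, P v, hP.idem u, hP.idem v, ?_, ?_⟩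
      · intro h0
        rw [h0, map_zero, norm_zero] at hu1
        norm_num at hu1
      · apply HP Y u v (P u) (P v) φu φv _ hu0 h1 h2 h3 h4 hNUκ hu2 hv2
        · intro α β k hk
          obtain ⟨x, hx, z, hz, rfl⟩ := Submodule.mem_sup.1 hk
          have e1 : φu (x + z) = 0 := by
            rw [map_add, LinearMap.mem_ker.1 hx.1.2, LinearMap.mem_ker.1 hz.1.2, add_zero]
          rw [e1, norm_zero, zero_mul]
          positivity
        · intro α β k hk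
          obtain ⟨x, hx, z, hz, rfl⟩ := Submodule.mem_sup.1 hk
          have e1 : φv (x + z) = 0 := by
            rw [map_add, LinearMap.mem_ker.1 hx.2, LinearMap.mem_ker.1 hz.2, add_zero]
          rw [e1, norm_zero, zero_mul]
          positivity
    · right; left
      exact mixed_case hε₀.le hε₀1 hκ.le le_rfl (HP Y) hP hu0 h1 h2 h3 h4 hNUκ hu1 hu2 hv2 hv3
  · rcases hcv with ⟨hv1, hv2, hv3⟩ | ⟨hv1, hv2, hv3⟩
    · right; left
      have := mixed_case hε₀.le hε₀1 hκ.le le_rfl (HP Y) hP hv0 h4 h3 h2 h1 hNUκ' hv1 hv2 hu2 hu3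
      obtain ⟨e, m, φ, b1, b2, b3, b4, b5⟩ := this
      refine ⟨e, m, φ, b1, b2, b3, b4, ?_⟩
      have e1 : Nn P φu φv = Nn P φv φu := by
        unfold Nn
        rw [inf_assoc, inf_assoc, inf_comm (LinearMap.ker φu)]
      rw [e1]
      exact b5
    · -- both in the kernel
      left
      refine ⟨u - P u, v - P v, ?_, ?_, ?_, ?_⟩
      · rw [map_sub, hP.idem, sub_self]
      · rw [map_sub, hP.idem, sub_self]
      · intro h0
        have : 1 - φu (P u) = φu (u - P u) := by rw [map_sub, h1]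
        rw [this, h0, map_zero, norm_zero] at hu1
        norm_num at hu1
      · have hgen : ∀ (φ : Y →ₗ[ℂ] ℂ) (f : Y), (φ = φu ∨ φ = φv) →
            (∀ x, P x = x → ‖φ x‖ * ‖f - P f‖ ≤ κ * ‖x‖) → ∀ α β : ℂ,
            ∀ k ∈ LinearMap.range P ⊔ Nn P φu φv, ‖φ k‖ * ‖f - P f‖
              ≤ 4 * κ * (‖α • (u - P u) + β • (v - P v) + k‖ + ‖α‖ * ‖u - P u‖
                + ‖β‖ * ‖v - P v‖) := by
          intro φ f hφ h5 α β k hk
          obtain ⟨x, ⟨x', rfl⟩, z, hz, rfl⟩ := Submodule.mem_sup.1 hk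
          have hz1 : P z = 0 := LinearMap.mem_ker.1 hz.1.1
          have hz2 : φ z = 0 := by
            rcases hφ with rfl | rfl
            · exact LinearMap.mem_ker.1 hz.1.2
            · exact LinearMap.mem_ker.1 hz.2
          rw [map_add, hz2, add_zero]
          have h6 := hP.norm_le hε₀.le (α • (u - P u) + β • (v - P v) + (P x' + z))
          have e1 : P (α • (u - P u) + β • (v - P v) + (P x' + z)) = P x' := by
            simp only [map_add, map_smul, map_sub, hP.idem, hz1]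
            simp
          rw [e1] at h6
          have h7 := h5 (P x') (hP.idem _)
          set N := ‖α • (u - P u) + β • (v - P v) + (P x' + z)‖ with hN
          have hN0 : 0 ≤ N := norm_nonneg _
          have hA : 0 ≤ ‖α‖ * ‖u - P u‖ := by positivity
          have hB : 0 ≤ ‖β‖ * ‖v - P v‖ := by positivity
          have h8 : ‖P x'‖ ≤ 2 * N := by nlinarith
          calc _ ≤ κ * ‖P x'‖ := h7
            _ ≤ κ * (2 * N) := by gcongr
            _ ≤ κ * (4 * (N + ‖α‖ * ‖u - P u‖ + ‖β‖ * ‖v - P v‖)) :=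
                mul_le_mul_of_nonneg_left (by linarith) hκ.le
            _ = _ := by ring
        apply HP Y u v (u - P u) (v - P v) φu φv _ hu0 h1 h2 h3 h4 hNUκ
        · rw [sub_sub_cancel]; exact hu2
        · rw [sub_sub_cancel]; exact hv2
        · exact hgen φu u (Or.inl rfl) hu3
        · exact hgen φv v (Or.inr rfl) hv3

end Pool.Agent.TH319
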